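import Pool.Agent.U912.Few.QOne

set_option autoImplicit false

/-! Further cases. -/

open MeasureTheory Set Filter Topology ENNReal NNReal Metric

namespace Pool.Agent.U912.Few

open Pool.Agent.H810R3.Tub Pool.Agent.R251.Nec

variable {d : ℕ}

/-- The trivial dependence on the number of values. -/
theorem few_trivial (d : ℕ) (hd : 1 ≤ d) {p : ℝ} (hp : ((d : ℝ) + 1) / d < p) :
    LossFew d p (1 - 1 / p) := by
  intro σ κ hσ hκ
  obtain ⟨hp1, hpd⟩ := exp_ok hd hp
  have hp0 : 0 < p := by linarith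
  obtain ⟨D, hD0, hD⟩ := group d hd hσ hp1.le hpd
  have hw := wv_pos d
  set Z : ℝ := D * κ ^ (1 - p) * (2 ^ (d + 1) / wv d) with hZ
  have hZ0 : 0 < Z := by positivity
  refine ⟨1 + Z, by positivity, ?_⟩
  intro N hN ι _ ω f a m hcaps hm
  have hN0 : 0 < N := by linarith
  obtain ⟨hω, hsep, hcard, hf⟩ := hcaps
  have hb := hD N hN ι ω f hω hsep hf N hN0 Set.univ MeasurableSet.univ (fun t _ => le_rfl) a m
    ((1 + d) * N ^ 2) (by
      intro i z hz _
      have h := box_sub_ball hN (hf i) hz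
      rwa [mem_closedBall, dist_zero_right] at h) (by
      intro y
      have h1 : ({x | x ∈ range a ∧ ‖y - x‖ ≤ (1 + d) * N ^ 2} : Set (Space d)) ⊆ range a := fun x hx => hx.1
      have h2 := (Set.ncard_le_ncard h1 (Set.finite_range a)).trans hm
      exact_mod_cast h2)
  have hexp : N ^ (d + 2 * (d * (p - 1)) : ℝ) * N ^ (1 - d * (p - 1) : ℝ) = N ^ (d * p + 1 : ℝ) := by
    rw [← Real.rpow_add hN0]
    congr 1
    ring
  rw [hexp] at hb
  rw [iqp_iff _ _ _ _ _ hp0]
  refine iq_of (E := D) (κ := κ) (p := p) hD0.le hκ hN hp1.le (by positivity) (by positivity) hf hcard a ?_ ?_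
  · have e : ∀ y, Fb N ω f a y = Gs N ω f Set.univ a y := by
      intro y
      rw [Fb_sub]
      unfold Gs
      simp
    simp only [e]
    refine hb.trans (le_of_eq ?_)
    congr 1
    have h3 : ((m:ℝ) ^ (1 - 1 / p)) ^ p = (m:ℝ) ^ (p - 1) := by
      rw [← Real.rpow_mul (Nat.cast_nonneg _)]
      congr 1
      field_simp
    rw [h3]
    ring
  · calc Z ≤ 1 + Z := by linarith
      _ = (1 + Z) ^ (1:ℝ) := (Real.rpow_one _).symm
      _ ≤ (1 + Z) ^ p := Real.rpow_le_rpow_of_exponent_le (by linarith) hp1.le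

/-- Separated positions, without a bound for their number. -/
theorem lattice (d : ℕ) (hd : 1 ≤ d) {σ κ R : ℝ} (hσ : 0 < σ) (hκ : 0 < κ) (hR : 0 ≤ R) {p : ℝ}
    (hp : 1 < p) (hpd : 1 < d * (p - 1)) {θ : ℝ} (hθ : θ = (p - 1) / (d * (p - 1) - 1)) :
    ∃ C : ℝ, 1 ≤ C ∧ ∀ (N : ℝ), 1 ≤ N → ∀ (ι : Type) [Fintype ι] (ω : ι → Vec d)
      (f : ι → Fin d → Space d), Caps σ κ N ω f →
      ∀ (a x : ι → Space d) (s : ℝ), (∀ i, ‖a i - x i‖ ≤ R * N) →
        (∀ i j, x i = x j ∨ s ≤ ‖x i - x j‖) →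
        C * N ^ ((1 + 2 * (d + 1) * θ) / (1 + (d + 1) * θ) : ℝ) ≤ s →
        Iq C N p ω f a := by
  obtain ⟨C₀, hC₀, h⟩ := separated d hd hσ hκ hR hp.le hpd
  rw [← hθ] at h
  have hθ0 : 0 < θ := by
    rw [hθ]
    exact div_pos (by linarith) (by linarith)
  set b : ℝ := 1 + 2 * R with hb
  set C₁ : ℝ := 2 * ((1 + d) * b ^ 2) + 2 with hC₁
  have hC₁2 : 2 ≤ C₁ := by
    have : 0 ≤ 2 * ((1 + d) * b ^ 2) := by positivity
    linarith
  have hC₁1 : 1 ≤ C₁ := by linarith
  have hC₁0 : 0 < C₁ := by linarith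
  set u : ℝ := (d + 1) * θ with hu
  have hu0 : 0 < u := by positivity
  set A : ℝ := C₁ ^ u with hA
  have hA1 : 1 ≤ A := Real.one_le_rpow hC₁1 hu0.le
  refine ⟨C₀ + A, by linarith, ?_⟩
  intro N hN ι _ ω f hcaps a x s hax hsepx hs
  have hN0 : 0 < N := by linarith
  set γ : ℝ := (1 + 2 * (d + 1) * θ) / (1 + (d + 1) * θ) with hγ
  have hγe : γ * (1 + u) = 1 + 2 * u := by
    rw [hγ, hu]
    field_simp
  have hγ1 : 1 ≤ γ := by
    rw [hγ, one_le_div (by positivity)]
    nlinarith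
  have hNγ : 1 ≤ N ^ γ := Real.one_le_rpow hN (by linarith)
  have hNγ2 : N ≤ N ^ γ := by
    calc N = N ^ (1:ℝ) := (Real.rpow_one N).symm
      _ ≤ N ^ γ := Real.rpow_le_rpow_of_exponent_le hN hγ1
  have hAs : A * N ^ γ ≤ s := by
    refine le_trans ?_ hs
    have : 0 ≤ C₀ * N ^ γ := by positivity
    linarith
  have hs0 : 0 < s := lt_of_lt_of_le (by positivity) hAs
  -- the count
  have hcnt : ∀ y, (({z | z ∈ range x ∧ ‖y - z‖ ≤ (1 + d) * (b * N) ^ 2} : Set (Space d)).ncard : ℝ) ≤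
      (2 * ((1 + d) * (b * N) ^ 2) / s + 2) ^ (d + 1) := by
    intro y
    refine pack_space (Set.finite_range x) hs0 (by positivity) ?_ y
    rintro _ ⟨i, rfl⟩ _ ⟨j, rfl⟩ hne
    exact (hsepx i j).resolve_left hne
  have hmain : ∀ m : ℝ, 1 ≤ m → (2 * ((1 + d) * (b * N) ^ 2) / s + 2) ^ (d + 1) ≤ m →
      m ^ θ * N ≤ s → Iq (C₀ + A) N p ω f a := by
    intro m hm1 hm2 hm3
    refine iq_mono (by linarith) (h N hN ι ω f hcaps a x m s hm1 hax hsepx (fun y => (hcnt y).trans hm2) hm3) ?_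
    linarith
  rcases le_total s (N ^ 2) with hc | hc
  · refine hmain ((C₁ * (N ^ 2 / s)) ^ (d + 1)) ?_ ?_ ?_
    · apply one_le_pow₀
      have : 1 ≤ N ^ 2 / s := by rw [le_div_iff₀ hs0]; linarith
      nlinarith
    · apply pow_le_pow_left₀ (by positivity)
      have h1 : 1 ≤ N ^ 2 / s := by rw [le_div_iff₀ hs0]; linarith
      have h2 : 2 * ((1 + d) * (b * N) ^ 2) / s = 2 * ((1 + d) * b ^ 2) * (N ^ 2 / s) := by
        field_simp
      rw [h2, hC₁]
      nlinarith
    · have e1 : ((C₁ * (N ^ 2 / s)) ^ (d + 1)) ^ θ = A * (N ^ (2 * u) / s ^ u) := by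
        rw [← Real.rpow_natCast (C₁ * (N ^ 2 / s)) (d + 1), ← Real.rpow_mul (by positivity)]
        have e2 : ((d + 1 : ℕ) : ℝ) * θ = u := by rw [hu]; push_cast; ring
        rw [e2, Real.mul_rpow hC₁0.le (by positivity), Real.div_rpow (by positivity) hs0.le,
          ← Real.rpow_natCast N 2, ← Real.rpow_mul hN0.le]
        norm_num [hA]
      rw [e1]
      have h3 : A * N ^ (1 + 2 * u) ≤ s ^ (1 + u) := by
        calc A * N ^ (1 + 2 * u) ≤ A ^ (1 + u) * N ^ (1 + 2 * u) := by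
              have : A ≤ A ^ (1 + u) := by
                calc A = A ^ (1:ℝ) := (Real.rpow_one A).symm
                  _ ≤ A ^ (1 + u) := Real.rpow_le_rpow_of_exponent_le hA1 (by linarith)
              gcongr
          _ = (A * N ^ γ) ^ (1 + u) := by
              rw [Real.mul_rpow (by positivity) (by positivity), ← Real.rpow_mul hN0.le, hγe]
          _ ≤ s ^ (1 + u) := Real.rpow_le_rpow (by positivity) hAs (by positivity)
      have h4 : s ^ (1 + u) = s * s ^ u := by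
        rw [Real.rpow_add hs0, Real.rpow_one]
      have h5 : N ^ (1 + 2 * u) = N * N ^ (2 * u) := by
        rw [Real.rpow_add hN0, Real.rpow_one]
      have hsu : 0 < s ^ u := by positivity
      rw [h4, h5] at h3
      calc A * (N ^ (2 * u) / s ^ u) * N = (A * (N * N ^ (2 * u))) / s ^ u := by
            field_simp
        _ ≤ (s * s ^ u) / s ^ u := by gcongr
        _ = s := by field_simp
  · refine hmain (C₁ ^ (d + 1)) (one_le_pow₀ hC₁1) ?_ ?_
    · apply pow_le_pow_left₀ (by positivity)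
      rw [hC₁]
      have h1 : N ^ 2 / s ≤ 1 := by rw [div_le_one hs0]; exact hc
      have h2 : 2 * ((1 + d) * (b * N) ^ 2) / s = 2 * ((1 + d) * b ^ 2) * (N ^ 2 / s) := by
        field_simp
      rw [h2]
      have h3 : 0 ≤ 2 * ((1 + d) * b ^ 2) := by positivity
      nlinarith
    · have e1 : (C₁ ^ (d + 1)) ^ θ = A := by
        rw [← Real.rpow_natCast C₁ (d + 1), ← Real.rpow_mul hC₁0.le, hA, hu]
        congr 1
        push_cast
        ring
      rw [e1]
      refine le_trans ?_ hAs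
      gcongr

end Pool.Agent.U912.Few
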