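import Pool.Agent.U912.Few.Bush

set_option autoImplicit false

/-! Definitions and conversions. -/

open MeasureTheory Set Filter Topology ENNReal NNReal Metric

namespace Pool.Agent.U912.Few

open Pool.Agent.H810R3.Tub Pool.Agent.R251.Nec

variable {d : ℕ}

/-- caps -/
def Caps {d : ℕ} {ι : Type} [Fintype ι] (σ κ N : ℝ) (ω : ι → Vec d) (f : ι → Fin d → Space d) : Prop :=
  (∀ i, ‖ω i‖ ≤ 1) ∧ (∀ i j, i ≠ j → σ / N ≤ ‖ω i - ω j‖) ∧ κ * N ^ d ≤ (Fintype.card ι : ℝ) ∧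
    ∀ i, Orthonormal ℝ (Fin.cons (nor (ω i)) (f i) : Fin (d + 1) → Space d)

/-- the inequality with the constant `C`, in terms of integrals -/
def Iq {d : ℕ} {ι : Type} [Fintype ι] (C N p : ℝ) (ω : ι → Vec d)
    (f : ι → Fin d → Space d) (a : ι → Space d) : Prop :=
  ∫⁻ y, Fb N ω f a y ^ p ≤ ENNReal.ofReal C ^ p * ∫⁻ y, Fb N ω f (fun _ => 0) y ^ p

theorem eLp_eq {ι : Type} [Fintype ι] (N : ℝ) (ω : ι → Vec d)
    (f : ι → Fin d → Space d) (a : ι → Space d) {p : ℝ} (hp : 0 < p) :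
    eLpNorm (fun y : Space d => ∑ i, (box N (nor (ω i)) (f i) (a i)).indicator (fun _ => (1 : ℝ)) y)
      (ENNReal.ofReal p) volume = (∫⁻ y, Fb N ω f a y ^ p) ^ (1 / p) := by
  rw [eLpNorm_eq_lintegral_rpow_enorm_toReal (by simpa using hp) ENNReal.ofReal_ne_top,
    ENNReal.toReal_ofReal hp.le]
  congr 1
  refine lintegral_congr fun y => ?_
  rw [enorm_sum_box]

theorem iq_iff {ι : Type} [Fintype ι] (C N : ℝ) (ω : ι → Vec d)
    (f : ι → Fin d → Space d) (a : ι → Space d) {p : ℝ} (hp : 0 < p) :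
    eLpNorm (fun y : Space d => ∑ i, (box N (nor (ω i)) (f i) (a i)).indicator (fun _ => (1 : ℝ)) y)
      (ENNReal.ofReal p) volume ≤ ENNReal.ofReal C *
    eLpNorm (fun y : Space d => ∑ i, (box N (nor (ω i)) (f i) 0).indicator (fun _ => (1 : ℝ)) y)
      (ENNReal.ofReal p) volume ↔ Iq C N p ω f a := by
  have h0 := eLp_eq N ω f (fun _ => (0 : Space d)) hp
  rw [eLp_eq N ω f a hp, h0]
  unfold Iq
  have e : ENNReal.ofReal C ^ p * ∫⁻ y, Fb N ω f (fun _ => 0) y ^ p =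
      (ENNReal.ofReal C * (∫⁻ y, Fb N ω f (fun _ => 0) y ^ p) ^ (1 / p)) ^ p := by
    rw [ENNReal.mul_rpow_of_nonneg _ _ hp.le, ← ENNReal.rpow_mul, one_div_mul_cancel hp.ne',
      ENNReal.rpow_one]
  rw [e, one_div, ENNReal.rpow_inv_le_iff hp]

/-- lower bound for the centred family -/
theorem low {ι : Type} [Fintype ι] {N : ℝ} (hN : 1 ≤ N) {ω : ι → Vec d} {f : ι → Fin d → Space d}
    (hf : ∀ i, Orthonormal ℝ (Fin.cons (nor (ω i)) (f i) : Fin (d + 1) → Space d)) {p : ℝ} (hp : 0 ≤ p) :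
    ENNReal.ofReal ((Fintype.card ι : ℝ) ^ p * ((N / 2) ^ (d + 1) * wv d)) ≤
      ∫⁻ y, Fb N ω f (fun _ => 0) y ^ p := by
  have hN0 : 0 < N := by linarith
  have hwe : volume (ball (0 : Space d) 1) = ENNReal.ofReal (wv d) := by
    rw [wv, ENNReal.ofReal_toReal measure_ball_lt_top.ne]
  have hbv : volume (ball (0 : Space d) (N / 2)) = ENNReal.ofReal ((N / 2) ^ (d + 1) * wv d) := by
    rw [Measure.addHaar_ball_of_pos _ _ (by positivity), finrank_space, hwe,
      ← ENNReal.ofReal_mul (by positivity)]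
  calc ENNReal.ofReal ((Fintype.card ι : ℝ) ^ p * ((N / 2) ^ (d + 1) * wv d))
      = ∫⁻ _ in ball (0 : Space d) (N / 2), ENNReal.ofReal (Fintype.card ι : ℝ) ^ p := by
        rw [lintegral_const, Measure.restrict_apply_univ, hbv, ENNReal.ofReal_mul (by positivity),
          ENNReal.ofReal_rpow_of_nonneg (by positivity) hp]
    _ = ∫⁻ y in ball (0 : Space d) (N / 2), Fb N ω f (fun _ => 0) y ^ p := by
        refine setLIntegral_congr_fun measurableSet_ball fun y hy => ?_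
        show ENNReal.ofReal (Fintype.card ι : ℝ) ^ p = Fb N ω f (fun _ => 0) y ^ p
        congr 1
        unfold Fb
        rw [Finset.sum_congr rfl (fun i _ => indicator_of_mem (ball_sub_box hN (hf i) hy) _)]
        simp
    _ ≤ _ := setLIntegral_le_lintegral _ _

/-- From a bound for the integral to the inequality. -/
theorem iq_of {ι : Type} [Fintype ι] {E κ N p B C : ℝ} (hE : 0 ≤ E) (hκ : 0 < κ) (hN : 1 ≤ N) (hp : 1 ≤ p)
    (hB : 0 ≤ B) (hC : 0 ≤ C)
    {ω : ι → Vec d} {f : ι → Fin d → Space d}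
    (hf : ∀ i, Orthonormal ℝ (Fin.cons (nor (ω i)) (f i) : Fin (d + 1) → Space d))
    (hcard : κ * N ^ d ≤ (Fintype.card ι : ℝ)) (a : ι → Space d)
    (h : ∫⁻ y, Fb N ω f a y ^ p ≤ ENNReal.ofReal (E * ((Fintype.card ι : ℝ) * N ^ (d * p + 1 : ℝ)) * B ^ p))
    (hEC : E * κ ^ (1 - p) * (2 ^ (d + 1) / wv d) ≤ C ^ p) :
    Iq (C * B) N p ω f a := by
  have hN0 : 0 < N := by linarith
  have hp0 : 0 < p := by linarith
  have hw := wv_pos d
  unfold Iq
  refine h.trans ?_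
  refine le_trans ?_ (mul_le_mul' le_rfl (low hN hf hp0.le))
  rw [ENNReal.ofReal_rpow_of_nonneg (by positivity) hp0.le, ← ENNReal.ofReal_mul (by positivity)]
  apply ENNReal.ofReal_le_ofReal
  set c : ℝ := (Fintype.card ι : ℝ) with hc
  have hc0 : 0 < c := lt_of_lt_of_le (by positivity) hcard
  have h1 : N ^ (d * (p - 1) : ℝ) * κ ^ (p - 1) ≤ c ^ (p - 1) := by
    have h2 : (κ * N ^ d) ^ (p - 1) ≤ c ^ (p - 1) :=
      Real.rpow_le_rpow (by positivity) hcard (by linarith)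
    rw [Real.mul_rpow hκ.le (by positivity), ← Real.rpow_natCast N d, ← Real.rpow_mul hN0.le] at h2
    linarith
  have h3 : N ^ (d * p + 1 : ℝ) = N ^ (d * (p - 1) : ℝ) * N ^ (d + 1) := by
    rw [← Real.rpow_natCast N (d + 1), ← Real.rpow_add hN0]
    congr 1
    push_cast
    ring
  have h4 : c ^ p = c * c ^ (p - 1) := by
    rw [← Real.rpow_one_add' hc0.le (by linarith)]
    congr 1
    ring
  have h5 : κ ^ (1 - p) * κ ^ (p - 1) = 1 := by
    rw [← Real.rpow_add hκ]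
    norm_num
  rw [Real.mul_rpow hC hB, h4, h3]
  have h6 : 0 ≤ κ ^ (1 - p) := by positivity
  calc E * (c * (N ^ (d * (p - 1) : ℝ) * N ^ (d + 1))) * B ^ p
      = E * κ ^ (1 - p) * (c * N ^ (d + 1) * B ^ p) * (N ^ (d * (p - 1) : ℝ) * κ ^ (p - 1)) := by
        calc _ = E * (κ ^ (1 - p) * κ ^ (p - 1)) * (c * (N ^ (d * (p - 1) : ℝ) * N ^ (d + 1))) * B ^ p := by
              rw [h5, mul_one]
          _ = _ := by ring
    _ ≤ E * κ ^ (1 - p) * (c * N ^ (d + 1) * B ^ p) * c ^ (p - 1) := by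
        apply mul_le_mul_of_nonneg_left h1 (by positivity)
    _ = (E * κ ^ (1 - p) * (2 ^ (d + 1) / wv d)) * (B ^ p * (c * c ^ (p - 1) * ((N / 2) ^ (d + 1) * wv d))) := by
        rw [div_pow]
        field_simp
    _ ≤ C ^ p * (B ^ p * (c * c ^ (p - 1) * ((N / 2) ^ (d + 1) * wv d))) := by
        apply mul_le_mul_of_nonneg_right hEC (by positivity)
    _ = _ := by ring

end Pool.Agent.U912.Few
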