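import Pool.Agent.R251.Nec.Low
import Pool.Agent.R251.Nec.Grid

set_option autoImplicit false

/-! Centred families of boxes: moments of order `p > n/(n-1)`, also away from the centre. -/

open MeasureTheory Set Filter Topology ENNReal NNReal Metric

namespace Pool.Agent.U912.Few

open Pool.Agent.H810R3.Tub Pool.Agent.R251.Nec

variable {d : ℕ}

/-- The number of caps. -/
theorem card_le {ι : Type} [Fintype ι] {σ N : ℝ} (hσ : 0 < σ) (hN : 1 ≤ N) {ω : ι → Vec d}
    (hω : ∀ i, ‖ω i‖ ≤ 1) (hsep : ∀ i j, i ≠ j → σ / N ≤ ‖ω i - ω j‖) :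
    (Fintype.card ι : ℝ) ≤ ((2 / σ + 2) * N) ^ d := by
  have hN0 : 0 < N := by linarith
  have h := pack (s := σ / N) (ρ := 1) (by positivity) zero_le_one ω hsep 0 Finset.univ
    (by intro i _; rw [sub_zero]; exact hω i)
  rw [Finset.card_univ] at h
  refine h.trans ?_
  apply pow_le_pow_left₀ (by positivity)
  have : 2 * 1 / (σ / N) = 2 / σ * N := by field_simp
  rw [this]
  nlinarith

/-- Pointwise bound for the centred family. -/
theorem Fb_pt {ι : Type} [Fintype ι] {σ N : ℝ} (hσ : 0 < σ) (hN : 1 ≤ N) {ω : ι → Vec d}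
    {f : ι → Fin d → Space d} (hω : ∀ i, ‖ω i‖ ≤ 1) (hsep : ∀ i j, i ≠ j → σ / N ≤ ‖ω i - ω j‖)
    (hf : ∀ i, Orthonormal ℝ (Fin.cons (nor (ω i)) (f i) : Fin (d + 1) → Space d)) (x : Vec d) (t : ℝ) :
    Fb N ω f (fun _ => 0) (WithLp.toLp 2 (x, t)) ≤
      ENNReal.ofReal (((3 * d / (2 * σ) + 2 * (1 + d) + (2 / σ + 2)) * N ^ 2 * (max |t| N)⁻¹) ^ d) := by
  have hN0 : 0 < N := by linarith
  rcases le_total |t| N with htN | htN
  · rw [max_eq_right htN]
    refine (Fb_le N ω f _ _).trans ?_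
    rw [← ENNReal.ofReal_natCast]
    apply ENNReal.ofReal_le_ofReal
    refine (card_le hσ hN hω hsep).trans ?_
    apply pow_le_pow_left₀ (by positivity)
    have e : (3 * d / (2 * σ) + 2 * (1 + d) + (2 / σ + 2)) * N ^ 2 * N⁻¹ =
        (3 * d / (2 * σ) + 2 * (1 + d) + (2 / σ + 2)) * N := by
      field_simp
    rw [e]
    apply mul_le_mul_of_nonneg_right _ hN0.le
    have : (0:ℝ) ≤ 3 * d / (2 * σ) + 2 * (1 + d) := by positivity
    linarith
  · rw [max_eq_left htN]
    have ht0 : 0 < |t| := by linarith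
    by_cases htS : |t| ≤ (1 + d) * N ^ 2
    · refine (Fb_zero_le hσ hN hω hsep hf (abs_pos.1 ht0) htS).trans ?_
      apply ENNReal.ofReal_le_ofReal
      apply pow_le_pow_left₀ (by positivity)
      have h2 : (0:ℝ) ≤ 2 / σ + 2 := by positivity
      refine mul_le_mul_of_nonneg_right (mul_le_mul_of_nonneg_right ?_ (by positivity)) (by positivity)
      linarith
    · rw [Fb_zero_out hN hω hf htS]
      exact zero_le

/-- Moments of the centred family over a set of heights. -/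
theorem bush (d : ℕ) (hd : 1 ≤ d) {σ : ℝ} (hσ : 0 < σ) {p : ℝ} (hp : 1 ≤ p) (hpd : 1 < d * (p - 1)) :
    ∃ D : ℝ, 0 < D ∧ ∀ (N : ℝ), 1 ≤ N → ∀ (ι : Type) [Fintype ι] (ω : ι → Vec d)
      (f : ι → Fin d → Space d), (∀ i, ‖ω i‖ ≤ 1) → (∀ i j, i ≠ j → σ / N ≤ ‖ω i - ω j‖) →
      (∀ i, Orthonormal ℝ (Fin.cons (nor (ω i)) (f i) : Fin (d + 1) → Space d)) →
      ∀ (ρ : ℝ), 0 < ρ → ∀ S : Set ℝ, MeasurableSet S → (∀ t ∈ S, max |t| ρ ≤ max |t| N) →
      ∫⁻ y in {y : Space d | y.snd ∈ S}, Fb N ω f (fun _ => 0) y ^ p ≤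
        ENNReal.ofReal (D * ((Fintype.card ι : ℝ) * (N ^ (d + 2 * (d * (p - 1)) : ℝ) *
          ρ ^ (1 - d * (p - 1) : ℝ)))) := by
  set r : ℝ := d * (p - 1) with hr
  have hd0 : (0:ℝ) < d := by exact_mod_cast hd
  have hr0 : 0 < r := by linarith
  set v := (volume (ball (0 : Vec d) 1)).toReal with hv
  have hvt : volume (ball (0 : Vec d) 1) ≠ ∞ := measure_ball_lt_top.ne
  have hv0 : 0 < v := ENNReal.toReal_pos (measure_ball_pos volume _ one_pos).ne' hvt
  set A : ℝ := 3 * d / (2 * σ) + 2 * (1 + d) + (2 / σ + 2) with hA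
  have hA0 : 0 < A := by positivity
  have hr1 : 0 < r - 1 := by linarith
  refine ⟨A ^ r * ((3 * d / 2) ^ d * v) * (2 * r / (r - 1)), by positivity, ?_⟩
  intro N hN ι _ ω f hω hsep hf ρ hρ S hS hSρ
  have hN0 : 0 < N := by linarith
  have hmp := WithLp.volume_preserving_toLp (Vec d) ℝ
  have hsnd : Measurable (fun y : Space d => y.snd) := by fun_prop
  have hSm : MeasurableSet {y : Space d | y.snd ∈ S} := hsnd hS
  have hg : Measurable ({y : Space d | y.snd ∈ S}.indicator (fun y : Space d => Fb N ω f (fun _ => 0) y ^ p)) :=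
    ((Fb_measurable N ω f _).pow_const _).indicator hSm
  have hSf : ∫⁻ y : Space d, {y : Space d | y.snd ∈ S}.indicator (fun y => Fb N ω f (fun _ => 0) y ^ p) y =
      ∫⁻ t : ℝ, ∫⁻ x : Vec d, {y : Space d | y.snd ∈ S}.indicator (fun y => Fb N ω f (fun _ => 0) y ^ p)
        (WithLp.toLp 2 (x, t)) := by
    rw [← hmp.lintegral_comp hg]
    have hg2 : Measurable (fun q : Vec d × ℝ => {y : Space d | y.snd ∈ S}.indicator
        (fun y => Fb N ω f (fun _ => 0) y ^ p) (WithLp.toLp 2 q)) :=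
      hg.comp hmp.measurable
    rw [Measure.volume_eq_prod, lintegral_prod_symm _ hg2.aemeasurable]
  rw [← lintegral_indicator hSm, hSf]
  set B : ℝ := (Fintype.card ι : ℝ) * ((3 * d * N / 2) ^ d * v) with hB
  have hB0 : 0 ≤ B := by positivity
  have hslice : ∀ t : ℝ, ∫⁻ x : Vec d, {y : Space d | y.snd ∈ S}.indicator
      (fun y => Fb N ω f (fun _ => 0) y ^ p) (WithLp.toLp 2 (x, t)) ≤
      ENNReal.ofReal ((A * N ^ 2) ^ r * B) * ENNReal.ofReal ((max |t - 0| ρ) ^ (-r)) := by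
    intro t
    rw [sub_zero]
    by_cases htS : t ∈ S
    · have hmx : 0 < max |t| ρ := lt_max_of_lt_right hρ
      have hb : ∀ x : Vec d, {y : Space d | y.snd ∈ S}.indicator
          (fun y => Fb N ω f (fun _ => 0) y ^ p) (WithLp.toLp 2 (x, t)) ≤
          ENNReal.ofReal ((A * N ^ 2) ^ r * (max |t| ρ) ^ (-r)) *
            Fb N ω f (fun _ => 0) (WithLp.toLp 2 (x, t)) := by
        intro x
        have hm : (WithLp.toLp 2 (x, t) : Space d) ∈ {y : Space d | y.snd ∈ S} := htS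
        rw [indicator_of_mem hm]
        have h1 := Fb_pt hσ hN hω hsep hf x t
        have e1 : Fb N ω f (fun _ => 0) (WithLp.toLp 2 (x, t)) ^ p =
            Fb N ω f (fun _ => 0) (WithLp.toLp 2 (x, t)) ^ (p - 1) *
            Fb N ω f (fun _ => 0) (WithLp.toLp 2 (x, t)) := by
          conv_lhs => rw [show p = (p - 1) + 1 by ring]
          rw [ENNReal.rpow_add_of_nonneg _ _ (by linarith) zero_le_one, ENNReal.rpow_one]
        rw [e1]
        refine mul_le_mul' ?_ le_rfl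
        refine (ENNReal.rpow_le_rpow h1 (by linarith)).trans ?_
        rw [ENNReal.ofReal_rpow_of_nonneg (by positivity) (by linarith)]
        apply ENNReal.ofReal_le_ofReal
        rw [← Real.rpow_natCast, ← Real.rpow_mul (by positivity), ← hr,
          Real.mul_rpow (by positivity) (by positivity), Real.rpow_neg hmx.le, ← Real.inv_rpow hmx.le]
        have h3 : (max |t| N)⁻¹ ≤ (max |t| ρ)⁻¹ := inv_anti₀ hmx (hSρ t htS)
        gcongr
      calc ∫⁻ x : Vec d, {y : Space d | y.snd ∈ S}.indicator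
              (fun y => Fb N ω f (fun _ => 0) y ^ p) (WithLp.toLp 2 (x, t))
          ≤ ∫⁻ x : Vec d, ENNReal.ofReal ((A * N ^ 2) ^ r * (max |t| ρ) ^ (-r)) *
            Fb N ω f (fun _ => 0) (WithLp.toLp 2 (x, t)) := lintegral_mono hb
        _ = ENNReal.ofReal ((A * N ^ 2) ^ r * (max |t| ρ) ^ (-r)) *
            ∫⁻ x : Vec d, Fb N ω f (fun _ => 0) (WithLp.toLp 2 (x, t)) :=
            lintegral_const_mul' _ _ ENNReal.ofReal_ne_top
        _ ≤ ENNReal.ofReal ((A * N ^ 2) ^ r * (max |t| ρ) ^ (-r)) * ENNReal.ofReal B :=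
            mul_le_mul' le_rfl (Fb_zero_int hN hω hf t)
        _ = _ := by
            rw [← ENNReal.ofReal_mul (by positivity), ← ENNReal.ofReal_mul (by positivity)]
            congr 1
            ring
    · have h0 : ∀ x : Vec d, {y : Space d | y.snd ∈ S}.indicator
          (fun y => Fb N ω f (fun _ => 0) y ^ p) (WithLp.toLp 2 (x, t)) = 0 := by
        intro x
        have hm : (WithLp.toLp 2 (x, t) : Space d) ∉ {y : Space d | y.snd ∈ S} := htS
        exact indicator_of_notMem hm _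
      simp only [h0, lintegral_zero]
      exact zero_le
  calc ∫⁻ t : ℝ, ∫⁻ x : Vec d, {y : Space d | y.snd ∈ S}.indicator
          (fun y => Fb N ω f (fun _ => 0) y ^ p) (WithLp.toLp 2 (x, t))
      ≤ ∫⁻ t : ℝ, ENNReal.ofReal ((A * N ^ 2) ^ r * B) * ENNReal.ofReal ((max |t - 0| ρ) ^ (-r)) :=
        lintegral_mono hslice
    _ = ENNReal.ofReal ((A * N ^ 2) ^ r * B) * ∫⁻ t : ℝ, ENNReal.ofReal ((max |t - 0| ρ) ^ (-r)) := by
        rw [lintegral_const_mul' _ _ ENNReal.ofReal_ne_top]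
    _ ≤ ENNReal.ofReal ((A * N ^ 2) ^ r * B) * ENNReal.ofReal (2 * r / (r - 1) * ρ ^ (1 - r)) :=
        mul_le_mul' le_rfl (trunc_int hpd hρ 0)
    _ = _ := by
        rw [← ENNReal.ofReal_mul (by positivity)]
        congr 1
        have e1 : (A * N ^ 2) ^ r = A ^ r * N ^ (2 * r) := by
          rw [Real.mul_rpow hA0.le (by positivity), ← Real.rpow_natCast N 2, ← Real.rpow_mul hN0.le]
          norm_num
        have e4 : (3 * d * N / 2 : ℝ) ^ d = (3 * d / 2) ^ d * N ^ (d:ℝ) := by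
          rw [Real.rpow_natCast, ← mul_pow]
          congr 1
          ring
        rw [e1, hB, e4, Real.rpow_add hN0]
        ring

end Pool.Agent.U912.Few
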