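import Pool.Agent.U912.Few.Up

set_option autoImplicit false

/-! A coarse box is covered by the outer parts of the fine boxes of one bush. -/

open MeasureTheory Set Filter Topology ENNReal NNReal Metric

namespace Pool.Agent.U912.Few

open Pool.Agent.H810R3.Tub Pool.Agent.R251.Nec

variable {d : ℕ}

/-- The fine family, with its covering property. -/
theorem fine2 (hd : 1 ≤ d) {σ : ℝ} (hσ : 0 < σ) (hσ1 : σ ≤ 1) {K N : ℝ} (hK : 1 ≤ K)
    (hN : 2 * K / σ ≤ N) {ι : Type} {ω : ι → Vec d} (hω : ∀ i, ‖ω i‖ ≤ 1)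
    (hsep : ∀ i j, i ≠ j → σ / K ≤ ‖ω i - ω j‖) :
    ∃ m : ℕ, σ * N / (8 * d * K) ≤ (m + 1 : ℕ) ∧ (m : ℝ) ≤ σ * N / (8 * d * K) ∧
      ∃ (ω' : ι × (Fin d → Fin (m + 1)) → Vec d) (f' : ι × (Fin d → Fin (m + 1)) → Fin d → Space d),
        (∀ x, ‖ω' x‖ ≤ 1) ∧ (∀ x y, x ≠ y → 1 / N ≤ ‖ω' x - ω' y‖) ∧
        (∀ x, Orthonormal ℝ (Fin.cons (nor (ω' x)) (f' x) : Fin (d + 1) → Space d)) ∧
        ∀ (i : ι) (u : Vec d), (∀ j, 0 ≤ u j - (1 - σ / (8 * K)) * ω i j ∧
          u j - (1 - σ / (8 * K)) * ω i j ≤ σ / (8 * K) / d) → ∃ v, ‖u - ω' (i, v)‖ ≤ d / N := by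
  have hK0 : 0 < K := by linarith
  have hN0 : 0 < N := lt_of_lt_of_le (by positivity) hN
  have hd0 : (0:ℝ) < d := by exact_mod_cast hd
  have hd1 : (1:ℝ) ≤ d := by exact_mod_cast hd
  set s : ℝ := σ / (8 * K) with hs
  have hs0 : 0 < s := by positivity
  have hs1 : s ≤ 1 := by
    rw [hs, div_le_one (by positivity)]
    linarith
  set m : ℕ := ⌊s * N / d⌋₊ with hm
  have hm1 : (m:ℝ) ≤ s * N / d := Nat.floor_le (by positivity)
  have hm2 : s * N / d ≤ (m + 1 : ℕ) := by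
    push_cast
    exact (Nat.lt_floor_add_one _).le
  have hse : σ * N / (8 * d * K) = s * N / d := by
    rw [hs]
    field_simp
  refine ⟨m, by rw [hse]; exact hm2, by rw [hse]; exact hm1, ?_⟩
  set ω' : ι × (Fin d → Fin (m + 1)) → Vec d := fun x => (1 - s) • ω x.1 + (1 / N) • gp x.2 with hω'
  have hgp : ∀ v : Fin d → Fin (m + 1), ‖(1 / N) • gp v‖ ≤ s := by
    intro v
    rw [norm_smul, Real.norm_eq_abs, abs_of_pos (by positivity), div_mul_eq_mul_div, one_mul,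
      div_le_iff₀ hN0]
    refine (norm_gp hd v).trans ?_
    calc (d:ℝ) * m ≤ d * (s * N / d) := by gcongr
      _ = s * N := by field_simp
  have hclose : ∀ x, ‖ω x.1 - ω' x‖ ≤ 2 * s := by
    intro x
    have e : ω x.1 - ω' x = s • ω x.1 - (1 / N) • gp x.2 := by
      rw [hω']
      simp only [sub_smul, one_smul]
      abel
    rw [e]
    refine (norm_sub_le _ _).trans ?_
    rw [norm_smul, Real.norm_eq_abs, abs_of_pos hs0]
    have h1 : s * ‖ω x.1‖ ≤ s * 1 := mul_le_mul_of_nonneg_left (hω x.1) hs0.le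
    have h2 := hgp x.2
    linarith
  have hf : ∀ x, ∃ f : Fin d → Space d,
      Orthonormal ℝ (Fin.cons (nor (ω' x)) f : Fin (d + 1) → Space d) := by
    intro x
    exact exists_frame _ (norm_dir _)
  choose f' hf' using hf
  refine ⟨ω', f', ?_, ?_, hf', ?_⟩
  · intro x
    rw [hω']
    refine (norm_add_le _ _).trans ?_
    rw [norm_smul, Real.norm_eq_abs, abs_of_nonneg (by linarith)]
    have h1 : (1 - s) * ‖ω x.1‖ ≤ (1 - s) * 1 := mul_le_mul_of_nonneg_left (hω x.1) (by linarith)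
    have h2 := hgp x.2
    linarith
  · intro x y hxy
    by_cases h : x.1 = y.1
    · have h2 : x.2 ≠ y.2 := fun h3 => hxy (Prod.ext h h3)
      have e : ω' x - ω' y = (1 / N) • (gp x.2 - gp y.2) := by
        rw [hω']
        simp only [h, smul_sub]
        abel
      rw [e, norm_smul, Real.norm_eq_abs, abs_of_pos (by positivity)]
      have h3 := gp_sep h2
      have : 1 / N * 1 ≤ 1 / N * ‖gp x.2 - gp y.2‖ := mul_le_mul_of_nonneg_left h3 (by positivity)
      linarith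
    · have h1 := hsep _ _ h
      have h2 := hclose x
      have h3 := hclose y
      have h4 : ‖ω x.1 - ω y.1‖ ≤ ‖ω x.1 - ω' x‖ + ‖ω' x - ω' y‖ + ‖ω y.1 - ω' y‖ := by
        have e : ω x.1 - ω y.1 = (ω x.1 - ω' x) + (ω' x - ω' y) - (ω y.1 - ω' y) := by abel
        rw [e]
        exact (norm_sub_le _ _).trans (by gcongr; exact norm_add_le _ _)
      have h5 : 1 / N ≤ σ / (2 * K) := by
        rw [div_le_div_iff₀ hN0 (by positivity)]
        rw [div_le_iff₀ hσ] at hN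
        linarith
      have h6 : σ / K - 4 * s = σ / (2 * K) := by
        rw [hs]
        field_simp
        norm_num
      linarith
  · intro i u hu
    have hv : ∀ j, ⌊N * (u j - (1 - s) * ω i j)⌋₊ < m + 1 := by
      intro j
      rw [Nat.lt_succ_iff]
      apply Nat.floor_le_floor
      calc N * (u j - (1 - s) * ω i j) ≤ N * (s / d) := by
            gcongr
            exact (hu j).2
        _ = s * N / d := by ring
    refine ⟨fun j => ⟨⌊N * (u j - (1 - s) * ω i j)⌋₊, hv j⟩, ?_⟩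
    set v : Fin d → Fin (m + 1) := fun j => ⟨⌊N * (u j - (1 - s) * ω i j)⌋₊, hv j⟩ with hvd
    have hc : ∀ j, |(u - ω' (i, v)) j| ≤ 1 / N := by
      intro j
      have e : (u - ω' (i, v)) j = u j - ((1 - s) * ω i j + (1 / N) * ((⌊N * (u j - (1 - s) * ω i j)⌋₊ : ℕ) : ℝ)) := by
        rw [hω']
        rfl
      rw [e]
      have h1 : ((⌊N * (u j - (1 - s) * ω i j)⌋₊ : ℕ) : ℝ) ≤ N * (u j - (1 - s) * ω i j) :=
        Nat.floor_le (mul_nonneg hN0.le (hu j).1)
      have h2 := Nat.lt_floor_add_one (N * (u j - (1 - s) * ω i j))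
      set q : ℝ := ((⌊N * (u j - (1 - s) * ω i j)⌋₊ : ℕ) : ℝ) with hq
      have h3 : u j - ((1 - s) * ω i j + 1 / N * q) = (1 / N) * (N * (u j - (1 - s) * ω i j) - q) := by
        field_simp
        ring
      rw [h3, abs_of_nonneg (mul_nonneg (by positivity) (by linarith))]
      have h4 : N * (u j - (1 - s) * ω i j) - q ≤ 1 := by linarith
      calc 1 / N * (N * (u j - (1 - s) * ω i j) - q) ≤ 1 / N * 1 := by gcongr
        _ = 1 / N := mul_one _
    rw [EuclideanSpace.norm_eq]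
    have h5 : ∑ j, ‖(u - ω' (i, v)) j‖ ^ 2 ≤ (d / N : ℝ) ^ 2 := by
      calc ∑ j, ‖(u - ω' (i, v)) j‖ ^ 2 ≤ ∑ _j : Fin d, (1 / N : ℝ) ^ 2 := by
            refine Finset.sum_le_sum fun j _ => ?_
            rw [Real.norm_eq_abs]
            exact pow_le_pow_left₀ (abs_nonneg _) (hc j) 2
        _ = d * (1 / N) ^ 2 := by rw [Finset.sum_const, Finset.card_univ, Fintype.card_fin, nsmul_eq_mul]
        _ ≤ d ^ 2 * (1 / N) ^ 2 := by
            have : (d:ℝ) ≤ d ^ 2 := by nlinarith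
            gcongr
        _ = (d / N : ℝ) ^ 2 := by ring
    calc √(∑ j, ‖(u - ω' (i, v)) j‖ ^ 2) ≤ √((d / N : ℝ) ^ 2) := Real.sqrt_le_sqrt h5
      _ = d / N := Real.sqrt_sq (by positivity)

theorem nor_rel (u : Vec d) : (nor u).fst + (2 * (nor u).snd) • u = 0 := by
  unfold nor dir
  rw [WithLp.smul_fst, WithLp.smul_snd]
  show (√(1 + ‖-(2 : ℝ) • u‖ ^ 2))⁻¹ • (-(2 : ℝ) • u) +
    (2 * ((√(1 + ‖-(2 : ℝ) • u‖ ^ 2))⁻¹ • (1 : ℝ))) • u = 0
  rw [smul_eq_mul, smul_smul, ← add_smul]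
  have : (√(1 + ‖-(2 : ℝ) • u‖ ^ 2))⁻¹ * -2 + 2 * ((√(1 + ‖-(2 : ℝ) • u‖ ^ 2))⁻¹ * 1) = 0 := by ring
  rw [this, zero_smul]

theorem nor_snd (u : Vec d) : (nor u).snd = (√(1 + ‖-(2 : ℝ) • u‖ ^ 2))⁻¹ := by
  unfold nor dir
  rw [WithLp.smul_snd]
  show (√(1 + ‖-(2 : ℝ) • u‖ ^ 2))⁻¹ • (1:ℝ) = _
  rw [smul_eq_mul, mul_one]

theorem nor_snd_pos (u : Vec d) : 0 < (nor u).snd := by
  rw [nor_snd]
  positivity

theorem nor_snd_ge {u : Vec d} (hu : ‖u‖ ≤ 1) : 2 / 5 ≤ (nor u).snd := by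
  rw [nor_snd]
  have h1 : ‖-(2 : ℝ) • u‖ ≤ 2 := by
    rw [norm_smul]
    norm_num
    linarith
  have h2 : √(1 + ‖-(2 : ℝ) • u‖ ^ 2) ≤ 5 / 2 := by
    rw [show (5 / 2 : ℝ) = √((5 / 2) ^ 2) by rw [Real.sqrt_sq (by norm_num)]]
    apply Real.sqrt_le_sqrt
    have := norm_nonneg (-(2 : ℝ) • u)
    nlinarith
  calc (2 / 5 : ℝ) = (5 / 2)⁻¹ := by norm_num
    _ ≤ (√(1 + ‖-(2 : ℝ) • u‖ ^ 2))⁻¹ := inv_anti₀ (by positivity) h2

theorem nor_snd_le (u : Vec d) : (nor u).snd ≤ 1 := by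
  have h := abs_snd_le (nor u)
  have h2 : ‖nor u‖ = 1 := norm_dir _
  rw [h2] at h
  exact (abs_le.1 h).2

/-- A point above the origin is a multiple of a normal. -/
theorem eq_smul_nor {z : Space d} (hz : 0 < z.snd) :
    z = (z.snd / (nor (-(2 * z.snd)⁻¹ • z.fst)).snd) • nor (-(2 * z.snd)⁻¹ • z.fst) := by
  set u : Vec d := -(2 * z.snd)⁻¹ • z.fst with hu
  have hg := nor_snd_pos u
  have h1 := nor_rel u
  have h2 : (nor u).fst = -((2 * (nor u).snd) • u) := eq_neg_of_add_eq_zero_left h1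
  apply (WithLp.ofLp_injective 2)
  apply Prod.ext
  · show z.fst = ((z.snd / (nor u).snd) • nor u).fst
    rw [WithLp.smul_fst, h2, hu]
    rw [← smul_neg, ← smul_neg, smul_smul, smul_smul]
    have hz' : z.snd ≠ 0 := hz.ne'
    have hg' : (nor u).snd ≠ 0 := hg.ne'
    have e : z.snd / (nor u).snd * (2 * (nor u).snd) * -(2 * z.snd)⁻¹ = -1 := by
      field_simp
    rw [← hu, e, neg_smul, one_smul, neg_neg]
  · show z.snd = ((z.snd / (nor u).snd) • nor u).snd
    rw [WithLp.smul_snd, smul_eq_mul, div_mul_cancel₀ _ hg.ne']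

/-- Boxes with a direction close to the direction of a point contain the point. -/
theorem mem_box_of_close (hd : 1 ≤ d) {N : ℝ} (hN : 1 ≤ N) {z : Space d} (hz : 0 < z.snd)
    (hzn : ‖z‖ ≤ N ^ 2 / (4 * d)) {ω' : Vec d} {f' : Fin d → Space d}
    (hf' : Orthonormal ℝ (Fin.cons (nor ω') f' : Fin (d + 1) → Space d))
    (h : ‖-(2 * z.snd)⁻¹ • z.fst - ω'‖ ≤ d / N) : z ∈ box N (nor ω') f' 0 := by
  have hd0 : (0:ℝ) < d := by exact_mod_cast hd
  have hd1 : (1:ℝ) ≤ d := by exact_mod_cast hd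
  have hN0 : 0 < N := by linarith
  set u : Vec d := -(2 * z.snd)⁻¹ • z.fst with hu
  have hg := nor_snd_pos u
  have hnu : ‖nor u‖ = 1 := norm_dir _
  set r : ℝ := z.snd / (nor u).snd with hr
  have hr0 : 0 < r := div_pos hz hg
  have hzr : z = r • nor u := eq_smul_nor hz
  have hrn : ‖z‖ = r := by
    rw [hzr, norm_smul, hnu, mul_one, Real.norm_eq_abs, abs_of_pos hr0]
  constructor
  · rw [sub_zero]
    have h1 := abs_real_inner_le_norm (nor ω') z
    rw [norm_e hf', one_mul] at h1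
    refine h1.trans (hzn.trans ?_)
    apply div_le_div_of_nonneg_left (by positivity) (by norm_num)
    linarith
  · intro j
    rw [sub_zero]
    have h1 : (inner ℝ (f' j) z : ℝ) = r * inner ℝ (f' j) (nor u - nor ω') := by
      rw [inner_sub_right, inner_f_e hf' j, sub_zero]
      conv_lhs => rw [hzr]
      rw [inner_smul_right]
    rw [h1, abs_mul, abs_of_pos hr0]
    have h2 := abs_real_inner_le_norm (f' j) (nor u - nor ω')
    rw [norm_f hf' j, one_mul] at h2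
    have h3 := nor_sub_le u ω'
    rw [← hrn]
    calc ‖z‖ * |(inner ℝ (f' j) (nor u - nor ω') : ℝ)| ≤ N ^ 2 / (4 * d) * (2 * (d / N)) := by
          gcongr
          exact h2.trans (h3.trans (by linarith))
      _ = N / 2 := by
          field_simp
          norm_num


/-- The constant `δ`. -/
noncomputable def dl (d : ℕ) (σ : ℝ) : ℝ := σ / (1024 * d ^ 2 * (d + 2))

/-- A point of the shifted coarse box lies above the cube of the fine directions. -/
theorem cube_point (hd : 1 ≤ d) {σ K N : ℝ} (hσ : 0 < σ) (hσ1 : σ ≤ 1) (hK : 1 ≤ K) (hN : 1 ≤ N)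
    {ω : Vec d} {f : Fin d → Space d} (hω : ‖ω‖ ≤ 1)
    (hf : Orthonormal ℝ (Fin.cons (nor ω) f : Fin (d + 1) → Space d)) {w η : Space d}
    (hw : w ∈ box K (nor ω) f 0) (hη : ‖η‖ ≤ dl d σ * N ^ 2 / K) {one : Vec d} (hone : ∀ j, one j = 1)
    {z : Space d} (hz : z = (dl d σ * N ^ 2 / K ^ 2) • w +
      (N ^ 2 / (16 * d)) • nor ((1 - σ / (8 * K)) • ω + (σ / (8 * K) / (2 * d)) • one) + η) :
    0 < z.snd ∧ ‖z‖ ≤ N ^ 2 / (4 * d) ∧
      ∀ j, 0 ≤ (-(2 * z.snd)⁻¹ • z.fst : Vec d) j - (1 - σ / (8 * K)) * ω j ∧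
        (-(2 * z.snd)⁻¹ • z.fst : Vec d) j - (1 - σ / (8 * K)) * ω j ≤ σ / (8 * K) / d := by
  have hK0 : 0 < K := by linarith
  have hN0 : 0 < N := by linarith
  have hd0 : (0:ℝ) < d := by exact_mod_cast hd
  have hd1 : (1:ℝ) ≤ d := by exact_mod_cast hd
  set s : ℝ := σ / (8 * K) with hs
  have hs0 : 0 < s := by positivity
  have hs1 : s ≤ 1 := by
    rw [hs, div_le_one (by positivity)]
    linarith
  set dd : ℝ := dl d σ with hdd
  have hdd0 : 0 < dd := by
    rw [hdd]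
    unfold dl
    positivity
  set L : ℝ := N ^ 2 / (16 * d) with hL
  have hL0 : 0 < L := by positivity
  set u₀ : Vec d := (1 - s) • ω + (s / (2 * d)) • one with hu₀
  have honen : ‖one‖ ≤ d := by
    rw [EuclideanSpace.norm_eq]
    have h5 : ∑ j, ‖one j‖ ^ 2 ≤ (d : ℝ) ^ 2 := by
      calc ∑ j, ‖one j‖ ^ 2 = ∑ _j : Fin d, (1:ℝ) := by
            refine Finset.sum_congr rfl fun j _ => ?_
            rw [hone]
            norm_num
        _ = d := by rw [Finset.sum_const, Finset.card_univ, Fintype.card_fin, nsmul_eq_mul, mul_one]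
        _ ≤ (d:ℝ) ^ 2 := by nlinarith
    calc √(∑ j, ‖one j‖ ^ 2) ≤ √((d : ℝ) ^ 2) := Real.sqrt_le_sqrt h5
      _ = d := Real.sqrt_sq hd0.le
  have hone2 : ‖(s / (2 * d)) • one‖ ≤ s / 2 := by
    rw [norm_smul, Real.norm_eq_abs, abs_of_pos (by positivity)]
    calc s / (2 * d) * ‖one‖ ≤ s / (2 * d) * d := by gcongr
      _ = s / 2 := by field_simp
  have hu₀1 : ‖u₀‖ ≤ 1 := by
    refine (norm_add_le _ _).trans ?_
    rw [norm_smul, Real.norm_eq_abs, abs_of_nonneg (by linarith)]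
    have h1 : (1 - s) * ‖ω‖ ≤ (1 - s) * 1 := mul_le_mul_of_nonneg_left hω (by linarith)
    linarith
  have hu₀ω : ‖u₀ - ω‖ ≤ 2 * s := by
    have e : u₀ - ω = (s / (2 * d)) • one - s • ω := by
      rw [hu₀, sub_smul, one_smul]
      abel
    rw [e]
    refine (norm_sub_le _ _).trans ?_
    rw [norm_smul s, Real.norm_eq_abs, abs_of_pos hs0]
    have h1 : s * ‖ω‖ ≤ s * 1 := mul_le_mul_of_nonneg_left hω hs0.le
    linarith
  -- the coarse point
  have hw0 := hw
  rw [← zero_eq] at hw0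
  obtain ⟨hw1, hw2⟩ := geo hK hω hf hw0
  rw [sub_zero] at hw2
  have hwn := box_sub_ball hK hf hw
  rw [mem_closedBall, dist_zero_right] at hwn
  set lam : ℝ := dd * N ^ 2 / K ^ 2 with hlam
  have hlam0 : 0 < lam := by positivity
  have hlK : lam * K ^ 2 = dd * N ^ 2 := by rw [hlam]; field_simp
  have hddL : dd * (d + 2) * N ^ 2 ≤ L / 64 := by
    have e : dd * (d + 2) * N ^ 2 = σ * N ^ 2 / (1024 * d ^ 2) := by
      rw [hdd]
      unfold dl
      field_simp
    have e2 : L / 64 = N ^ 2 / (1024 * d) := by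
      rw [hL, div_div]
      congr 1
      ring
    rw [e, e2, div_le_div_iff₀ (by positivity) (by positivity)]
    have h1 : σ * N ^ 2 ≤ N ^ 2 := by nlinarith [sq_nonneg N]
    have h2 : (d:ℝ) ≤ d ^ 2 := by nlinarith
    calc σ * N ^ 2 * (1024 * d) ≤ N ^ 2 * (1024 * d) := by gcongr
      _ ≤ N ^ 2 * (1024 * d ^ 2) := by gcongr
  have hηN : ‖η‖ ≤ dd * N ^ 2 := by
    refine hη.trans ?_
    rw [div_le_iff₀ hK0]
    nlinarith [mul_nonneg hdd0.le (sq_nonneg N)]
  have hlw : ‖lam • w‖ ≤ dd * (d + 1) * N ^ 2 := by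
    rw [norm_smul, Real.norm_eq_abs, abs_of_pos hlam0]
    calc lam * ‖w‖ ≤ lam * ((1 + d) * K ^ 2) := by gcongr
      _ = (lam * K ^ 2) * (1 + d) := by ring
      _ = dd * (d + 1) * N ^ 2 := by rw [hlK]; ring
  set e₀ : Space d := nor u₀ with he₀
  have he₀n : ‖e₀‖ = 1 := norm_dir _
  have hLe : ‖L • e₀‖ = L := by rw [norm_smul, he₀n, mul_one, Real.norm_eq_abs, abs_of_pos hL0]
  have hzn : ‖z‖ ≤ 2 * L := by
    rw [hz]
    have h1 := norm_add_le (lam • w + L • e₀) η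
    have h2 := norm_add_le (lam • w) (L • e₀)
    linarith
  have ht : z.snd = lam * w.snd + L * e₀.snd + η.snd := by
    rw [hz, WithLp.add_snd, WithLp.add_snd, WithLp.smul_snd, WithLp.smul_snd, smul_eq_mul, smul_eq_mul]
  have hx : z.fst = lam • w.fst + L • e₀.fst + η.fst := by
    rw [hz, WithLp.add_fst, WithLp.add_fst, WithLp.smul_fst, WithLp.smul_fst]
  have hg := nor_snd_ge hu₀1
  have htL : L / 4 ≤ z.snd := by
    have h1 : |(lam • w).snd| ≤ ‖lam • w‖ := abs_snd_le _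
    have h2 : |η.snd| ≤ ‖η‖ := abs_snd_le _
    have h3 : (lam • w).snd = lam * w.snd := by rw [WithLp.smul_snd, smul_eq_mul]
    rw [h3] at h1
    have h4 := neg_abs_le (lam * w.snd)
    have h5 := neg_abs_le η.snd
    have h6 : L * (2 / 5) ≤ L * e₀.snd := mul_le_mul_of_nonneg_left hg hL0.le
    rw [ht]
    linarith
  have ht0 : 0 < z.snd := by linarith
  have h2L : 2 * L ≤ N ^ 2 / (4 * d) := by
    rw [hL, mul_div_assoc', div_le_div_iff₀ (by positivity) (by positivity)]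
    nlinarith [mul_pos hd0 (pow_pos hN0 2)]
  refine ⟨ht0, hzn.trans h2L, ?_⟩
  -- the direction
  set u : Vec d := -(2 * z.snd)⁻¹ • z.fst with hu
  have hrel := nor_rel u₀
  have hkey : z.fst + (2 * z.snd) • u₀ =
      lam • (w.fst + (2 * w.snd) • u₀) + (η.fst + (2 * η.snd) • u₀) := by
    have e1 : z.fst + (2 * z.snd) • u₀ =
        lam • (w.fst + (2 * w.snd) • u₀) + (η.fst + (2 * η.snd) • u₀) +
          L • (e₀.fst + (2 * e₀.snd) • u₀) := by
      rw [ht, hx]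
      module
    rw [e1, hrel, smul_zero, add_zero]
  have hA : ‖w.fst + (2 * w.snd) • u₀‖ ≤ (2 * d + 1) * K := by
    have e1 : w.fst + (2 * w.snd) • u₀ = (w.fst + (2 * w.snd) • ω) + (2 * w.snd) • (u₀ - ω) := by
      rw [smul_sub]
      abel
    rw [e1]
    refine (norm_add_le _ _).trans ?_
    have h1 : ‖(2 * w.snd) • (u₀ - ω)‖ ≤ 2 * ((1 + d) * K ^ 2) * (2 * s) := by
      rw [norm_smul, Real.norm_eq_abs, abs_mul, abs_two]
      gcongr
    have h2 : 2 * ((1 + d) * K ^ 2) * (2 * s) = (1 + d) * K * σ / 2 := by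
      rw [hs]
      field_simp
      ring
    have h3 : (1 + d) * K * σ ≤ (1 + d) * K := by
      apply mul_le_of_le_one_right (by positivity) hσ1
    nlinarith
  have hB : ‖η.fst + (2 * η.snd) • u₀‖ ≤ 3 * (dd * N ^ 2 / K) := by
    refine (norm_add_le _ _).trans ?_
    have h1 := norm_fst_le η
    have h2 := abs_snd_le η
    have h3 : ‖(2 * η.snd) • u₀‖ ≤ 2 * ‖η‖ := by
      rw [norm_smul, Real.norm_eq_abs, abs_mul, abs_two]
      have := mul_le_mul h2 hu₀1 (norm_nonneg _) (norm_nonneg _)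
      linarith
    linarith
  have hC : ‖z.fst + (2 * z.snd) • u₀‖ ≤ (2 * d + 4) * (dd * N ^ 2 / K) := by
    rw [hkey]
    refine (norm_add_le _ _).trans ?_
    rw [norm_smul, Real.norm_eq_abs, abs_of_pos hlam0]
    have h1 : lam * ‖w.fst + (2 * w.snd) • u₀‖ ≤ lam * ((2 * d + 1) * K) := by gcongr
    have h2 : lam * ((2 * d + 1) * K) = (2 * d + 1) * (dd * N ^ 2 / K) := by
      rw [hlam]
      field_simp
    linarith
  have hD : ‖u - u₀‖ ≤ s / (2 * d) := by
    have e1 : u - u₀ = -((2 * z.snd)⁻¹ • (z.fst + (2 * z.snd) • u₀)) := by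
      rw [smul_add, smul_smul, inv_mul_cancel₀ (by positivity), one_smul, hu, neg_smul]
      abel
    rw [e1, norm_neg, norm_smul, norm_inv, Real.norm_eq_abs, abs_of_pos (by positivity)]
    rw [inv_mul_le_iff₀ (by positivity)]
    refine hC.trans ?_
    calc (2 * d + 4) * (dd * N ^ 2 / K) = 2 * (L / 4) * (s / (2 * d)) := by
          rw [hdd, hL, hs]
          unfold dl
          field_simp
          ring
      _ ≤ 2 * z.snd * (s / (2 * d)) := by gcongr
  intro j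
  have hj : |(u - u₀) j| ≤ s / (2 * d) := (PiLp.norm_apply_le (u - u₀) j).trans hD
  have hj2 : (u - u₀) j = u j - ((1 - s) * ω j + s / (2 * d) * one j) := rfl
  rw [hone j] at hj2
  rw [hj2, abs_le] at hj
  have hsd : s / (2 * d) + s / (2 * d) = s / d := by
    field_simp
    norm_num
  constructor <;> linarith [hj.1, hj.2]

end Pool.Agent.U912.Few
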