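import Pool.Agent.U912.Few.Sep

set_option autoImplicit false

/-! The inequality for all positions at a coarse scale gives it for few positions at all finer scales. -/

open MeasureTheory Set Filter Topology ENNReal NNReal Metric

namespace Pool.Agent.U912.Few

open Pool.Agent.H810R3.Tub Pool.Agent.R251.Nec

variable {d : ℕ}

/-- A maximal separated set. -/
theorem net (d : ℕ) {K : ℝ} (hK : 1 ≤ K) : ∃ T : Finset (Vec d), (∀ x ∈ T, ‖x‖ ≤ 1) ∧
    (∀ x ∈ T, ∀ y ∈ T, x ≠ y → 1 / K ≤ ‖x - y‖) ∧ (∀ w : Vec d, ‖w‖ ≤ 1 → ∃ x ∈ T, ‖w - x‖ ≤ 1 / K) ∧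
    K ^ d ≤ (T.card : ℝ) := by
  classical
  have hK0 : 0 < K := by linarith
  set Q : ℕ → Prop := fun n => ∃ T : Finset (Vec d), T.card = n ∧ (∀ x ∈ T, ‖x‖ ≤ 1) ∧
    (∀ x ∈ T, ∀ y ∈ T, x ≠ y → 1 / K ≤ ‖x - y‖) with hQ
  set Bd : ℕ := ⌊(2 * 1 / (1 / K) + 2 : ℝ) ^ d⌋₊ with hBd
  have hQB : ∀ n, Q n → n ≤ Bd := by
    rintro n ⟨T, hT, h1, h2⟩
    have h := pack (d := d) (ι := T) (s := 1 / K) (ρ := 1) (by positivity) zero_le_one (fun x => x.1)
      (fun i j hij => h2 _ i.2 _ j.2 (fun h => hij (Subtype.ext h))) 0 Finset.univ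
      (by intro i _; rw [sub_zero]; exact h1 _ i.2)
    rw [Finset.card_univ, Fintype.card_coe, hT] at h
    exact Nat.le_floor h
  have hQ0 : Q 0 := ⟨∅, rfl, by simp, by simp⟩
  obtain ⟨T, hT, h1, h2⟩ := Nat.findGreatest_spec (P := Q) (Nat.zero_le Bd) hQ0
  have hcov : ∀ w : Vec d, ‖w‖ ≤ 1 → ∃ x ∈ T, ‖w - x‖ ≤ 1 / K := by
    intro w hw
    by_contra hcon
    push Not at hcon
    have hwT : w ∉ T := by
      intro h
      have := hcon w h
      rw [sub_self, norm_zero] at this
      have h3 : 0 < 1 / K := by positivity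
      linarith
    have hQ1 : Q (Nat.findGreatest Q Bd + 1) := by
      refine ⟨insert w T, ?_, ?_, ?_⟩
      · rw [Finset.card_insert_of_notMem hwT, hT]
      · intro x hx
        rcases Finset.mem_insert.1 hx with rfl | hx
        · exact hw
        · exact h1 x hx
      · intro x hx y hy hxy
        rcases Finset.mem_insert.1 hx with hx1 | hx1
        · rcases Finset.mem_insert.1 hy with hy1 | hy1
          · exact absurd (hx1.trans hy1.symm) hxy
          · rw [hx1]
            exact (hcon y hy1).le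
        · rcases Finset.mem_insert.1 hy with hy1 | hy1
          · rw [hy1, norm_sub_rev]
            exact (hcon x hx1).le
          · exact h2 x hx1 y hy1 hxy
    have h3 := Nat.le_findGreatest (hQB _ hQ1) hQ1
    omega
  refine ⟨T, h1, h2, hcov, ?_⟩
  set v := (volume (ball (0 : Vec d) 1)).toReal with hv
  have hvt : volume (ball (0 : Vec d) 1) ≠ ∞ := measure_ball_lt_top.ne
  have hv0 : 0 < v := ENNReal.toReal_pos (measure_ball_pos volume _ one_pos).ne' hvt
  have hve : volume (ball (0 : Vec d) 1) = ENNReal.ofReal v := by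
    rw [hv, ENNReal.ofReal_toReal hvt]
  have h3 : volume (closedBall (0 : Vec d) 1) ≤ ∑ x ∈ T, volume (closedBall x (1 / K)) := by
    refine (measure_mono ?_).trans (measure_biUnion_finset_le T _)
    intro w hw
    rw [mem_closedBall, dist_zero_right] at hw
    obtain ⟨x, hx, hwx⟩ := hcov w hw
    simp only [mem_iUnion]
    exact ⟨x, hx, by rw [mem_closedBall, dist_eq_norm]; exact hwx⟩
  have h4 : ∀ x : Vec d, volume (closedBall x (1 / K)) = ENNReal.ofReal ((1 / K) ^ d * v) := by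
    intro x
    rw [Measure.addHaar_closedBall _ _ (by positivity), finrank_euclideanSpace_fin, hve,
      ← ENNReal.ofReal_mul (by positivity)]
  have e7 : (T.card : ℝ≥0∞) = ENNReal.ofReal (T.card : ℝ) := (ENNReal.ofReal_natCast _).symm
  have h8 : volume (closedBall (0 : Vec d) 1) = ENNReal.ofReal v := by
    rw [Measure.addHaar_closedBall _ _ zero_le_one, finrank_euclideanSpace_fin, hve, one_pow,
      ENNReal.ofReal_one, one_mul]
  rw [Finset.sum_congr rfl (fun x _ => h4 x), Finset.sum_const, nsmul_eq_mul, h8, e7,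
    ← ENNReal.ofReal_mul (Nat.cast_nonneg _), ENNReal.ofReal_le_ofReal_iff
      (mul_nonneg (Nat.cast_nonneg _) (mul_nonneg (by positivity) hv0.le))] at h3
  have h5 : v ≤ ((T.card : ℝ) * (1 / K) ^ d) * v := by linarith
  have h6 : 1 ≤ (T.card : ℝ) * (1 / K) ^ d := by
    by_contra h
    push Not at h
    have := mul_lt_mul_of_pos_right h hv0
    linarith
  rw [div_pow, one_pow, mul_one_div, le_div_iff₀ (by positivity), one_mul] at h6
  exact h6

/-- The part of a fine box near its centre lies in a scaled coarse box. -/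
theorem contain_down (hd : 1 ≤ d) {K N : ℝ} (hK : 1 ≤ K) (hKN : K ≤ N) {ω ω' : Vec d}
    {f f' : Fin d → Space d} (hω : ‖ω‖ ≤ 1)
    (hf : Orthonormal ℝ (Fin.cons (nor ω) f : Fin (d + 1) → Space d))
    (hf' : Orthonormal ℝ (Fin.cons (nor ω') f' : Fin (d + 1) → Space d))
    (hs : ‖ω - ω'‖ ≤ 1 / K) {z : Space d} (hz : z ∈ box N (nor ω) f 0) (hz2 : |z.snd| ≤ N * K) :
    (K / ((7 * d + 12) * N)) • z ∈ box K (nor ω') f' 0 := by
  have hK0 : 0 < K := by linarith
  have hN0 : 0 < N := by linarith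
  have hN1 : 1 ≤ N := by linarith
  have hd0 : (0:ℝ) < d := by exact_mod_cast hd
  set lam : ℝ := K / ((7 * d + 12) * N) with hlam
  have hlam0 : 0 < lam := by positivity
  have hzn : ‖z‖ ≤ (3 + 3 * d / 2) * (N * K) := by
    have h := norm_of_height hN1 hω hf hz
    have h2 : 3 * d * N / 2 ≤ 3 * d / 2 * (N * K) := by
      have : 3 * d / 2 * N * 1 ≤ 3 * d / 2 * N * K := by gcongr
      linarith
    linarith
  set τ : ℝ := inner ℝ (nor ω) z with hτ
  set w := z - τ • nor ω with hw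
  have hwn : ‖w‖ ≤ d * N / 2 := by
    have := box_perp hN1 hf hz
    rwa [sub_zero] at this
  have hzw : z = w + τ • nor ω := by rw [hw]; abel
  have hn : ‖nor ω - nor ω'‖ ≤ 2 / K := by
    refine (nor_sub_le ω ω').trans ?_
    calc 2 * ‖ω - ω'‖ ≤ 2 * (1 / K) := by linarith
      _ = 2 / K := by ring
  have he : ‖nor ω‖ = 1 := norm_e hf
  have he' : ‖nor ω'‖ = 1 := norm_e hf'
  have hτ1 : |τ| ≤ (3 + 3 * d / 2) * (N * K) := by
    have h := abs_real_inner_le_norm (nor ω) z
    rw [he, one_mul] at h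
    exact h.trans hzn
  have hlN : lam * N = K / (7 * d + 12) := by
    rw [hlam]
    field_simp
  constructor
  · rw [sub_zero, inner_smul_right, abs_mul, abs_of_pos hlam0]
    have h2 := abs_real_inner_le_norm (nor ω') z
    rw [he', one_mul] at h2
    calc lam * |(inner ℝ (nor ω') z : ℝ)| ≤ lam * ((3 + 3 * d / 2) * (N * K)) := by
          gcongr
          exact h2.trans hzn
      _ = (lam * N) * ((3 + 3 * d / 2) * K) := by ring
      _ = K ^ 2 * ((3 + 3 * d / 2) / (7 * d + 12)) := by rw [hlN]; ring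
      _ ≤ K ^ 2 * (1 / 2) := by
          apply mul_le_mul_of_nonneg_left _ (by positivity)
          rw [div_le_div_iff₀ (by positivity) (by positivity)]
          linarith
      _ = K ^ 2 / 2 := by ring
  · intro j
    rw [sub_zero, inner_smul_right, abs_mul, abs_of_pos hlam0]
    have h1 : (inner ℝ (f' j) z : ℝ) = inner ℝ (f' j) w + τ * inner ℝ (f' j) (nor ω - nor ω') := by
      have h00 : (inner ℝ (f' j) (nor ω - nor ω') : ℝ) = inner ℝ (f' j) (nor ω) := by
        rw [inner_sub_right, inner_f_e hf' j, sub_zero]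
      rw [h00]
      conv_lhs => rw [hzw]
      rw [inner_add_right, inner_smul_right]
    have h2 : |(inner ℝ (f' j) w : ℝ)| ≤ d * N / 2 := by
      have h := abs_real_inner_le_norm (f' j) w
      rw [norm_f hf' j, one_mul] at h
      exact h.trans hwn
    have h3 : |(inner ℝ (f' j) (nor ω - nor ω') : ℝ)| ≤ 2 / K := by
      have h := abs_real_inner_le_norm (f' j) (nor ω - nor ω')
      rw [norm_f hf' j, one_mul] at h
      exact h.trans hn
    have h4 : |(inner ℝ (f' j) z : ℝ)| ≤ (7 * d + 12) / 2 * N := by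
      rw [h1]
      refine (abs_add_le _ _).trans ?_
      rw [abs_mul]
      have h5 : |τ| * |(inner ℝ (f' j) (nor ω - nor ω') : ℝ)| ≤ (3 + 3 * d / 2) * (N * K) * (2 / K) := by
        gcongr
      have h6 : (3 + 3 * d / 2) * (N * K) * (2 / K) = (6 + 3 * d) * N := by
        field_simp
        ring
      rw [h6] at h5
      linarith
    calc lam * |(inner ℝ (f' j) z : ℝ)| ≤ lam * ((7 * d + 12) / 2 * N) := by gcongr
      _ = (lam * N) * ((7 * d + 12) / 2) := by ring
      _ = K / 2 := by rw [hlN]; field_simp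

/-- A labelling which is injective on the fibres. -/
theorem label {ι V : Type} [Fintype ι] (v : ι → V) {L : ℕ}
    (hL : ∀ x, (({i | v i = x} : Set ι)).ncard ≤ L) :
    ∃ j : ι → Fin L, ∀ i i', v i = v i' → j i = j i' → i = i' := by
  classical
  have h : ∀ x : V, Nonempty ({i // v i = x} ↪ Fin L) := by
    intro x
    apply Function.Embedding.nonempty_of_card_le
    rw [Fintype.card_fin]
    have := hL x
    rw [← Nat.card_coe_set_eq, Nat.card_eq_fintype_card] at this
    convert this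
    simp
  let e : ∀ x, {i // v i = x} ↪ Fin L := fun x => (h x).some
  refine ⟨fun i => e (v i) ⟨i, rfl⟩, ?_⟩
  intro i i' h1 h2
  have h3 : ∀ (x y : V) (hxy : x = y) (hi : v i = x) (hi' : v i' = y),
      e x ⟨i, hi⟩ = e y ⟨i', hi'⟩ → i = i' := by
    rintro x _ rfl hi hi' h
    have := (e x).injective h
    exact congrArg Subtype.val this
  exact h3 _ _ h1 rfl rfl h2


theorem sum_le_of_inj {ι κ : Type} [Fintype ι] [Fintype κ] (φ : ι → κ) (hφ : Function.Injective φ)
    (G : κ → ℝ≥0∞) : ∑ i, G (φ i) ≤ ∑ x, G x := by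
  classical
  rw [← Finset.sum_image (s := Finset.univ) (f := G) (g := φ) (fun i _ j _ h => hφ h)]
  exact Finset.sum_le_sum_of_subset (Finset.subset_univ _)

theorem alg_down {qp X2 Q X1 K N C1 C2 Bp D1 : ℝ} (d : ℕ) (hX2 : 0 < X2) (hK : 0 < K) :
    qp * (Q / X2) * (C1 * N ^ (d + 1) / K ^ (d + 1) * (Bp * (D1 * ((C2 * K ^ d) * X1)))) =
      (qp * C1 * D1 * C2) * Bp * (Q * N) * N ^ d * ((X1 * K ^ d) / (X2 * K ^ (d + 1))) := by
  have hK1 : K ^ (d + 1) ≠ 0 := by positivity
  have hX : X2 ≠ 0 := hX2.ne'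
  rw [pow_succ N d]
  generalize K ^ (d + 1) = Y at *
  generalize K ^ d = Y' at *
  generalize N ^ d = Y'' at *
  field_simp

theorem scale_down (d : ℕ) (hd : 1 ≤ d) {σ κ : ℝ} (hσ : 0 < σ) (hκ : 0 < κ) {p : ℝ}
    (hp : 1 ≤ p) (hpd : 1 < d * (p - 1)) :
    ∃ C : ℝ, 1 ≤ C ∧ ∀ K N B m : ℝ, 1 ≤ K → K ≤ N → 0 ≤ B → 1 ≤ m →
      m ^ ((p - 1) / (d * (p - 1) - 1) : ℝ) ≤ K →
      (∀ (ι : Type) [Fintype ι] (ω : ι → Vec d) (f : ι → Fin d → Space d) (a : ι → Space d),
        Caps 1 1 K ω f → Iq B K p ω f a) →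
      ∀ (ι : Type) [Fintype ι] (ω : ι → Vec d) (f : ι → Fin d → Space d) (a : ι → Space d),
        Caps σ κ N ω f → ((range a).ncard : ℝ) ≤ m → Iq (C * (1 + B)) N p ω f a := by
  classical
  obtain ⟨D₁, hD₁0, hD₁⟩ := bush d hd (σ := 1) one_pos hp hpd
  obtain ⟨D, hD0, hD⟩ := group d hd hσ hp hpd
  have hd0 : (0:ℝ) < d := by exact_mod_cast hd
  have hp0 : 0 < p := by linarith
  have hw := wv_pos d
  set r : ℝ := d * (p - 1) with hr
  have hr1 : 0 < r - 1 := by linarith
  set q : ℝ := (2 / σ + 2) ^ d with hq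
  have hq0 : 0 < q := by positivity
  set E₁ : ℝ := q ^ p * (7 * d + 12) ^ (d + 1) * D₁ * 4 ^ d * κ⁻¹ with hE₁
  have hE₁0 : 0 < E₁ := by positivity
  set E : ℝ := 2 ^ (p - 1) * (D + E₁) with hE
  have hE0 : 0 < E := by positivity
  set Z : ℝ := E * κ ^ (1 - p) * (2 ^ (d + 1) / wv d) with hZ
  have hZ0 : 0 < Z := by positivity
  refine ⟨1 + Z, by linarith, ?_⟩
  intro K N B m hK hKN hB hm hmK hyp ι _ ω f a hcaps hran
  obtain ⟨hω, hsep, hcard, hf⟩ := hcaps
  have hK0 : 0 < K := by linarith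
  have hN0 : 0 < N := by linarith
  have hN1 : 1 ≤ N := by linarith
  have hm0 : 0 < m := by linarith
  set c : ℝ := (Fintype.card ι : ℝ) with hc
  have hc0 : 0 < c := lt_of_lt_of_le (by positivity) hcard
  -- the far part
  set S : Set ℝ := {t | N * K ≤ |t|} with hS
  have hSm : MeasurableSet S := measurableSet_le measurable_const measurable_norm
  have hfar := hD N hN1 ι ω f hω hsep hf (N * K) (by positivity) S hSm (by
      intro t ht
      rw [max_eq_left ht]
      exact le_max_left _ _) a m ((1 + d) * N ^ 2) (by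
      intro i z hz _
      have h := box_sub_ball hN1 (hf i) hz
      rwa [mem_closedBall, dist_zero_right] at h) (by
      intro y
      refine le_trans ?_ hran
      have : ({x | x ∈ range a ∧ ‖y - x‖ ≤ (1 + d) * N ^ 2} : Set (Space d)) ⊆ range a := fun x hx => hx.1
      exact_mod_cast Set.ncard_le_ncard this (Set.finite_range a))
  have hNp : N ^ (d + 2 * r : ℝ) * N ^ (1 - r : ℝ) = N ^ (d * p + 1 : ℝ) := by
    rw [← Real.rpow_add hN0]
    congr 1
    rw [hr]
    ring
  have hfar2 : ∫⁻ y, Gs N ω f S a y ^ p ≤ ENNReal.ofReal (D * (c * N ^ (d * p + 1 : ℝ))) := by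
    refine hfar.trans (ENNReal.ofReal_le_ofReal ?_)
    have h1 : m ^ (p - 1) * K ^ (1 - r : ℝ) ≤ 1 := by
      have h2 : K ^ (1 - r : ℝ) ≤ (m ^ ((p - 1) / (r - 1))) ^ (1 - r : ℝ) :=
        Real.rpow_le_rpow_of_nonpos (by positivity) hmK (by linarith)
      have h3 : (m ^ ((p - 1) / (r - 1))) ^ (1 - r : ℝ) = m ^ (-(p - 1)) := by
        rw [← Real.rpow_mul hm0.le]
        congr 1
        have : r - 1 ≠ 0 := hr1.ne'
        field_simp
        ring
      rw [h3] at h2
      calc m ^ (p - 1) * K ^ (1 - r : ℝ) ≤ m ^ (p - 1) * m ^ (-(p - 1)) := by gcongr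
        _ = 1 := by
            rw [← Real.rpow_add hm0]
            norm_num
    rw [← hNp, Real.mul_rpow hN0.le hK0.le]
    have h4 : (m ^ (p - 1) * K ^ (1 - r : ℝ)) * (D * c * (N ^ (d + 2 * r : ℝ) * N ^ (1 - r : ℝ))) ≤
        1 * (D * c * (N ^ (d + 2 * r : ℝ) * N ^ (1 - r : ℝ))) :=
      mul_le_mul_of_nonneg_right h1 (by positivity)
    linarith
  -- the coarse family
  obtain ⟨T, hT1, hT2, hT3, hT4⟩ := net d hK
  set V := {x // x ∈ T} with hV
  set ωK : V → Vec d := fun x => x.1 with hωK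
  have hfr : ∀ x : V, ∃ g : Fin d → Space d,
      Orthonormal ℝ (Fin.cons (nor (ωK x)) g : Fin (d + 1) → Space d) := fun x => exists_frame _ (norm_dir _)
  choose fK hfK using hfr
  have hcapsK : Caps 1 1 K ωK fK := by
    refine ⟨fun x => hT1 _ x.2, fun x y hxy => hT2 _ x.2 _ y.2 (fun h => hxy (Subtype.ext h)), ?_, hfK⟩
    rw [one_mul, Fintype.card_coe]
    exact hT4
  have hv : ∀ i, ∃ x : V, ‖ω i - ωK x‖ ≤ 1 / K := by
    intro i
    obtain ⟨x, hx, h⟩ := hT3 (ω i) (hω i)
    exact ⟨⟨x, hx⟩, h⟩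
  choose v hv using hv
  set l : ℝ := q * (N / K) ^ d with hl
  have hl0 : 0 < l := by positivity
  set L : ℕ := ⌊l⌋₊ with hL
  have hLl : (L : ℝ) ≤ l := Nat.floor_le hl0.le
  have hfib : ∀ x, (({i | v i = x} : Set ι)).ncard ≤ L := by
    intro x
    apply Nat.le_floor
    have h1 := pack (s := σ / N) (ρ := 1 / K) (by positivity) (by positivity) ω hsep (ωK x)
      (Finset.univ.filter (fun i => v i = x)) (by
        intro i hi
        rw [← (Finset.mem_filter.1 hi).2]
        exact hv i)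
    have h2 : (({i | v i = x} : Set ι)).ncard = (Finset.univ.filter (fun i => v i = x)).card := by
      rw [← Set.ncard_coe_finset]
      congr 1
      ext i
      simp
    rw [h2]
    refine h1.trans ?_
    rw [hl, hq, ← mul_pow]
    apply pow_le_pow_left₀ (by positivity)
    have h3 : 2 * (1 / K) / (σ / N) = 2 / σ * (N / K) := by field_simp
    rw [h3]
    have h4 : 1 ≤ N / K := by rw [le_div_iff₀ hK0]; linarith
    nlinarith
  obtain ⟨j, hj⟩ := label v hfib
  set mu : ℝ := K / ((7 * d + 12) * N) with hmu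
  have hmu0 : 0 < mu := by positivity
  set b : Fin L → V → Space d := fun k x =>
    if h : ∃ i, v i = x ∧ j i = k then mu • a h.choose else 0 with hb
  have hbi : ∀ i, b (j i) (v i) = mu • a i := by
    intro i
    have hex : ∃ i', v i' = v i ∧ j i' = j i := ⟨i, rfl, rfl⟩
    simp only [hb]
    rw [dif_pos hex]
    have h1 := hex.choose_spec
    rw [hj _ _ h1.1 h1.2]
  have hnearpt : ∀ y, Gs N ω f Sᶜ a y ≤ ∑ k : Fin L, Fb K ωK fK (b k) (mu • y) := by
    intro y
    set G : Fin L × V → ℝ≥0∞ := fun x =>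
      (box K (nor (ωK x.2)) (fK x.2) (b x.1 x.2)).indicator (fun _ => (1 : ℝ≥0∞)) (mu • y) with hG
    have h1 : Gs N ω f Sᶜ a y ≤ ∑ i, G (j i, v i) := by
      unfold Gs
      refine Finset.sum_le_sum fun i _ => ?_
      by_cases h : y - a i ∈ box N (nor (ω i)) (f i) 0 ∩ {z : Space d | z.snd ∈ Sᶜ}
      · rw [indicator_of_mem h]
        have h20 : ¬ (N * K ≤ |(y - a i).snd|) := h.2
        have h2 : |(y - a i).snd| ≤ N * K := (not_le.1 h20).le
        have h3 := contain_down hd hK hKN (hω i) (hf i) (hfK (v i)) (hv i) h.1 h2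
        have h4 : mu • y ∈ box K (nor (ωK (v i))) (fK (v i)) (b (j i) (v i)) := by
          rw [box_sub, hbi, ← smul_sub]
          exact h3
        simp only [hG]
        rw [indicator_of_mem h4]
      · rw [indicator_of_notMem h]
        exact zero_le
    refine h1.trans ?_
    have h5 := sum_le_of_inj (fun i => ((j i, v i) : Fin L × V)) (by
      intro i i' h
      have h6 := Prod.ext_iff.1 h
      exact hj _ _ h6.2 h6.1) G
    refine h5.trans (le_of_eq ?_)
    rw [Fintype.sum_prod_type]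
    rfl
  have hD1 := hD₁ K hK _ ωK fK hcapsK.1 hcapsK.2.1 hfK K hK0 Set.univ MeasurableSet.univ (fun t _ => le_rfl)
  have hu : {y : Space d | y.snd ∈ (Set.univ : Set ℝ)} = Set.univ := by simp
  rw [hu, Measure.restrict_univ, ← Real.rpow_add hK0] at hD1
  have hexp : ((d:ℝ) + 2 * r + (1 - r)) = r + ((d + 1 : ℕ) : ℝ) := by push_cast; ring
  rw [hexp] at hD1
  set U : ℝ := B ^ p * (D₁ * ((Fintype.card V : ℝ) * K ^ (r + ((d + 1 : ℕ) : ℝ)))) with hU
  have hU0 : 0 ≤ U := by positivity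
  have hone : ∀ k : Fin L, ∫⁻ y, Fb K ωK fK (b k) (mu • y) ^ p ≤ ENNReal.ofReal ((mu ^ (d + 1))⁻¹ * U) := by
    intro k
    rw [lint_smul volume hmu0.ne' (fun y => Fb K ωK fK (b k) y ^ p), finrank_space,
      abs_of_pos (by positivity), ENNReal.ofReal_mul (by positivity)]
    refine mul_le_mul' le_rfl ?_
    have h1 := hyp V ωK fK (b k) hcapsK
    unfold Iq at h1
    refine h1.trans ((mul_le_mul' le_rfl hD1).trans (le_of_eq ?_))
    rw [ENNReal.ofReal_rpow_of_nonneg hB hp0.le, ← ENNReal.ofReal_mul (by positivity)]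
  have hnear : ∫⁻ y, Gs N ω f Sᶜ a y ^ p ≤ ENNReal.ofReal (E₁ * B ^ p * (c * N ^ (d * p + 1 : ℝ))) := by
    have hmeas : ∀ k : Fin L, Measurable (fun y => Fb K ωK fK (b k) (mu • y) ^ p) := by
      intro k
      exact ((Fb_measurable K ωK fK (b k)).comp (measurable_const_smul mu)).pow_const p
    calc ∫⁻ y, Gs N ω f Sᶜ a y ^ p
        ≤ ∫⁻ y, (L : ℝ≥0∞) ^ (p - 1) * ∑ k : Fin L, Fb K ωK fK (b k) (mu • y) ^ p := by
          refine lintegral_mono fun y => ?_
          refine (ENNReal.rpow_le_rpow (hnearpt y) hp0.le).trans ?_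
          have h := ENNReal.rpow_sum_le_const_mul_sum_rpow (Finset.univ : Finset (Fin L))
            (fun k => Fb K ωK fK (b k) (mu • y)) hp
          rw [Finset.card_univ, Fintype.card_fin] at h
          exact h
      _ = (L : ℝ≥0∞) ^ (p - 1) * ∑ k : Fin L, ∫⁻ y, Fb K ωK fK (b k) (mu • y) ^ p := by
          rw [lintegral_const_mul' _ _ (ENNReal.rpow_ne_top_of_nonneg (by linarith) (by simp)),
            lintegral_finsetSum _ (fun k _ => hmeas k)]
      _ ≤ (L : ℝ≥0∞) ^ (p - 1) * ∑ _k : Fin L, ENNReal.ofReal ((mu ^ (d + 1))⁻¹ * U) := by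
          gcongr with k hk
          exact hone k
      _ = ENNReal.ofReal ((L:ℝ) ^ (p - 1) * (L * ((mu ^ (d + 1))⁻¹ * U))) := by
          rw [Finset.sum_const, Finset.card_univ, Fintype.card_fin, nsmul_eq_mul, ← ENNReal.ofReal_natCast,
            ENNReal.ofReal_rpow_of_nonneg (Nat.cast_nonneg _) (by linarith),
            ← ENNReal.ofReal_mul (Nat.cast_nonneg _), ← ENNReal.ofReal_mul (by positivity)]
      _ ≤ _ := by
          apply ENNReal.ofReal_le_ofReal
          have h1 : (L:ℝ) ^ (p - 1) ≤ l ^ (p - 1) := Real.rpow_le_rpow (Nat.cast_nonneg _) hLl (by linarith)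
          have h2 : l ^ (p - 1) * l = l ^ p := by
            rw [← Real.rpow_add_one' hl0.le (by linarith)]
            congr 1
            ring
          have h3 : l ^ p = q ^ p * (N ^ (d * p : ℝ) / K ^ (d * p : ℝ)) := by
            rw [hl, Real.mul_rpow hq0.le (by positivity), ← Real.rpow_natCast (N / K) d,
              ← Real.rpow_mul (by positivity), Real.div_rpow hN0.le hK0.le]
          have h4 : (mu ^ (d + 1))⁻¹ = (7 * d + 12) ^ (d + 1) * N ^ (d + 1) / K ^ (d + 1) := by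
            rw [hmu, div_pow, inv_div, mul_pow]
          have h5 : (Fintype.card V : ℝ) ≤ 4 ^ d * K ^ d := by
            have h := card_le (σ := 1) one_pos hK hcapsK.1 hcapsK.2.1
            have e : ((2 / 1 + 2 : ℝ) * K) ^ d = 4 ^ d * K ^ d := by
              rw [← mul_pow]
              norm_num
            rwa [e] at h
          have h6 : K ^ (r + ((d + 1 : ℕ) : ℝ)) * K ^ d = K ^ (d * p : ℝ) * K ^ (d + 1) := by
            rw [← Real.rpow_natCast K d, ← Real.rpow_natCast K (d + 1), ← Real.rpow_add hK0,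
              ← Real.rpow_add hK0]
            congr 1
            rw [hr]
            push_cast
            ring
          have h7 : N ^ d ≤ κ⁻¹ * c := by
            rw [inv_mul_eq_div, le_div_iff₀ hκ]
            linarith
          have h8 : N ^ (d * p + 1 : ℝ) = N ^ (d * p : ℝ) * N := by
            rw [Real.rpow_add hN0, Real.rpow_one]
          calc (L:ℝ) ^ (p - 1) * (L * ((mu ^ (d + 1))⁻¹ * U))
              ≤ l ^ (p - 1) * (l * ((mu ^ (d + 1))⁻¹ * U)) := by gcongr
            _ = (l ^ (p - 1) * l) * ((mu ^ (d + 1))⁻¹ * U) := by ring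
            _ = q ^ p * (N ^ (d * p : ℝ) / K ^ (d * p : ℝ)) *
                  ((7 * d + 12) ^ (d + 1) * N ^ (d + 1) / K ^ (d + 1) *
                    (B ^ p * (D₁ * ((Fintype.card V : ℝ) * K ^ (r + ((d + 1 : ℕ) : ℝ)))))) := by
                rw [h2, h3, h4]
            _ ≤ q ^ p * (N ^ (d * p : ℝ) / K ^ (d * p : ℝ)) *
                  ((7 * d + 12) ^ (d + 1) * N ^ (d + 1) / K ^ (d + 1) *
                    (B ^ p * (D₁ * ((4 ^ d * K ^ d) * K ^ (r + ((d + 1 : ℕ) : ℝ)))))) := by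
                gcongr
            _ = (q ^ p * (7 * d + 12) ^ (d + 1) * D₁ * 4 ^ d) * B ^ p * (N ^ (d * p : ℝ) * N) * N ^ d *
                  ((K ^ (r + ((d + 1 : ℕ) : ℝ)) * K ^ d) / (K ^ (d * p : ℝ) * K ^ (d + 1))) :=
                alg_down d (by positivity) hK0
            _ = (q ^ p * (7 * d + 12) ^ (d + 1) * D₁ * 4 ^ d) * B ^ p * (N ^ (d * p : ℝ) * N) * N ^ d := by
                rw [h6, div_self (by positivity), mul_one]
            _ ≤ (q ^ p * (7 * d + 12) ^ (d + 1) * D₁ * 4 ^ d) * B ^ p * (N ^ (d * p : ℝ) * N) * (κ⁻¹ * c) := by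
                gcongr
            _ = _ := by rw [hE₁, h8]; ring
  refine iq_of (E := E) (κ := κ) hE0.le hκ hN1 hp (by linarith) (by linarith) hf hcard a ?_ ?_
  · calc ∫⁻ y, Fb N ω f a y ^ p
        ≤ ∫⁻ y, (2:ℝ≥0∞) ^ (p - 1) * (Gs N ω f S a y ^ p + Gs N ω f Sᶜ a y ^ p) := by
          refine lintegral_mono fun y => ?_
          rw [Fb_split N ω f S a y]
          exact two_pow hp
      _ = (2:ℝ≥0∞) ^ (p - 1) * ((∫⁻ y, Gs N ω f S a y ^ p) + (∫⁻ y, Gs N ω f Sᶜ a y ^ p)) := by
          rw [lintegral_const_mul' _ _ (ENNReal.rpow_ne_top_of_nonneg (by linarith) (by norm_num)),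
            lintegral_add_left ((Gs_meas N ω f hSm a).pow_const p)]
      _ ≤ (2:ℝ≥0∞) ^ (p - 1) * (ENNReal.ofReal (D * (c * N ^ (d * p + 1 : ℝ))) +
            ENNReal.ofReal (E₁ * B ^ p * (c * N ^ (d * p + 1 : ℝ)))) :=
          mul_le_mul' le_rfl (add_le_add hfar2 hnear)
      _ = ENNReal.ofReal (2 ^ (p - 1) * (D * (c * N ^ (d * p + 1 : ℝ)) +
            E₁ * B ^ p * (c * N ^ (d * p + 1 : ℝ)))) := by
          have e : (2:ℝ≥0∞) = ENNReal.ofReal 2 := by simp
          rw [e, ENNReal.ofReal_rpow_of_pos two_pos, ← ENNReal.ofReal_add (by positivity) (by positivity),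
            ← ENNReal.ofReal_mul (by positivity)]
      _ ≤ _ := by
          apply ENNReal.ofReal_le_ofReal
          have h1 : B ^ p ≤ (1 + B) ^ p := Real.rpow_le_rpow hB (by linarith) hp0.le
          have h2 : 1 ≤ (1 + B) ^ p := Real.one_le_rpow (by linarith) hp0.le
          have h3 : D ≤ D * (1 + B) ^ p := le_mul_of_one_le_right hD0.le h2
          have h4 : E₁ * B ^ p ≤ E₁ * (1 + B) ^ p := mul_le_mul_of_nonneg_left h1 hE₁0.le
          have hx : 0 ≤ 2 ^ (p - 1) * (c * N ^ (d * p + 1 : ℝ)) := by positivity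
          have h5 := mul_le_mul_of_nonneg_left (add_le_add h3 h4) hx
          rw [hE]
          calc _ = 2 ^ (p - 1) * (c * N ^ (d * p + 1 : ℝ)) * (D + E₁ * B ^ p) := by ring
            _ ≤ _ := h5
            _ = _ := by ring
  · calc Z ≤ 1 + Z := by linarith
      _ = (1 + Z) ^ (1:ℝ) := (Real.rpow_one _).symm
      _ ≤ (1 + Z) ^ p := Real.rpow_le_rpow_of_exponent_le (by linarith) hp

end Pool.Agent.U912.Few
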