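import Pool.Agent.U912.Few.Base

set_option autoImplicit false

/-! A coarse family is dominated by a finer family with the same number of positions. -/

open MeasureTheory Set Filter Topology ENNReal NNReal Metric

namespace Pool.Agent.U912.Few

open Pool.Agent.H810R3.Tub Pool.Agent.R251.Nec

variable {d : ℕ}

theorem nor_sub_le (ω ω' : Vec d) : ‖nor ω - nor ω'‖ ≤ 2 * ‖ω - ω'‖ := by
  have h := dir_sub_le (-(2 : ℝ) • ω) (-(2 : ℝ) • ω')
  have e : ‖-(2 : ℝ) • ω - -(2 : ℝ) • ω'‖ = 2 * ‖ω - ω'‖ := by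
    rw [← smul_sub, norm_smul]
    norm_num
  rw [e] at h
  exact h

theorem norm_f {e : Space d} {f : Fin d → Space d}
    (h : Orthonormal ℝ (Fin.cons e f : Fin (d + 1) → Space d)) (j : Fin d) : ‖f j‖ = 1 := by
  have := h.1 j.succ
  simpa using this

theorem inner_f_e {e : Space d} {f : Fin d → Space d}
    (h : Orthonormal ℝ (Fin.cons e f : Fin (d + 1) → Space d)) (j : Fin d) :
    (inner ℝ (f j) e : ℝ) = 0 := by
  have := h.2 (i := j.succ) (j := 0) (Fin.succ_ne_zero j)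
  simpa using this

/-- A scaled coarse box lies in every fine box with a close direction. -/
theorem contain (hd : 1 ≤ d) {K N : ℝ} (hK : 1 ≤ K) (hKN : K ≤ N) {ω ω' : Vec d} {f f' : Fin d → Space d}
    (hf : Orthonormal ℝ (Fin.cons (nor ω) f : Fin (d + 1) → Space d))
    (hf' : Orthonormal ℝ (Fin.cons (nor ω') f' : Fin (d + 1) → Space d))
    (hs : ‖ω - ω'‖ ≤ 1 / (4 * K)) {b y : Space d} (hy : y ∈ box K (nor ω) f b) :
    (N / ((d + 1) * K)) • y ∈ box N (nor ω') f' ((N / ((d + 1) * K)) • b) := by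
  have hK0 : 0 < K := by linarith
  have hN0 : 0 < N := by linarith
  have hd0 : (0:ℝ) < d := by exact_mod_cast hd
  set lam : ℝ := N / ((d + 1) * K) with hlam
  have hlam0 : 0 < lam := by positivity
  set z := y - b with hz
  set τ : ℝ := inner ℝ (nor ω) z with hτ
  set w := z - τ • nor ω with hw
  have hwn : ‖w‖ ≤ d * K / 2 := box_perp hK hf hy
  have hτ1 : |τ| ≤ K ^ 2 / 2 := hy.1
  have hzw : z = w + τ • nor ω := by rw [hw]; abel
  have hn : ‖nor ω - nor ω'‖ ≤ 1 / (2 * K) := by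
    refine (nor_sub_le ω ω').trans ?_
    calc 2 * ‖ω - ω'‖ ≤ 2 * (1 / (4 * K)) := by linarith
      _ = 1 / (2 * K) := by field_simp; norm_num
  have he : ‖nor ω‖ = 1 := norm_e hf
  have he' : ‖nor ω'‖ = 1 := norm_e hf'
  have hlK : lam * ((d + 1) * K) = N := by
    rw [hlam]
    field_simp
  constructor
  · rw [← smul_sub, ← hz, inner_smul_right, abs_mul, abs_of_pos hlam0]
    have h1 : |(inner ℝ (nor ω') z : ℝ)| ≤ (d + 1) * K ^ 2 / 2 := by
      have h2 := abs_real_inner_le_norm (nor ω') z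
      rw [he', one_mul] at h2
      refine h2.trans ?_
      rw [hzw]
      refine (norm_add_le _ _).trans ?_
      rw [norm_smul, he, mul_one, Real.norm_eq_abs]
      have h3 : (d:ℝ) * K ≤ d * K ^ 2 := by
        apply mul_le_mul_of_nonneg_left _ hd0.le
        nlinarith
      nlinarith
    calc lam * |(inner ℝ (nor ω') z : ℝ)| ≤ lam * ((d + 1) * K ^ 2 / 2) := by gcongr
      _ = (lam * ((d + 1) * K)) * K / 2 := by ring
      _ = N * K / 2 := by rw [hlK]
      _ ≤ N ^ 2 / 2 := by nlinarith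
  · intro j
    rw [← smul_sub, ← hz, inner_smul_right, abs_mul, abs_of_pos hlam0]
    have h1 : (inner ℝ (f' j) z : ℝ) = inner ℝ (f' j) w + τ * inner ℝ (f' j) (nor ω - nor ω') := by
      have h00 : (inner ℝ (f' j) (nor ω - nor ω') : ℝ) = inner ℝ (f' j) (nor ω) := by
        rw [inner_sub_right, inner_f_e hf' j, sub_zero]
      rw [h00]
      conv_lhs => rw [hzw]
      rw [inner_add_right, inner_smul_right]
    have h2 : |(inner ℝ (f' j) w : ℝ)| ≤ d * K / 2 := by
      have h := abs_real_inner_le_norm (f' j) w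
      rw [norm_f hf' j, one_mul] at h
      exact h.trans hwn
    have h3 : |(inner ℝ (f' j) (nor ω - nor ω') : ℝ)| ≤ 1 / (2 * K) := by
      have h := abs_real_inner_le_norm (f' j) (nor ω - nor ω')
      rw [norm_f hf' j, one_mul] at h
      exact h.trans hn
    have h4 : |(inner ℝ (f' j) z : ℝ)| ≤ (d + 1) * K / 2 := by
      rw [h1]
      refine (abs_add_le _ _).trans ?_
      rw [abs_mul]
      have h5 : |τ| * |(inner ℝ (f' j) (nor ω - nor ω') : ℝ)| ≤ K ^ 2 / 2 * (1 / (2 * K)) := by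
        gcongr
      have h6 : K ^ 2 / 2 * (1 / (2 * K)) = K / 4 := by field_simp; norm_num
      rw [h6] at h5
      linarith
    calc lam * |(inner ℝ (f' j) z : ℝ)| ≤ lam * ((d + 1) * K / 2) := by gcongr
      _ = (lam * ((d + 1) * K)) / 2 := by ring
      _ = N / 2 := by rw [hlK]

/-- The integer points. -/
noncomputable def gp {m : ℕ} (v : Fin d → Fin m) : Vec d := WithLp.toLp 2 (fun j => ((v j : ℕ) : ℝ))

theorem gp_apply {m : ℕ} (v : Fin d → Fin m) (j : Fin d) : gp v j = ((v j : ℕ) : ℝ) := rfl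

theorem norm_gp (hd : 1 ≤ d) {m : ℕ} (v : Fin d → Fin (m + 1)) : ‖gp v‖ ≤ d * m := by
  have hd1 : (1:ℝ) ≤ d := by exact_mod_cast hd
  rw [EuclideanSpace.norm_eq]
  have h : ∑ i, ‖gp v i‖ ^ 2 ≤ (d * m : ℝ) ^ 2 := by
    calc ∑ i, ‖gp v i‖ ^ 2 ≤ ∑ _i : Fin d, (m : ℝ) ^ 2 := by
          refine Finset.sum_le_sum fun i _ => ?_
          rw [gp_apply, Real.norm_eq_abs, abs_of_nonneg (Nat.cast_nonneg _)]
          have : ((v i : ℕ) : ℝ) ≤ m := by
            exact_mod_cast Nat.lt_succ_iff.1 (v i).2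
          gcongr
      _ = d * (m:ℝ) ^ 2 := by rw [Finset.sum_const, Finset.card_univ, Fintype.card_fin, nsmul_eq_mul]
      _ ≤ (d * m : ℝ) ^ 2 := by
          rw [mul_pow]
          have : (d:ℝ) ≤ d ^ 2 := by nlinarith
          gcongr
  calc √(∑ i, ‖gp v i‖ ^ 2) ≤ √((d * m : ℝ) ^ 2) := Real.sqrt_le_sqrt h
    _ = d * m := Real.sqrt_sq (by positivity)

theorem gp_sep {m : ℕ} {v w : Fin d → Fin m} (h : v ≠ w) : 1 ≤ ‖gp v - gp w‖ := by
  obtain ⟨j, hj⟩ := Function.ne_iff.1 h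
  have h1 : ‖(gp v - gp w) j‖ ≤ ‖gp v - gp w‖ := PiLp.norm_apply_le _ j
  refine le_trans ?_ h1
  have e : (gp v - gp w) j = ((v j : ℕ) : ℝ) - ((w j : ℕ) : ℝ) := rfl
  rw [e, Real.norm_eq_abs]
  have h2 : ((v j : ℕ) : ℤ) - ((w j : ℕ) : ℤ) ≠ 0 := by
    intro h3
    apply hj
    apply Fin.ext
    omega
  have h3 : (1:ℤ) ≤ |((v j : ℕ) : ℤ) - ((w j : ℕ) : ℤ)| := Int.one_le_abs h2
  exact_mod_cast h3

/-- The fine family. -/
theorem fine (hd : 1 ≤ d) {σ : ℝ} (hσ : 0 < σ) (hσ1 : σ ≤ 1) {K N : ℝ} (hK : 1 ≤ K)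
    (hN : 2 * K / σ ≤ N) {ι : Type} {ω : ι → Vec d} (hω : ∀ i, ‖ω i‖ ≤ 1)
    (hsep : ∀ i j, i ≠ j → σ / K ≤ ‖ω i - ω j‖) :
    ∃ m : ℕ, σ * N / (8 * d * K) ≤ (m + 1 : ℕ) ∧
      ∃ (ω' : ι × (Fin d → Fin (m + 1)) → Vec d) (f' : ι × (Fin d → Fin (m + 1)) → Fin d → Space d),
        (∀ x, ‖ω' x‖ ≤ 1) ∧ (∀ x y, x ≠ y → 1 / N ≤ ‖ω' x - ω' y‖) ∧
        (∀ x, Orthonormal ℝ (Fin.cons (nor (ω' x)) (f' x) : Fin (d + 1) → Space d)) ∧
        ∀ x, ‖ω x.1 - ω' x‖ ≤ 1 / (4 * K) := by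
  have hK0 : 0 < K := by linarith
  have hN0 : 0 < N := lt_of_lt_of_le (by positivity) hN
  have hd0 : (0:ℝ) < d := by exact_mod_cast hd
  set s : ℝ := σ / (8 * K) with hs
  have hs0 : 0 < s := by positivity
  have hs1 : s ≤ 1 := by
    rw [hs, div_le_one (by positivity)]
    linarith
  set m : ℕ := ⌊s * N / d⌋₊ with hm
  have hm1 : (m:ℝ) ≤ s * N / d := Nat.floor_le (by positivity)
  have hm2 : s * N / d ≤ (m + 1 : ℕ) := by
    push_cast
    exact (Nat.lt_floor_add_one _).le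
  refine ⟨m, ?_, ?_⟩
  · refine le_trans (le_of_eq ?_) hm2
    rw [hs]
    field_simp
  set ω' : ι × (Fin d → Fin (m + 1)) → Vec d := fun x => (1 - s) • ω x.1 + (1 / N) • gp x.2 with hω'
  have hgp : ∀ v : Fin d → Fin (m + 1), ‖(1 / N) • gp v‖ ≤ s := by
    intro v
    rw [norm_smul, Real.norm_eq_abs, abs_of_pos (by positivity), div_mul_eq_mul_div, one_mul,
      div_le_iff₀ hN0]
    refine (norm_gp hd v).trans ?_
    calc (d:ℝ) * m ≤ d * (s * N / d) := by gcongr
      _ = s * N := by field_simp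
  have hclose : ∀ x, ‖ω x.1 - ω' x‖ ≤ 2 * s := by
    intro x
    have e : ω x.1 - ω' x = s • ω x.1 - (1 / N) • gp x.2 := by
      rw [hω']
      simp only [sub_smul, one_smul]
      abel
    rw [e]
    refine (norm_sub_le _ _).trans ?_
    rw [norm_smul, Real.norm_eq_abs, abs_of_pos hs0]
    have h1 : s * ‖ω x.1‖ ≤ s * 1 := mul_le_mul_of_nonneg_left (hω x.1) hs0.le
    have h2 := hgp x.2
    linarith
  have hf : ∀ x, ∃ f : Fin d → Space d,
      Orthonormal ℝ (Fin.cons (nor (ω' x)) f : Fin (d + 1) → Space d) := by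
    intro x
    exact exists_frame _ (norm_dir _)
  choose f' hf' using hf
  refine ⟨ω', f', ?_, ?_, hf', ?_⟩
  · intro x
    rw [hω']
    refine (norm_add_le _ _).trans ?_
    rw [norm_smul, Real.norm_eq_abs, abs_of_nonneg (by linarith)]
    have h1 : (1 - s) * ‖ω x.1‖ ≤ (1 - s) * 1 := mul_le_mul_of_nonneg_left (hω x.1) (by linarith)
    have h2 := hgp x.2
    linarith
  · intro x y hxy
    by_cases h : x.1 = y.1
    · have h2 : x.2 ≠ y.2 := fun h3 => hxy (Prod.ext h h3)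
      have e : ω' x - ω' y = (1 / N) • (gp x.2 - gp y.2) := by
        rw [hω']
        simp only [h, smul_sub]
        abel
      rw [e, norm_smul, Real.norm_eq_abs, abs_of_pos (by positivity)]
      have h3 := gp_sep h2
      have : 1 / N * 1 ≤ 1 / N * ‖gp x.2 - gp y.2‖ := mul_le_mul_of_nonneg_left h3 (by positivity)
      linarith
    · have h1 := hsep _ _ h
      have h2 := hclose x
      have h3 := hclose y
      have h4 : ‖ω x.1 - ω y.1‖ ≤ ‖ω x.1 - ω' x‖ + ‖ω' x - ω' y‖ + ‖ω y.1 - ω' y‖ := by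
        have e : ω x.1 - ω y.1 = (ω x.1 - ω' x) + (ω' x - ω' y) - (ω y.1 - ω' y) := by abel
        rw [e]
        exact (norm_sub_le _ _).trans (by gcongr; exact norm_add_le _ _)
      have h5 : 1 / N ≤ σ / (2 * K) := by
        rw [div_le_div_iff₀ hN0 (by positivity)]
        rw [div_le_iff₀ hσ] at hN
        linarith
      have h6 : σ / K - 4 * s = σ / (2 * K) := by
        rw [hs]
        field_simp
        norm_num
      linarith
  · intro x
    refine (hclose x).trans ?_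
    rw [hs]
    have : 2 * (σ / (8 * K)) = σ / (4 * K) := by field_simp; norm_num
    rw [this]
    gcongr

end Pool.Agent.U912.Few
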