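import Pool.Agent.U912.Few.Up

set_option autoImplicit false

/-! Families with several positions: grouping by the positions. -/

open MeasureTheory Set Filter Topology ENNReal NNReal Metric

namespace Pool.Agent.U912.Few

open Pool.Agent.H810R3.Tub Pool.Agent.R251.Nec

variable {d : ℕ}

/-- The sum of the indicators of the parts of the boxes at relative heights in `S`. -/
noncomputable def Gs {ι : Type} [Fintype ι] (N : ℝ) (ω : ι → Vec d) (f : ι → Fin d → Space d)
    (S : Set ℝ) (a : ι → Space d) (y : Space d) : ℝ≥0∞ :=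
  ∑ i, (box N (nor (ω i)) (f i) 0 ∩ {z : Space d | z.snd ∈ S}).indicator (fun _ => (1 : ℝ≥0∞)) (y - a i)

theorem part_meas {N : ℝ} {e : Space d} {f : Fin d → Space d} {S : Set ℝ} (hS : MeasurableSet S) :
    MeasurableSet (box N e f 0 ∩ {z : Space d | z.snd ∈ S}) := by
  have hsnd : Measurable (fun y : Space d => y.snd) := by fun_prop
  exact (box_closed _ _ _ _).measurableSet.inter (hsnd hS)

theorem Gs_meas {ι : Type} [Fintype ι] (N : ℝ) (ω : ι → Vec d) (f : ι → Fin d → Space d)
    {S : Set ℝ} (hS : MeasurableSet S) (a : ι → Space d) : Measurable (Gs N ω f S a) := by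
  apply Finset.measurable_fun_sum
  intro i _
  exact (measurable_const.indicator (part_meas hS)).comp (measurable_id.sub_const _)

theorem Fb_split {ι : Type} [Fintype ι] (N : ℝ) (ω : ι → Vec d) (f : ι → Fin d → Space d)
    (S : Set ℝ) (a : ι → Space d) (y : Space d) :
    Fb N ω f a y = Gs N ω f S a y + Gs N ω f Sᶜ a y := by
  rw [Fb_sub]
  unfold Gs
  rw [← Finset.sum_add_distrib]
  refine Finset.sum_congr rfl fun i _ => ?_
  by_cases h : y - a i ∈ box N (nor (ω i)) (f i) 0
  · rw [indicator_of_mem h]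
    by_cases h2 : (y - a i).snd ∈ S
    · rw [indicator_of_mem (show y - a i ∈ box N (nor (ω i)) (f i) 0 ∩ {z : Space d | z.snd ∈ S} from ⟨h, h2⟩),
        indicator_of_notMem (show y - a i ∉ box N (nor (ω i)) (f i) 0 ∩ {z : Space d | z.snd ∈ Sᶜ} from
          fun h3 => h3.2 h2), add_zero]
    · rw [indicator_of_notMem (show y - a i ∉ box N (nor (ω i)) (f i) 0 ∩ {z : Space d | z.snd ∈ S} from
          fun h3 => h2 h3.2),
        indicator_of_mem (show y - a i ∈ box N (nor (ω i)) (f i) 0 ∩ {z : Space d | z.snd ∈ Sᶜ} from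
          ⟨h, h2⟩), zero_add]
  · rw [indicator_of_notMem h, indicator_of_notMem (fun h3 => h h3.1), indicator_of_notMem (fun h3 => h h3.1),
      add_zero]

theorem two_pow {u v : ℝ≥0∞} {p : ℝ} (hp : 1 ≤ p) :
    (u + v) ^ p ≤ (2:ℝ≥0∞) ^ (p - 1) * (u ^ p + v ^ p) := by
  have h := ENNReal.rpow_sum_le_const_mul_sum_rpow (Finset.univ : Finset (Fin 2)) ![u, v] hp
  simpa [Fin.sum_univ_two] using h

/-- Moments of the sum of several bushes. -/
theorem group (d : ℕ) (hd : 1 ≤ d) {σ : ℝ} (hσ : 0 < σ) {p : ℝ} (hp : 1 ≤ p) (hpd : 1 < d * (p - 1)) :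
    ∃ D : ℝ, 0 < D ∧ ∀ (N : ℝ), 1 ≤ N → ∀ (ι : Type) [Fintype ι] (ω : ι → Vec d)
      (f : ι → Fin d → Space d), (∀ i, ‖ω i‖ ≤ 1) → (∀ i j, i ≠ j → σ / N ≤ ‖ω i - ω j‖) →
      (∀ i, Orthonormal ℝ (Fin.cons (nor (ω i)) (f i) : Fin (d + 1) → Space d)) →
      ∀ (ρ : ℝ), 0 < ρ → ∀ S : Set ℝ, MeasurableSet S → (∀ t ∈ S, max |t| ρ ≤ max |t| N) →
      ∀ (a : ι → Space d) (m R : ℝ),
        (∀ i, ∀ z ∈ box N (nor (ω i)) (f i) 0, z.snd ∈ S → ‖z‖ ≤ R) →
        (∀ y, (({x | x ∈ range a ∧ ‖y - x‖ ≤ R} : Set (Space d)).ncard : ℝ) ≤ m) →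
      ∫⁻ y, Gs N ω f S a y ^ p ≤
        ENNReal.ofReal (D * (m ^ (p - 1) * ((Fintype.card ι : ℝ) * (N ^ (d + 2 * (d * (p - 1)) : ℝ) *
          ρ ^ (1 - d * (p - 1) : ℝ))))) := by
  classical
  obtain ⟨D, hD0, hD⟩ := bush d hd hσ hp hpd
  refine ⟨D, hD0, ?_⟩
  intro N hN ι _ ω f hω hsep hf ρ hρ S hS hSρ a m R hR hm
  have hN0 : 0 < N := by linarith
  have hp0 : 0 < p := by linarith
  have hm0 : 0 ≤ m := le_trans (Nat.cast_nonneg _) (hm 0)
  set r : ℝ := d * (p - 1) with hr
  set W : ℝ := N ^ (d + 2 * r : ℝ) * ρ ^ (1 - r : ℝ) with hW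
  have hW0 : 0 ≤ W := by positivity
  set X : Finset (Space d) := Finset.univ.image a with hX
  set ind : ι → Space d → ℝ≥0∞ := fun i =>
    (box N (nor (ω i)) (f i) 0 ∩ {z : Space d | z.snd ∈ S}).indicator (fun _ => (1 : ℝ≥0∞)) with hind
  have hindm : ∀ i, Measurable (ind i) := fun i => measurable_const.indicator (part_meas hS)
  set G : Space d → Space d → ℝ≥0∞ := fun x y => ∑ i ∈ Finset.univ.filter (fun i => a i = x), ind i (y - x)
    with hG
  have hGm : ∀ x, Measurable (G x) := by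
    intro x
    apply Finset.measurable_fun_sum
    intro i _
    exact (hindm i).comp (measurable_id.sub_const _)
  have hsum : ∀ y, Gs N ω f S a y = ∑ x ∈ X, G x y := by
    intro y
    unfold Gs
    rw [← Finset.sum_fiberwise_of_maps_to (g := a) (t := X) (fun i _ => Finset.mem_image_of_mem a (Finset.mem_univ i))]
    refine Finset.sum_congr rfl fun x _ => ?_
    refine Finset.sum_congr rfl fun i hi => ?_
    rw [(Finset.mem_filter.1 hi).2]
  have hzero : ∀ x y, ¬ ‖y - x‖ ≤ R → G x y = 0 := by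
    intro x y h
    apply Finset.sum_eq_zero
    intro i _
    apply indicator_of_notMem
    rintro ⟨h1, h2⟩
    exact h (hR i _ h1 h2)
  have hpt : ∀ y, Gs N ω f S a y ^ p ≤ ENNReal.ofReal (m ^ (p - 1)) * ∑ x ∈ X, G x y ^ p := by
    intro y
    set X' := X.filter (fun x => ‖y - x‖ ≤ R) with hX'
    have h1 : Gs N ω f S a y = ∑ x ∈ X', G x y := by
      rw [hsum, hX', Finset.sum_filter]
      refine Finset.sum_congr rfl fun x _ => ?_
      split_ifs with h
      · rfl
      · exact hzero x y h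
    have h2 : (X'.card : ℝ) ≤ m := by
      have h3 := hm y
      have h4 : ({x | x ∈ range a ∧ ‖y - x‖ ≤ R} : Set (Space d)) = (X' : Set (Space d)) := by
        ext x
        simp [hX', hX]
      rw [h4, Set.ncard_coe_finset] at h3
      exact h3
    rw [h1]
    refine (ENNReal.rpow_sum_le_const_mul_sum_rpow X' _ hp).trans ?_
    refine mul_le_mul' ?_ (Finset.sum_le_sum_of_subset (Finset.filter_subset _ _))
    rw [← ENNReal.ofReal_rpow_of_nonneg hm0 (by linarith), ← ENNReal.ofReal_natCast]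
    exact ENNReal.rpow_le_rpow (ENNReal.ofReal_le_ofReal h2) (by linarith)
  have hint : ∀ x, ∫⁻ y, G x y ^ p ≤
      ENNReal.ofReal (D * (((Finset.univ.filter (fun i => a i = x)).card : ℝ) * W)) := by
    intro x
    have h1 : ∫⁻ y, G x y ^ p = ∫⁻ y, (∑ i ∈ Finset.univ.filter (fun i => a i = x), ind i y) ^ p := by
      rw [hG]
      exact lintegral_sub_right_eq_self (fun y => (∑ i ∈ Finset.univ.filter (fun i => a i = x), ind i y) ^ p) x
    rw [h1]
    set ι' := {i // a i = x} with hι'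
    have h2 := hD N hN ι' (fun i => ω i.1) (fun i => f i.1) (fun i => hω i.1)
      (fun i j hij => hsep i.1 j.1 (fun h => hij (Subtype.ext h))) (fun i => hf i.1) ρ hρ S hS hSρ
    rw [Fintype.card_subtype] at h2
    refine le_trans (le_of_eq ?_) h2
    have hsnd : Measurable (fun y : Space d => y.snd) := by fun_prop
    have hSm : MeasurableSet {y : Space d | y.snd ∈ S} := hsnd hS
    rw [← lintegral_indicator hSm]
    refine lintegral_congr fun y => ?_
    by_cases hy : y.snd ∈ S
    · have hy' : y ∈ {y : Space d | y.snd ∈ S} := hy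
      rw [indicator_of_mem hy']
      congr 1
      unfold Fb
      rw [← Finset.sum_subtype_eq_sum_filter]
      have e1 : ∀ i : ι, ind i y = (box N (nor (ω i)) (f i) 0).indicator (fun _ => (1 : ℝ≥0∞)) y := by
        intro i
        by_cases hb : y ∈ box N (nor (ω i)) (f i) 0
        · rw [indicator_of_mem hb]
          exact indicator_of_mem (show y ∈ box N (nor (ω i)) (f i) 0 ∩ {z : Space d | z.snd ∈ S} from ⟨hb, hy⟩) _
        · rw [indicator_of_notMem hb]
          exact indicator_of_notMem (fun h => hb h.1) _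
      simp only [e1]
      rw [Finset.subtype_univ]
    · have hy' : y ∉ {y : Space d | y.snd ∈ S} := hy
      rw [indicator_of_notMem hy']
      have : ∀ i ∈ Finset.univ.filter (fun i => a i = x), ind i y = 0 := by
        intro i _
        exact indicator_of_notMem (fun h => hy h.2) _
      rw [Finset.sum_eq_zero this, ENNReal.zero_rpow_of_pos hp0]
  have hcards : ∑ x ∈ X, ((Finset.univ.filter (fun i => a i = x)).card : ℝ) = (Fintype.card ι : ℝ) := by
    have h := Finset.card_eq_sum_card_fiberwise (f := a) (s := Finset.univ) (t := X)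
      (fun i _ => Finset.mem_image_of_mem a (Finset.mem_univ i))
    rw [← Finset.card_univ, h]
    push_cast
    rfl
  calc ∫⁻ y, Gs N ω f S a y ^ p ≤ ∫⁻ y, ENNReal.ofReal (m ^ (p - 1)) * ∑ x ∈ X, G x y ^ p :=
        lintegral_mono hpt
    _ = ENNReal.ofReal (m ^ (p - 1)) * ∑ x ∈ X, ∫⁻ y, G x y ^ p := by
        rw [lintegral_const_mul' _ _ ENNReal.ofReal_ne_top,
          lintegral_finsetSum _ (fun x _ => (hGm x).pow_const p)]
    _ ≤ ENNReal.ofReal (m ^ (p - 1)) * ∑ x ∈ X,
          ENNReal.ofReal (D * (((Finset.univ.filter (fun i => a i = x)).card : ℝ) * W)) := by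
        gcongr with x hx
        exact hint x
    _ = _ := by
        rw [← ENNReal.ofReal_sum_of_nonneg (fun x _ => by positivity), ← ENNReal.ofReal_mul (by positivity),
          ← Finset.mul_sum, ← Finset.sum_mul, hcards]
        congr 1
        ring

end Pool.Agent.U912.Few
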