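import Pool.Agent.U912.Few.QOne

set_option autoImplicit false

/-! Well separated positions, without a bound for their number. -/

open MeasureTheory Set Filter Topology ENNReal NNReal Metric

namespace Pool.Agent.U912.Few

open Pool.Agent.H810R3.Tub Pool.Agent.R251.Nec

variable {d : ℕ}

theorem sum_inv (d : ℕ) {α : Type} (X : Finset α) (τ : α → ℝ) {S Q : ℝ} (hS : 0 < S) (hQ : 0 ≤ Q)
    (hτ : ∀ x ∈ X, 0 < τ x ∧ τ x ≤ S)
    (hc : ∀ ρ, 0 < ρ → ((X.filter (fun x => τ x ≤ ρ)).card : ℝ) ≤ Q * ρ ^ (d + 1)) :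
    ∑ x ∈ X, ((τ x)⁻¹) ^ d ≤ 2 ^ (d + 1) * Q * S := by
  classical
  have hex : ∀ x, ∃ j : ℕ, x ∈ X → (2:ℝ) ^ j ≤ S / τ x ∧ S / τ x < 2 ^ (j + 1) := by
    intro x
    by_cases hx : x ∈ X
    · obtain ⟨h1, h2⟩ := hτ x hx
      obtain ⟨j, hj1, hj2⟩ := exists_nat_pow_near (x := S / τ x) (y := (2:ℝ)) (by
        rw [one_le_div h1]; exact h2) one_lt_two
      exact ⟨j, fun _ => ⟨hj1, hj2⟩⟩
    · exact ⟨0, fun h => absurd h hx⟩
  choose j hj using hex
  set J : ℕ := X.sup j + 1 with hJ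
  have hjJ : ∀ x ∈ X, j x ∈ Finset.range J := by
    intro x hx
    rw [Finset.mem_range, hJ]
    exact Nat.lt_succ_of_le (Finset.le_sup hx)
  have h1 : ∀ x ∈ X, ((τ x)⁻¹) ^ d ≤
      ∑ i ∈ Finset.range J, if τ x ≤ S / 2 ^ i then (2 ^ (i + 1) / S) ^ d else 0 := by
    intro x hx
    obtain ⟨h2, h3⟩ := hτ x hx
    obtain ⟨h4, h5⟩ := hj x hx
    have h6 : τ x ≤ S / 2 ^ (j x) := by
      rw [le_div_iff₀ h2] at h4
      rw [le_div_iff₀ (by positivity)]
      linarith
    have h7 : (τ x)⁻¹ ≤ 2 ^ (j x + 1) / S := by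
      rw [div_lt_iff₀ h2] at h5
      rw [inv_le_iff_one_le_mul₀ h2, div_mul_eq_mul_div, le_div_iff₀ hS]
      linarith
    calc ((τ x)⁻¹) ^ d ≤ (2 ^ (j x + 1) / S) ^ d := pow_le_pow_left₀ (by positivity) h7 d
      _ = if τ x ≤ S / 2 ^ (j x) then (2 ^ (j x + 1) / S) ^ d else 0 := by rw [if_pos h6]
      _ ≤ _ := Finset.single_le_sum (f := fun i => if τ x ≤ S / 2 ^ i then (2 ^ (i + 1) / S) ^ d else 0)
          (fun i _ => by positivity) (hjJ x hx)
  calc ∑ x ∈ X, ((τ x)⁻¹) ^ d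
      ≤ ∑ x ∈ X, ∑ i ∈ Finset.range J, if τ x ≤ S / 2 ^ i then (2 ^ (i + 1) / S) ^ d else 0 :=
        Finset.sum_le_sum h1
    _ = ∑ i ∈ Finset.range J, ∑ x ∈ X, if τ x ≤ S / 2 ^ i then (2 ^ (i + 1) / S) ^ d else 0 :=
        Finset.sum_comm
    _ = ∑ i ∈ Finset.range J, ((X.filter (fun x => τ x ≤ S / 2 ^ i)).card : ℝ) * (2 ^ (i + 1) / S) ^ d := by
        refine Finset.sum_congr rfl fun i _ => ?_
        rw [← Finset.sum_filter, Finset.sum_const, nsmul_eq_mul]
    _ ≤ ∑ i ∈ Finset.range J, 2 ^ d * Q * S * (1 / 2) ^ i := by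
        refine Finset.sum_le_sum fun i _ => ?_
        have h2 := hc (S / 2 ^ i) (by positivity)
        calc ((X.filter (fun x => τ x ≤ S / 2 ^ i)).card : ℝ) * (2 ^ (i + 1) / S) ^ d
            ≤ Q * (S / 2 ^ i) ^ (d + 1) * (2 ^ (i + 1) / S) ^ d := by gcongr
          _ = 2 ^ d * Q * S * (1 / 2) ^ i := by
              rw [pow_succ (S / 2 ^ i) d, pow_succ (2:ℝ) i]
              have : (S / 2 ^ i) ^ d * (2 ^ i * 2 / S) ^ d = 2 ^ d := by
                rw [← mul_pow]
                congr 1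
                field_simp
              calc Q * ((S / 2 ^ i) ^ d * (S / 2 ^ i)) * (2 ^ i * 2 / S) ^ d
                  = Q * (S / 2 ^ i) * ((S / 2 ^ i) ^ d * (2 ^ i * 2 / S) ^ d) := by ring
                _ = Q * (S / 2 ^ i) * 2 ^ d := by rw [this]
                _ = _ := by
                    rw [one_div, inv_pow]
                    ring
    _ = 2 ^ d * Q * S * ∑ i ∈ Finset.range J, (1 / 2 : ℝ) ^ i := by rw [Finset.mul_sum]
    _ ≤ 2 ^ d * Q * S * 2 := by
        gcongr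
        exact sum_geometric_two_le J
    _ = _ := by ring

/-- Bound for the far parts. -/
theorem far_sup (d : ℕ) {σ : ℝ} (hσ : 0 < σ) {A : ℝ} (hA : 1 ≤ A) :
    ∃ M : ℝ, 0 < M ∧ ∀ (N : ℝ), 1 ≤ N → ∀ (ι : Type) [Fintype ι] (ω : ι → Vec d)
      (f : ι → Fin d → Space d), (∀ i, ‖ω i‖ ≤ 1) → (∀ i j, i ≠ j → σ / N ≤ ‖ω i - ω j‖) →
      (∀ i, Orthonormal ℝ (Fin.cons (nor (ω i)) (f i) : Fin (d + 1) → Space d)) →
      ∀ (a : ι → Space d) (s : ℝ), 0 < s → N ≤ A * s → (∀ i j, a i = a j ∨ s ≤ ‖a i - a j‖) →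
      ∀ y, Gs N ω f {t | s ≤ |t|} a y ≤ ENNReal.ofReal (M * (N ^ 2 / s) ^ (d + 1)) := by
  classical
  set A₁ : ℝ := 3 * d / (2 * σ) + 2 * (1 + d) + (2 / σ + 2) with hA₁
  have hA₁0 : 0 < A₁ := by positivity
  have hd0 : (0:ℝ) ≤ d := Nat.cast_nonneg d
  refine ⟨A₁ ^ d * (2 ^ (d + 1) * (8 + 3 * d * A) ^ (d + 1) * (1 + d)), by positivity, ?_⟩
  intro N hN ι _ ω f hω hsep hf a s hs hNs hsepa y
  have hN0 : 0 < N := by linarith
  set ind : ι → Space d → ℝ≥0∞ := fun i =>
    (box N (nor (ω i)) (f i) 0 ∩ {z : Space d | z.snd ∈ {t : ℝ | s ≤ |t|}}).indicator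
      (fun _ => (1 : ℝ≥0∞)) with hind
  set X : Finset (Space d) := (Finset.univ.image a).filter (fun x => s ≤ |(y - x).snd| ∧
    |(y - x).snd| ≤ (1 + d) * N ^ 2 ∧ ‖y - x‖ ≤ 3 * |(y - x).snd| + 3 * d * N / 2) with hX
  set G : Space d → ℝ≥0∞ := fun x => ∑ i ∈ Finset.univ.filter (fun i => a i = x), ind i (y - x) with hG
  have h0 : Gs N ω f {t | s ≤ |t|} a y = ∑ x ∈ Finset.univ.image a, G x := by
    unfold Gs
    rw [← Finset.sum_fiberwise_of_maps_to (g := a) (t := Finset.univ.image a)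
      (fun i _ => Finset.mem_image_of_mem a (Finset.mem_univ i))]
    refine Finset.sum_congr rfl fun x _ => ?_
    refine Finset.sum_congr rfl fun i hi => ?_
    rw [(Finset.mem_filter.1 hi).2]
  have h1 : ∑ x ∈ Finset.univ.image a, G x = ∑ x ∈ X, G x := by
    rw [hX, Finset.sum_filter]
    refine Finset.sum_congr rfl fun x _ => ?_
    split_ifs with h
    · rfl
    · apply Finset.sum_eq_zero
      intro i _
      apply indicator_of_notMem
      rintro ⟨h2, h3⟩
      apply h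
      have h3' : s ≤ |(y - x).snd| := h3
      have h4 := box_sub_ball hN (hf i) h2
      rw [mem_closedBall, dist_zero_right] at h4
      exact ⟨h3', (abs_snd_le _).trans h4, norm_of_height hN (hω i) (hf i) h2⟩
  have h2 : ∀ x ∈ X, G x ≤ ENNReal.ofReal ((A₁ * N ^ 2) ^ d * (|(y - x).snd|⁻¹) ^ d) := by
    intro x hx
    have hx' := (Finset.mem_filter.1 hx).2
    have ht0 : 0 < |(y - x).snd| := lt_of_lt_of_le hs hx'.1
    have h3 := Fb_pt (ι := {i // a i = x}) hσ hN (ω := fun i => ω i.1) (f := fun i => f i.1) (fun i => hω i.1)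
      (fun i j hij => hsep i.1 j.1 (fun h => hij (Subtype.ext h))) (fun i => hf i.1) (y - x).fst (y - x).snd
    have h4 : G x ≤ Fb N (fun i : {i // a i = x} => ω i.1) (fun i => f i.1) (fun _ => 0) (y - x) := by
      unfold Fb
      rw [hG]
      simp only
      rw [← Finset.sum_subtype_eq_sum_filter, Finset.subtype_univ]
      refine Finset.sum_le_sum fun i _ => ?_
      exact indicator_le_indicator_of_subset inter_subset_left (fun _ => zero_le) _
    refine h4.trans (h3.trans (ENNReal.ofReal_le_ofReal ?_))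
    rw [← mul_pow]
    apply pow_le_pow_left₀ (by positivity)
    apply mul_le_mul_of_nonneg_left _ (by positivity)
    exact inv_anti₀ ht0 (le_max_left _ _)
  have h3 : ∑ x ∈ X, (|(y - x).snd|⁻¹) ^ d ≤
      2 ^ (d + 1) * ((8 + 3 * d * A) / s) ^ (d + 1) * ((1 + d) * N ^ 2) := by
    refine sum_inv d X (fun x => |(y - x).snd|) (by positivity) (by positivity) ?_ ?_
    · intro x hx
      have hx' := (Finset.mem_filter.1 hx).2
      exact ⟨lt_of_lt_of_le hs hx'.1, hx'.2.1⟩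
    · intro ρ hρ
      by_cases hρs : s ≤ ρ
      · have h4 := pack_space (Set.finite_range a) hs (R := 3 * ρ + 3 * d * N / 2) (by positivity) (by
          rintro _ ⟨i, rfl⟩ _ ⟨j, rfl⟩ hne
          exact (hsepa i j).resolve_left hne) y
        have h5 : ((X.filter (fun x => |(y - x).snd| ≤ ρ)).card : ℝ) ≤
            (({x | x ∈ range a ∧ ‖y - x‖ ≤ 3 * ρ + 3 * d * N / 2} : Set (Space d)).ncard : ℝ) := by
          rw [← Set.ncard_coe_finset]
          have h6 : (X.filter (fun x => |(y - x).snd| ≤ ρ) : Set (Space d)) ⊆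
              {x | x ∈ range a ∧ ‖y - x‖ ≤ 3 * ρ + 3 * d * N / 2} := by
            intro x hx
            have hx1 := Finset.mem_filter.1 (Finset.mem_coe.1 hx)
            have hx2 := Finset.mem_filter.1 hx1.1
            obtain ⟨i, -, hi⟩ := Finset.mem_image.1 hx2.1
            refine ⟨⟨i, hi⟩, hx2.2.2.2.trans ?_⟩
            linarith [hx1.2]
          have h7 : ({x | x ∈ range a ∧ ‖y - x‖ ≤ 3 * ρ + 3 * d * N / 2} : Set (Space d)).Finite :=
            (Set.finite_range a).subset (fun x hx => hx.1)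
          exact_mod_cast Set.ncard_le_ncard h6 h7
        refine h5.trans (h4.trans ?_)
        rw [← mul_pow]
        apply pow_le_pow_left₀ (by positivity)
        have h8 : 3 * d * N / 2 ≤ 3 * d * A / 2 * ρ := by
          have : 3 * d / 2 * N ≤ 3 * d / 2 * (A * ρ) := by
            apply mul_le_mul_of_nonneg_left _ (by positivity)
            exact hNs.trans (mul_le_mul_of_nonneg_left hρs (by linarith))
          calc 3 * d * N / 2 = 3 * d / 2 * N := by ring
            _ ≤ 3 * d / 2 * (A * ρ) := this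
            _ = _ := by ring
        have h9 : 2 * (3 * ρ + 3 * d * N / 2) / s + 2 = (2 * (3 * ρ + 3 * d * N / 2) + 2 * s) / s := by
          field_simp
        rw [h9, div_mul_eq_mul_div]
        apply div_le_div_of_nonneg_right _ hs.le
        nlinarith
      · have h4 : X.filter (fun x => |(y - x).snd| ≤ ρ) = ∅ := by
          rw [Finset.filter_eq_empty_iff]
          intro x hx h
          have hx' := (Finset.mem_filter.1 hx).2
          exact hρs (hx'.1.trans h)
        rw [h4, Finset.card_empty, Nat.cast_zero]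
        positivity
  rw [h0, h1]
  calc ∑ x ∈ X, G x ≤ ∑ x ∈ X, ENNReal.ofReal ((A₁ * N ^ 2) ^ d * (|(y - x).snd|⁻¹) ^ d) :=
        Finset.sum_le_sum h2
    _ = ENNReal.ofReal ((A₁ * N ^ 2) ^ d * ∑ x ∈ X, (|(y - x).snd|⁻¹) ^ d) := by
        rw [← ENNReal.ofReal_sum_of_nonneg (fun x _ => by positivity), Finset.mul_sum]
    _ ≤ _ := by
        apply ENNReal.ofReal_le_ofReal
        calc (A₁ * N ^ 2) ^ d * ∑ x ∈ X, (|(y - x).snd|⁻¹) ^ d
            ≤ (A₁ * N ^ 2) ^ d * (2 ^ (d + 1) * ((8 + 3 * d * A) / s) ^ (d + 1) * ((1 + d) * N ^ 2)) := by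
              gcongr
          _ = _ := by
              rw [mul_pow, div_pow, div_pow, pow_succ (N ^ 2) d]
              field_simp

theorem lat_free (d : ℕ) (hd : 1 ≤ d) {σ κ R : ℝ} (hσ : 0 < σ) (hκ : 0 < κ) (hR : 0 ≤ R) {p : ℝ}
    (hp : 1 < p) (hpd : 1 < d * (p - 1)) :
    ∃ C : ℝ, 1 ≤ C ∧ ∀ (N : ℝ), 1 ≤ N → ∀ (ι : Type) [Fintype ι] (ω : ι → Vec d)
      (f : ι → Fin d → Space d), Caps σ κ N ω f →
      ∀ (a x : ι → Space d) (s : ℝ), (∀ i, ‖a i - x i‖ ≤ R * N) →
        (∀ i j, x i = x j ∨ s ≤ ‖x i - x j‖) →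
        N ^ (2 - (d * (p - 1) - 1) / ((d + 1) * (p - 1)) : ℝ) ≤ s →
        Iq C N p ω f a := by
  have hd0 : (0:ℝ) < d := by exact_mod_cast hd
  have hp0 : 0 < p := by linarith
  have hp1 : 0 < p - 1 := by linarith
  set r : ℝ := d * (p - 1) with hr
  set b : ℝ := 1 + 2 * R with hb
  have hb1 : 1 ≤ b := by linarith
  have hb0 : 0 < b := by linarith
  set σ' : ℝ := σ * b with hσ'
  have hσ'0 : 0 < σ' := by positivity
  obtain ⟨M₁, hM₁, hfar⟩ := far_sup d hσ'0 hb1
  obtain ⟨D, hD0, hD⟩ := group d hd hσ'0 hp.le hpd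
  have hw := wv_pos d
  set M : ℝ := (2 * (3 + 3 * d * b / 2) + 2) ^ (d + 1) with hM
  have hM0 : 0 < M := by positivity
  set γ : ℝ := 2 - (r - 1) / ((d + 1) * (p - 1)) with hγ
  have hγ1 : 1 ≤ γ := by
    have : (r - 1) / ((d + 1) * (p - 1)) ≤ 1 := by
      rw [div_le_one (by positivity)]
      rw [hr]
      nlinarith
    linarith
  set F : ℝ := (M₁ * b ^ (2 * (d + 1))) ^ (p - 1) with hF
  have hF0 : 0 < F := by positivity
  set E : ℝ := 2 ^ (p - 1) * (D * M ^ (p - 1) * b ^ (d * p + 1 : ℝ) + F * b ^ (d + 2)) with hE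
  have hE0 : 0 < E := by positivity
  set Z : ℝ := E * κ ^ (1 - p) * (2 ^ (d + 1) / wv d) with hZ
  have hZ0 : 0 < Z := by positivity
  refine ⟨1 + Z, by linarith, ?_⟩
  intro N hN ι _ ω f hcaps a x s hax hsepx hs
  obtain ⟨hω, hsep, hcard, hf⟩ := hcaps
  have hN0 : 0 < N := by linarith
  have hNγ : N ≤ N ^ γ := by
    calc N = N ^ (1:ℝ) := (Real.rpow_one N).symm
      _ ≤ N ^ γ := Real.rpow_le_rpow_of_exponent_le hN hγ1
  have hNs : N ≤ s := hNγ.trans hs
  have hs0 : 0 < s := by linarith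
  have hbN : 1 ≤ b * N := by nlinarith
  have hbN0 : 0 < b * N := by positivity
  set c : ℝ := (Fintype.card ι : ℝ) with hc
  have hc0 : 0 < c := lt_of_lt_of_le (by positivity) hcard
  have hsep' : ∀ i j, i ≠ j → σ' / (b * N) ≤ ‖ω i - ω j‖ := by
    intro i j hij
    have : σ' / (b * N) = σ / N := by
      rw [hσ']
      field_simp
    rw [this]
    exact hsep i j hij
  have hbs : b * N ≤ b * s := mul_le_mul_of_nonneg_left hNs hb0.le
  set S : Set ℝ := {t | s ≤ |t|} with hS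
  have hSm : MeasurableSet S := measurableSet_le measurable_const measurable_norm
  -- near part
  have hnear := hD (b * N) hbN ι ω f hω hsep' hf (b * N) hbN0 Sᶜ hSm.compl (fun t _ => le_rfl) x M
    ((3 + 3 * d * b / 2) * s) (by
      intro i z hz hzS
      have h10 : ¬ (s ≤ |z.snd|) := hzS
      have h1 : |z.snd| < s := not_le.1 h10
      have h := norm_of_height hbN (hω i) (hf i) hz
      have h2 : 3 * d * (b * N) / 2 ≤ 3 * d * b / 2 * s := by
        have : 3 * d / 2 * (b * N) ≤ 3 * d / 2 * (b * s) := by gcongr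
        calc 3 * d * (b * N) / 2 = 3 * d / 2 * (b * N) := by ring
          _ ≤ 3 * d / 2 * (b * s) := this
          _ = _ := by ring
      linarith) (by
      intro y
      refine (pack_space (Set.finite_range x) hs0 (by positivity) ?_ y).trans (le_of_eq ?_)
      · rintro _ ⟨i, rfl⟩ _ ⟨j, rfl⟩ hne
        exact (hsepx i j).resolve_left hne
      · rw [hM]
        congr 2
        field_simp)
  have hnear2 : ∫⁻ y, Gs (b * N) ω f Sᶜ x y ^ p ≤
      ENNReal.ofReal (D * M ^ (p - 1) * b ^ (d * p + 1 : ℝ) * (c * N ^ (d * p + 1 : ℝ))) := by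
    refine hnear.trans (le_of_eq ?_)
    congr 1
    have e : (b * N) ^ (d + 2 * r : ℝ) * (b * N) ^ (1 - r : ℝ) = b ^ (d * p + 1 : ℝ) * N ^ (d * p + 1 : ℝ) := by
      rw [← Real.rpow_add hbN0, ← Real.mul_rpow hb0.le hN0.le]
      congr 1
      rw [hr]
      ring
    rw [e]
    ring
  -- far part
  have hsup := hfar (b * N) hbN ι ω f hω hsep' hf x s hs0 hbs hsepx
  set T : ℝ := M₁ * ((b * N) ^ 2 / s) ^ (d + 1) with hT
  have hT0 : 0 ≤ T := by positivity
  have hfar2 : ∫⁻ y, Gs (b * N) ω f S x y ^ p ≤ ENNReal.ofReal (T ^ (p - 1) * (c * (b * N) ^ (d + 2))) := by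
    calc ∫⁻ y, Gs (b * N) ω f S x y ^ p
        ≤ ∫⁻ y, ENNReal.ofReal (T ^ (p - 1)) * Fb (b * N) ω f x y := by
          refine lintegral_mono fun y => ?_
          have e1 : Gs (b * N) ω f S x y ^ p = Gs (b * N) ω f S x y ^ (p - 1) * Gs (b * N) ω f S x y := by
            conv_lhs => rw [show p = (p - 1) + 1 by ring]
            rw [ENNReal.rpow_add_of_nonneg _ _ hp1.le zero_le_one, ENNReal.rpow_one]
          rw [e1]
          refine mul_le_mul' ?_ ?_
          · rw [← ENNReal.ofReal_rpow_of_nonneg hT0 hp1.le]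
            exact ENNReal.rpow_le_rpow (hsup y) hp1.le
          · rw [Fb_split (b * N) ω f S x y]
            exact le_self_add
      _ = _ := by
          rw [lintegral_const_mul' _ _ ENNReal.ofReal_ne_top, Fb_int hbN hf, ← ENNReal.ofReal_mul (by positivity)]
  have hTp : T ^ (p - 1) ≤ F * N ^ (r - 1) := by
    have h1 : T ≤ M₁ * b ^ (2 * (d + 1)) * (N ^ ((r - 1) / ((d + 1) * (p - 1)))) ^ (d + 1) := by
      have h2 : (b * N) ^ 2 / s ≤ b ^ 2 * N ^ ((r - 1) / ((d + 1) * (p - 1))) := by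
        rw [div_le_iff₀ hs0]
        have h3 : N ^ 2 = N ^ ((r - 1) / ((d + 1) * (p - 1))) * N ^ γ := by
          rw [← Real.rpow_natCast N 2, ← Real.rpow_add hN0]
          congr 1
          rw [hγ]
          push_cast
          ring
        calc (b * N) ^ 2 = b ^ 2 * (N ^ ((r - 1) / ((d + 1) * (p - 1))) * N ^ γ) := by rw [mul_pow, h3]
          _ ≤ b ^ 2 * (N ^ ((r - 1) / ((d + 1) * (p - 1))) * s) := by gcongr
          _ = _ := by ring
      calc T ≤ M₁ * (b ^ 2 * N ^ ((r - 1) / ((d + 1) * (p - 1)))) ^ (d + 1) := by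
            rw [hT]
            gcongr
        _ = _ := by rw [mul_pow, ← pow_mul]; ring
    calc T ^ (p - 1) ≤ (M₁ * b ^ (2 * (d + 1)) * (N ^ ((r - 1) / ((d + 1) * (p - 1)))) ^ (d + 1)) ^ (p - 1) :=
          Real.rpow_le_rpow hT0 h1 hp1.le
      _ = F * N ^ (r - 1) := by
          rw [Real.mul_rpow (by positivity) (by positivity), ← hF, ← Real.rpow_natCast _ (d + 1),
            ← Real.rpow_mul hN0.le, ← Real.rpow_mul hN0.le]
          congr 2
          push_cast
          have : p - 1 ≠ 0 := hp1.ne'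
          field_simp
  have h2 : ∫⁻ y, Fb N ω f a y ^ p ≤ ENNReal.ofReal (E * (c * N ^ (d * p + 1 : ℝ)) * 1 ^ p) := by
    calc ∫⁻ y, Fb N ω f a y ^ p ≤ ∫⁻ y, Fb (b * N) ω f x y ^ p :=
          lintegral_mono fun y => ENNReal.rpow_le_rpow (Fb_blur hN hR hf hax y) hp0.le
      _ ≤ ∫⁻ y, (2:ℝ≥0∞) ^ (p - 1) * (Gs (b * N) ω f S x y ^ p + Gs (b * N) ω f Sᶜ x y ^ p) := by
          refine lintegral_mono fun y => ?_
          rw [Fb_split (b * N) ω f S x y]
          exact two_pow hp.le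
      _ = (2:ℝ≥0∞) ^ (p - 1) * ((∫⁻ y, Gs (b * N) ω f S x y ^ p) + (∫⁻ y, Gs (b * N) ω f Sᶜ x y ^ p)) := by
          rw [lintegral_const_mul' _ _ (ENNReal.rpow_ne_top_of_nonneg (by linarith) (by norm_num)),
            lintegral_add_left ((Gs_meas (b * N) ω f hSm x).pow_const p)]
      _ ≤ (2:ℝ≥0∞) ^ (p - 1) * (ENNReal.ofReal (T ^ (p - 1) * (c * (b * N) ^ (d + 2))) +
            ENNReal.ofReal (D * M ^ (p - 1) * b ^ (d * p + 1 : ℝ) * (c * N ^ (d * p + 1 : ℝ)))) :=
          mul_le_mul' le_rfl (add_le_add hfar2 hnear2)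
      _ ≤ (2:ℝ≥0∞) ^ (p - 1) * ENNReal.ofReal ((D * M ^ (p - 1) * b ^ (d * p + 1 : ℝ) + F * b ^ (d + 2)) *
            (c * N ^ (d * p + 1 : ℝ))) := by
          refine mul_le_mul' le_rfl ?_
          rw [← ENNReal.ofReal_add (by positivity) (by positivity)]
          apply ENNReal.ofReal_le_ofReal
          have h3 : N ^ (r - 1) * N ^ (d + 2) = N ^ (d * p + 1 : ℝ) := by
            rw [← Real.rpow_natCast N (d + 2), ← Real.rpow_add hN0]
            congr 1
            rw [hr]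
            push_cast
            ring
          have h4 : T ^ (p - 1) * (c * (b * N) ^ (d + 2)) ≤ F * b ^ (d + 2) * (c * N ^ (d * p + 1 : ℝ)) := by
            calc T ^ (p - 1) * (c * (b * N) ^ (d + 2)) ≤ (F * N ^ (r - 1)) * (c * (b * N) ^ (d + 2)) := by
                  gcongr
              _ = F * b ^ (d + 2) * (c * (N ^ (r - 1) * N ^ (d + 2))) := by rw [mul_pow]; ring
              _ = _ := by rw [h3]
          linarith
      _ = _ := by
          have e : (2:ℝ≥0∞) = ENNReal.ofReal 2 := by simp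
          rw [e, ENNReal.ofReal_rpow_of_pos two_pos, ← ENNReal.ofReal_mul (by positivity)]
          congr 1
          rw [Real.one_rpow, hE]
          ring
  have h3 := iq_of (C := 1 + Z) (B := 1) (E := E) (κ := κ) hE0.le hκ hN hp.le zero_le_one (by positivity) hf
    hcard a h2 (by
      calc Z ≤ 1 + Z := by linarith
        _ = (1 + Z) ^ (1:ℝ) := (Real.rpow_one _).symm
        _ ≤ (1 + Z) ^ p := Real.rpow_le_rpow_of_exponent_le (by linarith) hp.le)
  rw [mul_one] at h3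
  exact h3

end Pool.Agent.U912.Few
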