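import Pool.Agent.U912.Few.Cover

set_option autoImplicit false

/-! The inequality for centres in a sparse lattice gives the inequality for all centres, `p < n/(n-1)`. -/

open MeasureTheory Set Filter Topology ENNReal NNReal Metric

namespace Pool.Agent.U912.Few

open Pool.Agent.H810R3.Tub Pool.Agent.R251.Nec

variable {d : ℕ}

/-- The lattice `h ℤ^(d+1)`. -/
def Lat (d : ℕ) (h : ℝ) : Set (Space d) :=
  {a | (∀ j, ∃ z : ℤ, a.fst j = h * z) ∧ ∃ z : ℤ, a.snd = h * z}

/-- Rounding to the lattice. -/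
theorem exists_lat {h : ℝ} (hh : 0 < h) (c : Space d) : ∃ c' ∈ Lat d h, ‖c - c'‖ ≤ (d + 1) * h := by
  refine ⟨WithLp.toLp 2 (WithLp.toLp 2 (fun j => h * (⌊c.fst j / h⌋ : ℤ)), h * (⌊c.snd / h⌋ : ℤ)), ?_, ?_⟩
  · exact ⟨fun j => ⟨_, rfl⟩, ⟨_, rfl⟩⟩
  · set c' : Space d := WithLp.toLp 2 (WithLp.toLp 2 (fun j => h * (⌊c.fst j / h⌋ : ℤ)),
      h * (⌊c.snd / h⌋ : ℤ)) with hc'
    have key : ∀ x : ℝ, |x - h * (⌊x / h⌋ : ℤ)| ≤ h := by
      intro x
      have h1 := Int.floor_le (x / h)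
      have h2 := Int.lt_floor_add_one (x / h)
      have e : x = h * (x / h) := by field_simp
      rw [abs_le]
      constructor
      · have h3 : h * (⌊x / h⌋ : ℤ) ≤ h * (x / h) := mul_le_mul_of_nonneg_left h1 hh.le
        linarith
      · have h4 : h * (x / h) ≤ h * ((⌊x / h⌋ : ℤ) + 1) := mul_le_mul_of_nonneg_left h2.le hh.le
        linarith
    have hd0 : (0:ℝ) ≤ d := Nat.cast_nonneg d
    apply le_of_sq_le_sq _ (by positivity)
    rw [norm_space_sq]
    have h1 : ‖(c - c').fst‖ ^ 2 ≤ d * h ^ 2 := by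
      rw [EuclideanSpace.norm_eq, Real.sq_sqrt (Finset.sum_nonneg fun _ _ => by positivity)]
      calc ∑ j, ‖(c - c').fst j‖ ^ 2 ≤ ∑ _j : Fin d, h ^ 2 := by
            refine Finset.sum_le_sum fun j _ => ?_
            have e : (c - c').fst j = c.fst j - h * (⌊c.fst j / h⌋ : ℤ) := rfl
            rw [e, Real.norm_eq_abs]
            exact pow_le_pow_left₀ (abs_nonneg _) (key _) 2
        _ = d * h ^ 2 := by rw [Finset.sum_const, Finset.card_univ, Fintype.card_fin, nsmul_eq_mul]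
    have h2 : (c - c').snd ^ 2 ≤ h ^ 2 := by
      have e : (c - c').snd = c.snd - h * (⌊c.snd / h⌋ : ℤ) := rfl
      rw [e, ← sq_abs]
      exact pow_le_pow_left₀ (abs_nonneg _) (key _) 2
    nlinarith [mul_nonneg hd0 (sq_nonneg h), mul_nonneg (mul_nonneg hd0 hd0) (sq_nonneg h)]

/-- Lower bound for the centred family by Hölder's inequality. -/
theorem low2 {ι : Type} [Fintype ι] {N κ : ℝ} (hN : 1 ≤ N) (hκ : 0 < κ) {ω : ι → Vec d} {f : ι → Fin d → Space d}
    (hf : ∀ i, Orthonormal ℝ (Fin.cons (nor (ω i)) (f i) : Fin (d + 1) → Space d)) {p : ℝ} (hp : 1 ≤ p)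
    (hcard : κ * N ^ d ≤ (Fintype.card ι : ℝ)) :
    ENNReal.ofReal ((Fintype.card ι : ℝ) * N ^ (d + 2) * (κ / ((1 + d) ^ (d + 1) * wv d)) ^ (p - 1)) ≤
      ∫⁻ y, Fb N ω f (fun _ => 0) y ^ p := by
  have hN0 : 0 < N := by linarith
  have hp0 : 0 < p := by linarith
  have hw := wv_pos d
  set c : ℝ := (Fintype.card ι : ℝ) with hc
  have hc0 : 0 < c := lt_of_lt_of_le (by positivity) hcard
  set b : ℝ := (1 + d) ^ (d + 1) * wv d with hb
  have hb0 : 0 < b := by positivity
  have hwe : volume (ball (0 : Space d) 1) = ENNReal.ofReal (wv d) := by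
    rw [wv, ENNReal.ofReal_toReal measure_ball_lt_top.ne]
  have hBv : volume (closedBall (0 : Space d) ((1 + d) * N ^ 2)) = ENNReal.ofReal (b * N ^ (2 * (d + 1))) := by
    have : Nontrivial (Space d) := by
      apply Module.nontrivial_of_finrank_pos (R := ℝ)
      rw [finrank_space]
      omega
    rw [Measure.addHaar_closedBall _ _ (by positivity), finrank_space, hwe,
      ← ENNReal.ofReal_mul (by positivity)]
    congr 1
    rw [hb, mul_pow, ← pow_mul]
    ring
  have h1 := lower (μ := (volume : Measure (Space d))) (Fb_measurable N ω f (fun _ => 0))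
    (B := closedBall (0 : Space d) ((1 + d) * N ^ 2)) measurableSet_closedBall (by
      intro y hy
      unfold Fb
      apply Finset.sum_eq_zero
      intro i _
      exact indicator_of_notMem (fun hm => hy (box_sub_ball hN (hf i) hm)) _) hp
  rw [Fb_int hN hf, hBv, ENNReal.ofReal_rpow_of_pos (by positivity),
    ENNReal.ofReal_rpow_of_pos (by positivity)] at h1
  have hX : 0 < (b * N ^ (2 * (d + 1))) ^ (p - 1) := by positivity
  rw [← ENNReal.div_le_iff_le_mul (Or.inl (by simpa using hX)) (Or.inl ENNReal.ofReal_ne_top),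
    ← ENNReal.ofReal_div_of_pos hX] at h1
  refine le_trans (ENNReal.ofReal_le_ofReal ?_) h1
  rw [le_div_iff₀ hX]
  have e1 : (c * N ^ (d + 2)) ^ p = c * N ^ (d + 2) * (c * N ^ (d + 2)) ^ (p - 1) := by
    rw [← Real.rpow_one_add' (by positivity) (by linarith)]
    congr 1
    ring
  rw [← hc, e1, mul_assoc (c * N ^ (d + 2)), ← Real.mul_rpow (by positivity) (by positivity)]
  apply mul_le_mul_of_nonneg_left _ (by positivity)
  apply Real.rpow_le_rpow (by positivity) _ (by linarith)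
  have e2 : κ / b * (b * N ^ (2 * (d + 1))) = (κ * N ^ d) * N ^ (d + 2) := by
    field_simp
    ring
  rw [e2]
  gcongr

theorem scale_up2 (d : ℕ) (hd : 1 ≤ d) {p : ℝ} (hp : 1 ≤ p) (hpd : d * (p - 1) < 1) {σ κ : ℝ}
    (hσ : 0 < σ) (hκ : 0 < κ) :
    ∃ C : ℝ, 1 ≤ C ∧ ∀ K N k B : ℝ, 1 ≤ K → C * K ≤ N → C * K ≤ k → 0 ≤ B →
      (∀ (ι : Type) [Fintype ι] (ω : ι → Vec d) (f : ι → Fin d → Space d) (a : ι → Space d),
        Caps 1 (1 / C) N ω f → (∀ i, a i ∈ Lat d (N ^ 2 / k)) → (∀ i, ‖a i‖ ≤ N ^ 2) →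
        Iq B N p ω f a) →
      ∀ (ι : Type) [Fintype ι] (ω : ι → Vec d) (f : ι → Fin d → Space d) (a : ι → Space d),
        Caps σ κ K ω f → Iq (C * B) K p ω f a := by
  classical
  obtain ⟨D, hD0, hD⟩ := centred d hd (σ := 1) one_pos hp hpd
  have hd0 : (0:ℝ) < d := by exact_mod_cast hd
  have hd1 : (1:ℝ) ≤ d := by exact_mod_cast hd
  have hp0 : 0 < p := by linarith
  have hw := wv_pos d
  set s : ℝ := min σ 1 with hs
  have hs0 : 0 < s := lt_min hσ one_pos
  have hs1 : s ≤ 1 := min_le_right _ _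
  have hsσ : s ≤ σ := min_le_left _ _
  set dd : ℝ := dl d s with hdd
  have hdd0 : 0 < dd := by rw [hdd]; unfold dl; positivity
  set k' : ℝ := κ * (s / (8 * d)) ^ d with hk'
  have hk'0 : 0 < k' := by positivity
  set E : ℝ := ((3:ℝ) ^ (d + 1)) ^ (p - 1) * (2 ^ d * (1 / dd) ^ (d + 1) * D) with hE
  have hE0 : 0 < E := by positivity
  set X : ℝ := (κ / ((1 + d) ^ (d + 1) * wv d)) ^ (p - 1) with hX
  have hX0 : 0 < X := by positivity
  set C : ℝ := 1 + 1 / k' + 2 / s + (d + 1) / dd + E / X with hC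
  have t1 : 0 < 1 / k' := by positivity
  have t2 : 0 < 2 / s := by positivity
  have t3 : 0 < (d + 1) / dd := by positivity
  have t4 : 0 < E / X := by positivity
  have hC1 : 1 ≤ C := by linarith
  have hC0 : 0 < C := by linarith
  refine ⟨C, hC1, ?_⟩
  intro K N k B hK hCN hCk hB hyp ι _ ω f a hcaps
  obtain ⟨hω, hsep, hcard, hf⟩ := hcaps
  have hK0 : 0 < K := by linarith
  have hKN : K ≤ N := by nlinarith
  have hN0 : 0 < N := by linarith
  have hN1 : 1 ≤ N := by linarith
  have hk0 : 0 < k := lt_of_lt_of_le (by positivity) hCk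
  obtain ⟨b, hb1, hb2⟩ := wrap_box hK hf a hp
  obtain ⟨m, hm, hm2, ω', f', hω', hsep', hf', hcov⟩ := fine2 hd hs0 hs1 hK (N := N) (by
      have h1 : 2 * K / s = 2 / s * K := by ring
      rw [h1]
      have h2 : 2 / s * K ≤ C * K := mul_le_mul_of_nonneg_right (by linarith) hK0.le
      linarith) hω (fun i j hij => le_trans (div_le_div_of_nonneg_right hsσ hK0.le) (hsep i j hij))
  set lam : ℝ := dd * N ^ 2 / K ^ 2 with hlam
  have hlam0 : 0 < lam := by positivity
  set one : Vec d := WithLp.toLp 2 (fun _ => (1:ℝ)) with hone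
  set ce : ι → Space d := fun i => lam • b i -
    (N ^ 2 / (16 * d)) • nor ((1 - s / (8 * K)) • ω i + (s / (8 * K) / (2 * d)) • one) with hce
  set h : ℝ := N ^ 2 / k with hh
  have hh0 : 0 < h := by positivity
  have hhb : (d + 1) * h ≤ dd * N ^ 2 / K := by
    rw [hh, mul_div_assoc', div_le_div_iff₀ hk0 hK0]
    have h1 : (d + 1) / dd * K ≤ k := by
      refine le_trans ?_ hCk
      apply mul_le_mul_of_nonneg_right _ hK0.le
      linarith
    rw [div_mul_eq_mul_div, div_le_iff₀ hdd0] at h1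
    have h2 : (0:ℝ) ≤ N ^ 2 := by positivity
    calc (d + 1) * N ^ 2 * K = N ^ 2 * ((d + 1) * K) := by ring
      _ ≤ N ^ 2 * (k * dd) := mul_le_mul_of_nonneg_left h1 h2
      _ = dd * N ^ 2 * k := by ring
  have hce' : ∀ i, ce i = lam • b i -
    (N ^ 2 / (16 * d)) • nor ((1 - s / (8 * K)) • ω i + (s / (8 * K) / (2 * d)) • one) := fun i => rfl
  have hnn : ∀ u : Vec d, ‖nor u‖ = 1 := fun u => norm_dir _
  have hN2 : (0:ℝ) ≤ N ^ 2 := by positivity
  have hlat : ∀ i, ∃ c' ∈ Lat d h, ‖ce i - c'‖ ≤ (d + 1) * h := fun i => exists_lat hh0 (ce i)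
  choose cl hcl1 hcl2 using hlat
  set b' : ι × (Fin d → Fin (m + 1)) → Space d := fun x => cl x.1 with hb'
  set L : ℝ := ((m + 1 : ℕ) : ℝ) ^ d with hL
  have hL0 : 0 < L := by positivity
  have hcard' : (Fintype.card (ι × (Fin d → Fin (m + 1))) : ℝ) = Fintype.card ι * L := by
    rw [Fintype.card_prod, Fintype.card_fun, Fintype.card_fin, Fintype.card_fin, hL]
    push_cast
    ring
  have hLm : (s * N / (8 * d * K)) ^ d ≤ L := pow_le_pow_left₀ (by positivity) hm d
  have hLup : L ≤ 2 ^ d * (N / K) ^ d := by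
    rw [hL, ← mul_pow]
    apply pow_le_pow_left₀ (by positivity)
    push_cast
    have h1 : s * N / (8 * d * K) ≤ N / K := by
      rw [div_le_div_iff₀ (by positivity) hK0]
      have h2 : s ≤ 8 * d := by linarith
      calc s * N * K ≤ 8 * d * N * K := by gcongr
        _ = N * (8 * d * K) := by ring
    have h3 : 1 ≤ N / K := by rw [le_div_iff₀ hK0]; linarith
    linarith
  have hcaps' : Caps 1 (1 / C) N ω' f' := by
    refine ⟨hω', hsep', ?_, hf'⟩
    rw [hcard']
    have h1 : 1 / C ≤ k' := by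
      rw [div_le_iff₀ hC0]
      have h2 : k' * (1 / k') = 1 := by field_simp
      have h3 : k' * (1 / k') ≤ k' * C := mul_le_mul_of_nonneg_left (by linarith) hk'0.le
      linarith
    calc 1 / C * N ^ d ≤ k' * N ^ d := by gcongr
      _ = (κ * K ^ d) * (s * N / (8 * d * K)) ^ d := by
          have e9 : s * N / (8 * d * K) = s / (8 * d) * (N / K) := by field_simp
          rw [hk', e9, mul_pow, div_pow N K]
          field_simp
      _ ≤ Fintype.card ι * L := by gcongr
  have hbd : ∀ x, ‖b' x‖ ≤ N ^ 2 := by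
    intro x
    have e : b' x = ce x.1 - (ce x.1 - cl x.1) := by rw [hb']; abel
    rw [e]
    refine (norm_sub_le _ _).trans ?_
    have h1 : ‖ce x.1‖ ≤ lam * ((d + 1) * ((d + 2) * K ^ 2)) + N ^ 2 / (16 * d) := by
      rw [hce']
      refine (norm_sub_le _ _).trans ?_
      rw [norm_smul, norm_smul, Real.norm_eq_abs, Real.norm_eq_abs, abs_of_pos hlam0,
        abs_of_pos (by positivity), hnn, mul_one]
      exact add_le_add (mul_le_mul_of_nonneg_left (hb1 _) hlam0.le) le_rfl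
    have h2 : lam * ((d + 1) * ((d + 2) * K ^ 2)) ≤ N ^ 2 / 4 := by
      have e1 : lam * ((d + 1) * ((d + 2) * K ^ 2)) = s * (d + 1) / (1024 * d ^ 2) * N ^ 2 := by
        rw [hlam, hdd]
        unfold dl
        field_simp
      rw [e1]
      have h3 : s * (d + 1) / (1024 * d ^ 2) ≤ 1 / 4 := by
        rw [div_le_div_iff₀ (by positivity) (by norm_num)]
        have h4 : s * (d + 1) ≤ 1 * (d + 1) := mul_le_mul_of_nonneg_right hs1 (by linarith)
        have h5 : (d:ℝ) ≤ d ^ 2 := by nlinarith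
        linarith
      calc s * (d + 1) / (1024 * d ^ 2) * N ^ 2 ≤ 1 / 4 * N ^ 2 := by gcongr
        _ = N ^ 2 / 4 := by ring
    have h6 : N ^ 2 / (16 * d) ≤ N ^ 2 / 4 := by
      apply div_le_div_of_nonneg_left (by positivity) (by norm_num)
      linarith
    have h7 : dd * N ^ 2 / K ≤ N ^ 2 / 4 := by
      have h8 : dd ≤ 1 / 4 := by
        rw [hdd]
        unfold dl
        rw [div_le_div_iff₀ (by positivity) (by norm_num)]
        have h5 : (1:ℝ) ≤ d ^ 2 := one_le_pow₀ hd1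
        have h10 : (1:ℝ) * 1 ≤ d ^ 2 * (d + 2) := mul_le_mul h5 (by linarith) (by norm_num) (by linarith)
        linarith
      calc dd * N ^ 2 / K ≤ 1 / 4 * N ^ 2 / 1 := by gcongr
        _ = N ^ 2 / 4 := by ring
    have h9 := hcl2 x.1
    linarith
  have hI := hyp _ ω' f' b' hcaps' (fun x => hcl1 x.1) hbd
  unfold Iq at hI
  -- domination
  have hdom : ∀ y, Fb K ω f b y ≤ Fb N ω' f' b' (lam • y) := by
    intro y
    unfold Fb
    rw [Fintype.sum_prod_type]
    refine Finset.sum_le_sum fun i _ => ?_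
    by_cases hy : y ∈ box K (nor (ω i)) (f i) (b i)
    · rw [indicator_of_mem hy]
      have hw : y - b i ∈ box K (nor (ω i)) (f i) 0 := (box_sub _ _ _ _ _).1 hy
      have hη : ‖ce i - cl i‖ ≤ dl d s * N ^ 2 / K := (hcl2 i).trans hhb
      set z : Space d := lam • y - cl i with hz
      have hz2 : z = (dl d s * N ^ 2 / K ^ 2) • (y - b i) +
          (N ^ 2 / (16 * d)) • nor ((1 - s / (8 * K)) • ω i + (s / (8 * K) / (2 * d)) • one) +
          (ce i - cl i) := by
        rw [hz, hce' i, ← hdd, ← hlam, smul_sub]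
        abel
      obtain ⟨hz3, hz4, hz5⟩ := cube_point hd hs0 hs1 hK hN1 (hω i) (hf i) hw hη (one := one)
        (fun j => rfl) hz2
      obtain ⟨v, hv⟩ := hcov i _ hz5
      have hmem : lam • y ∈ box N (nor (ω' (i, v))) (f' (i, v)) (b' (i, v)) := by
        rw [box_sub]
        exact mem_box_of_close hd hN1 hz3 hz4 (hf' (i, v)) hv
      have h1 := Finset.single_le_sum (f := fun v => (box N (nor (ω' (i, v))) (f' (i, v)) (b' (i, v))).indicator
        (fun _ => (1 : ℝ≥0∞)) (lam • y)) (fun _ _ => zero_le) (Finset.mem_univ v)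
      rw [indicator_of_mem hmem] at h1
      exact h1
    · rw [indicator_of_notMem hy]
      exact zero_le
  have hD' := hD N hN1 _ ω' f' hω' hsep' hf'
  rw [hcard'] at hD'
  have hmain : ∫⁻ y, Fb K ω f b y ^ p ≤
      ENNReal.ofReal ((lam ^ (d + 1))⁻¹ * (B ^ p * (D * (Fintype.card ι * L * N ^ (d + 2))))) := by
    calc ∫⁻ y, Fb K ω f b y ^ p
        ≤ ∫⁻ y, Fb N ω' f' b' (lam • y) ^ p :=
          lintegral_mono fun y => ENNReal.rpow_le_rpow (hdom y) hp0.le
      _ = ENNReal.ofReal |(lam ^ (d + 1))⁻¹| * ∫⁻ y, Fb N ω' f' b' y ^ p := by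
          rw [lint_smul volume hlam0.ne' (fun y => Fb N ω' f' b' y ^ p), finrank_space]
      _ ≤ ENNReal.ofReal |(lam ^ (d + 1))⁻¹| * (ENNReal.ofReal B ^ p *
          ENNReal.ofReal (D * (Fintype.card ι * L * N ^ (d + 2)))) := by
          refine mul_le_mul' le_rfl (hI.trans (mul_le_mul' le_rfl ?_))
          exact hD'
      _ = _ := by
          rw [ENNReal.ofReal_rpow_of_nonneg hB hp0.le, ← ENNReal.ofReal_mul (by positivity),
            ← ENNReal.ofReal_mul (by positivity)]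
          congr 1
          rw [abs_of_pos (by positivity)]
  have hb3 : ∫⁻ y, Fb K ω f b y ^ p ≤ ENNReal.ofReal (2 ^ d * (1 / dd) ^ (d + 1) * D *
      (Fintype.card ι * K ^ (d + 2)) * B ^ p) := by
    refine hmain.trans (ENNReal.ofReal_le_ofReal ?_)
    have e1 : (lam ^ (d + 1))⁻¹ = (1 / dd) ^ (d + 1) * K ^ (2 * (d + 1)) / N ^ (2 * (d + 1)) := by
      rw [hlam, div_pow, mul_pow, inv_div, ← pow_mul, ← pow_mul, one_div, inv_pow]
      field_simp
    rw [e1]
    calc (1 / dd) ^ (d + 1) * K ^ (2 * (d + 1)) / N ^ (2 * (d + 1)) *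
          (B ^ p * (D * (Fintype.card ι * L * N ^ (d + 2))))
        ≤ (1 / dd) ^ (d + 1) * K ^ (2 * (d + 1)) / N ^ (2 * (d + 1)) *
          (B ^ p * (D * (Fintype.card ι * (2 ^ d * (N / K) ^ d) * N ^ (d + 2)))) := by gcongr
      _ = 2 ^ d * (1 / dd) ^ (d + 1) * D * (Fintype.card ι * K ^ (d + 2)) * B ^ p := by
          rw [div_pow N K]
          generalize (1 / dd) ^ (d + 1) = Y
          have e2 : K ^ (2 * (d + 1)) = K ^ (d + 2) * K ^ d := by ring
          have e3 : N ^ (2 * (d + 1)) = N ^ (d + 2) * N ^ d := by ring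
          rw [e2, e3]
          have h1 : K ^ d ≠ 0 := by positivity
          have h2 : N ^ d ≠ 0 := by positivity
          have h3 : N ^ (d + 2) ≠ 0 := by positivity
          generalize K ^ (d + 2) = A1
          generalize N ^ (d + 2) = A2 at *
          generalize K ^ d = A3 at *
          generalize N ^ d = A4 at *
          field_simp
  have hlow := low2 (p := p) hK hκ hf hp hcard
  unfold Iq
  refine hb2.trans ((mul_le_mul' le_rfl hb3).trans ?_)
  refine le_trans ?_ (mul_le_mul' le_rfl hlow)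
  rw [← ENNReal.ofReal_mul (by positivity), ENNReal.ofReal_rpow_of_nonneg (by positivity) hp0.le,
    ← ENNReal.ofReal_mul (by positivity)]
  apply ENNReal.ofReal_le_ofReal
  rw [← hX, Real.mul_rpow hC0.le hB]
  have hCp : E / X ≤ C ^ p := by
    calc E / X ≤ C := by linarith
      _ = C ^ (1:ℝ) := (Real.rpow_one C).symm
      _ ≤ C ^ p := Real.rpow_le_rpow_of_exponent_le hC1 hp
  rw [div_le_iff₀ hX0] at hCp
  calc ((3:ℝ) ^ (d + 1)) ^ (p - 1) * (2 ^ d * (1 / dd) ^ (d + 1) * D * (Fintype.card ι * K ^ (d + 2)) * B ^ p)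
      = E * (Fintype.card ι * K ^ (d + 2) * B ^ p) := by rw [hE]; ring
    _ ≤ (C ^ p * X) * (Fintype.card ι * K ^ (d + 2) * B ^ p) := by gcongr
    _ = _ := by ring

end Pool.Agent.U912.Few
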