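import Pool.Agent.U912.Few.Lat
import Pool.Agent.U912.Few.Up2

set_option autoImplicit false

/-! The question for centres in a sparse lattice. -/

open MeasureTheory Set Filter Topology ENNReal NNReal Metric

namespace Pool.Agent.U912.Few

open Pool.Agent.H810R3.Tub Pool.Agent.R251.Nec

variable {d : ℕ}

/-- From one exponent below the critical one to all exponents. -/
theorem all_p2 (d : ℕ) (hd : 1 ≤ d) {σ κ : ℝ} (hσ : 0 < σ) (hκ : 0 < κ) {q : ℝ} (hq : 1 < q)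
    (hqd : d * (q - 1) < 1) :
    ∃ C : ℝ, 1 ≤ C ∧ ∀ K G : ℝ, 1 ≤ K → 1 ≤ G → ∀ (ι : Type) [Fintype ι] (ω : ι → Vec d)
      (f : ι → Fin d → Space d) (a : ι → Space d), Caps σ κ K ω f → Iq G K q ω f a →
      ∀ p : ℝ≥0∞, 1 ≤ p → Iqp (C * G * K ^ (1 - d * (q - 1) : ℝ)) K p ω f a := by
  obtain ⟨D, hD0, hD⟩ := centred d hd hσ hq.le hqd
  have hd0 : (0:ℝ) < d := by exact_mod_cast hd
  have hq0 : 0 < q := by linarith
  have hw := wv_pos d
  set b : ℝ := (1 + (d : ℝ)) ^ (d + 1) * wv d with hb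
  have hb0 : 0 < b := by positivity
  set X₁ : ℝ := D * b ^ (q - 1) * κ ^ (1 - q) with hX₁
  set X₂ : ℝ := D * κ ^ (1 - q) * (2 ^ (d + 1) / wv d) with hX₂
  have hX₁0 : 0 < X₁ := by positivity
  have hX₂0 : 0 < X₂ := by positivity
  refine ⟨1 + X₁ + X₂, by linarith, ?_⟩
  intro K G hK hG ι _ ω f a hcaps hI p hp
  haveI := nonempty_of_caps hκ hK hcaps
  obtain ⟨hω, hsep, hcard, hf⟩ := hcaps
  have hK0 : 0 < K := by linarith
  have hG0 : 0 < G := by linarith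
  set η : ℝ := 1 - d * (q - 1) with hη
  have hη0 : 0 < η := by linarith
  set C : ℝ := 1 + X₁ + X₂ with hC
  have hC1 : 1 ≤ C := by linarith
  set c : ℝ := (Fintype.card ι : ℝ) with hc
  have hc0 : 0 < c := lt_of_lt_of_le (by positivity) hcard
  have hKη : 1 ≤ K ^ η := Real.one_le_rpow hK hη0.le
  have hb1 := hD K hK ι ω f hω hsep hf
  set Q : ℝ := G ^ q * (D * (c * K ^ (d + 2))) with hQ
  have hQ0 : 0 < Q := by positivity
  have hQi : ∫⁻ y, Fb K ω f a y ^ q ≤ ENNReal.ofReal Q := by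
    refine hI.trans ((mul_le_mul' le_rfl hb1).trans (le_of_eq ?_))
    rw [ENNReal.ofReal_rpow_of_pos hG0, ← ENNReal.ofReal_mul (by positivity)]
  have hDq : C * G ^ q * K ^ η ≤ (C * G * K ^ η) ^ q := by
    rw [Real.mul_rpow (by positivity) (by positivity), Real.mul_rpow (by linarith) hG0.le]
    have h1 : C ≤ C ^ q := by
      calc C = C ^ (1:ℝ) := (Real.rpow_one C).symm
        _ ≤ C ^ q := Real.rpow_le_rpow_of_exponent_le hC1 hq.le
    have h2 : K ^ η ≤ (K ^ η) ^ q := by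
      calc K ^ η = (K ^ η) ^ (1:ℝ) := (Real.rpow_one _).symm
        _ ≤ (K ^ η) ^ q := Real.rpow_le_rpow_of_exponent_le hKη hq.le
    gcongr
  have hcq : c ^ q = c * c ^ (q - 1) := by
    rw [← Real.rpow_one_add' hc0.le (by linarith)]
    congr 1
    ring
  have hcq2 : K ^ (d * (q - 1) : ℝ) ≤ κ ^ (1 - q) * c ^ (q - 1) := by
    have h2 : (κ * K ^ d) ^ (q - 1) ≤ c ^ (q - 1) :=
      Real.rpow_le_rpow (by positivity) hcard (by linarith)
    rw [Real.mul_rpow hκ.le (by positivity), ← Real.rpow_natCast K d, ← Real.rpow_mul hK0.le] at h2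
    have h5 : κ ^ (1 - q) * κ ^ (q - 1) = 1 := by
      rw [← Real.rpow_add hκ]
      norm_num
    have h6 : 0 ≤ κ ^ (1 - q) := by positivity
    calc K ^ (d * (q - 1) : ℝ) = κ ^ (1 - q) * (κ ^ (q - 1) * K ^ (d * (q - 1) : ℝ)) := by
          rw [← mul_assoc, h5, one_mul]
      _ ≤ κ ^ (1 - q) * c ^ (q - 1) := mul_le_mul_of_nonneg_left h2 h6
  refine compare d hK hq hQ0 (D := C * G * K ^ η) ?_ ω f hf a hQi ?_ ?_ p hp
  · have h1 : 1 ≤ C * G := by nlinarith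
    nlinarith
  · have e1 : ((1 + (d : ℝ)) ^ (d + 1) * wv d * K ^ (2 * (d + 1))) ^ (q - 1) =
        b ^ (q - 1) * K ^ ((2 * (d + 1) : ℝ) * (q - 1)) := by
      rw [← hb, Real.mul_rpow hb0.le (by positivity), ← Real.rpow_natCast K (2 * (d + 1)),
        ← Real.rpow_mul hK0.le]
      congr 3
      push_cast
      ring
    have e2 : (c * K ^ (d + 2)) ^ q = c ^ q * K ^ ((d + 2 : ℝ) * q) := by
      rw [Real.mul_rpow hc0.le (by positivity), ← Real.rpow_natCast K (d + 2), ← Real.rpow_mul hK0.le]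
      congr 2
      push_cast
      ring
    have e3 : K ^ (d + 2) * K ^ ((2 * (d + 1) : ℝ) * (q - 1)) =
        K ^ (d * (q - 1) : ℝ) * K ^ ((d + 2 : ℝ) * q) := by
      rw [← Real.rpow_natCast K (d + 2), ← Real.rpow_add hK0, ← Real.rpow_add hK0]
      congr 1
      push_cast
      ring
    rw [e1, e2]
    calc Q * (b ^ (q - 1) * K ^ ((2 * (d + 1) : ℝ) * (q - 1)))
        = (G ^ q * D * b ^ (q - 1) * c) * (K ^ (d + 2) * K ^ ((2 * (d + 1) : ℝ) * (q - 1))) := by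
          rw [hQ]
          ring
      _ = (G ^ q * D * b ^ (q - 1) * c) * K ^ ((d + 2 : ℝ) * q) * K ^ (d * (q - 1) : ℝ) := by
          rw [e3]
          ring
      _ ≤ (G ^ q * D * b ^ (q - 1) * c) * K ^ ((d + 2 : ℝ) * q) * (κ ^ (1 - q) * c ^ (q - 1)) := by
          gcongr
      _ = (X₁ * G ^ q * 1) * (c ^ q * K ^ ((d + 2 : ℝ) * q)) := by
          rw [hX₁, hcq]
          ring
      _ ≤ (C * G ^ q * K ^ η) * (c ^ q * K ^ ((d + 2 : ℝ) * q)) := by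
          have : X₁ ≤ C := by linarith
          gcongr
      _ ≤ (C * G * K ^ η) ^ q * (c ^ q * K ^ ((d + 2 : ℝ) * q)) :=
          mul_le_mul_of_nonneg_right hDq (by positivity)
  · have e3 : K ^ (d + 2) = K ^ (d * (q - 1) : ℝ) * (K ^ η * K ^ (d + 1)) := by
      rw [← Real.rpow_natCast K (d + 1), ← Real.rpow_natCast K (d + 2), ← Real.rpow_add hK0,
        ← Real.rpow_add hK0]
      congr 1
      rw [hη]
      push_cast
      ring
    calc Q = (G ^ q * D * c * (K ^ η * K ^ (d + 1))) * K ^ (d * (q - 1) : ℝ) := by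
          rw [hQ, e3]
          ring
      _ ≤ (G ^ q * D * c * (K ^ η * K ^ (d + 1))) * (κ ^ (1 - q) * c ^ (q - 1)) := by gcongr
      _ = (X₂ * G ^ q * K ^ η) * (c ^ q * ((K / 2) ^ (d + 1) * wv d)) := by
          rw [hX₂, hcq, div_pow]
          field_simp
      _ ≤ (C * G ^ q * K ^ η) * (c ^ q * ((K / 2) ^ (d + 1) * wv d)) := by
          have : X₂ ≤ C := by linarith
          gcongr
      _ ≤ (C * G * K ^ η) ^ q * (c ^ q * ((K / 2) ^ (d + 1) * wv d)) :=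
          mul_le_mul_of_nonneg_right hDq (by positivity)

/-- loss `N^ε`, centres in the lattice of mesh `N^(2-c)` -/
def LatEps (d : ℕ) (p c ε : ℝ) : Prop :=
  ∀ σ κ : ℝ, 0 < σ → 0 < κ → ∃ C : ℝ, 0 < C ∧ ∀ N : ℝ, 1 ≤ N →
    ∀ (ι : Type) [Fintype ι] (ω : ι → Vec d) (f : ι → Fin d → Space d) (a : ι → Space d),
      Caps σ κ N ω f → (∀ i, a i ∈ Lat d (N ^ (2 - c))) → (∀ i, ‖a i‖ ≤ N ^ 2) →
      Iqp (C * N ^ ε) N (ENNReal.ofReal p) ω f a

/-- loss `k^α`, centres in the lattice of mesh `N²/k` -/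
def LatNear (d : ℕ) (p α : ℝ) (U : Set ℝ) (φ : ℝ → ℝ) : Prop :=
  ∀ σ κ : ℝ, 0 < σ → 0 < κ → ∃ C : ℝ, 0 < C ∧ ∀ N ∈ U, 1 ≤ N → ∀ k : ℝ, 1 ≤ k → k ≤ φ N →
    ∀ (ι : Type) [Fintype ι] (ω : ι → Vec d) (f : ι → Fin d → Space d) (a : ι → Space d),
      Caps σ κ N ω f → (∀ i, a i ∈ Lat d (N ^ 2 / k)) → (∀ i, ‖a i‖ ≤ N ^ 2) →
      Iqp (C * k ^ α) N (ENNReal.ofReal p) ω f a

theorem q1_of_lat (d : ℕ) (hd : 1 ≤ d) {c : ℝ} (hc0 : 0 < c) (hc1 : c ≤ 1)
    (h : ∀ p : ℝ, 1 < p → p < ((d : ℝ) + 1) / d → ∀ ε : ℝ, 0 < ε → LatEps d p c ε) : Q1 d := by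
  intro ε σ κ hε hσ hκ
  have hd0 : (0:ℝ) < d := by exact_mod_cast hd
  set η : ℝ := min (ε / 2) (1 / 2) with hη
  have hη0 : 0 < η := lt_min (by positivity) (by norm_num)
  have hη1 : η ≤ 1 / 2 := min_le_right _ _
  have hηε : η ≤ ε / 2 := min_le_left _ _
  set q : ℝ := 1 + (1 - η) / d with hq
  have hq1 : 1 < q := by
    have : 0 < (1 - η) / d := div_pos (by linarith) hd0
    linarith
  have hqd' : d * (q - 1) = 1 - η := by
    rw [hq]
    field_simp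
    ring
  have hqd : d * (q - 1) < 1 := by linarith
  have hq0 : 0 < q := by linarith
  have hqp : q < ((d : ℝ) + 1) / d := by
    rw [lt_div_iff₀ hd0]
    linarith
  obtain ⟨C₀, hC₀, hup⟩ := scale_up2 d hd hq1.le hqd hσ hκ
  obtain ⟨C₂, hC₂, hall⟩ := all_p2 d hd hσ hκ hq1 hqd
  set ε₁ : ℝ := c * (ε / 2) with hε₁
  have hε₁0 : 0 < ε₁ := by positivity
  obtain ⟨C₁, hC₁, hlat⟩ := h q hq1 hqp ε₁ hε₁0 1 (1 / C₀) one_pos (by positivity)
  have hC₀0 : 0 < C₀ := by linarith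
  set G₀ : ℝ := C₀ * ((1 + C₁) * C₀ ^ (ε / 2)) with hG₀
  have hCe : 1 ≤ C₀ ^ (ε / 2) := Real.one_le_rpow hC₀ (by positivity)
  have hG₀1 : 1 ≤ G₀ := by
    have h1 : 1 ≤ (1 + C₁) * C₀ ^ (ε / 2) := by nlinarith
    nlinarith
  refine ⟨C₂ * G₀, by positivity, ?_⟩
  intro K hK ι _ ω f a hcaps p hp
  have hK0 : 0 < K := by linarith
  set k : ℝ := C₀ * K with hk
  have hk1 : 1 ≤ k := by nlinarith
  have hk0 : 0 < k := by linarith
  set N : ℝ := k ^ (1 / c) with hN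
  have hNc : N ^ c = k := by
    rw [hN, ← Real.rpow_mul hk0.le, one_div_mul_cancel hc0.ne', Real.rpow_one]
  have hkN : k ≤ N := by
    calc k = k ^ (1:ℝ) := (Real.rpow_one k).symm
      _ ≤ k ^ (1 / c) := Real.rpow_le_rpow_of_exponent_le hk1 (by rw [le_div_iff₀ hc0]; linarith)
  have hN1 : 1 ≤ N := hk1.trans hkN
  have hN0 : 0 < N := by linarith
  have hmesh : N ^ 2 / k = N ^ (2 - c) := by
    rw [Real.rpow_sub hN0, hNc]
    congr 1
    norm_num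
  set B : ℝ := (1 + C₁) * k ^ (ε / 2) with hB
  have hB0 : 0 ≤ B := by positivity
  have hI := hup K N k B hK hkN le_rfl hB0 (by
    intro ι' _ ω' f' a' hcaps' hl' hn'
    rw [hmesh] at hl'
    have h1 := hlat N hN1 ι' ω' f' a' hcaps' hl' hn'
    rw [iqp_iff _ _ _ _ _ hq0] at h1
    refine iq_mono hq0.le h1 ?_
    have h2 : N ^ ε₁ = k ^ (ε / 2) := by
      rw [hε₁, Real.rpow_mul hN0.le, hNc]
    rw [hB, h2]
    have h3 : C₁ ≤ 1 + C₁ := by linarith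
    gcongr) ι ω f a hcaps
  have hCB : C₀ * B = G₀ * K ^ (ε / 2) := by
    rw [hB, hG₀, hk, Real.mul_rpow hC₀0.le hK0.le]
    ring
  rw [hCB] at hI
  have hKe1 : 1 ≤ K ^ (ε / 2) := Real.one_le_rpow hK (by positivity)
  have h2 := hall K (G₀ * K ^ (ε / 2)) hK (by nlinarith) ι ω f a hcaps hI p hp
  refine iqp_mono h2 ?_
  rw [hqd']
  have h4 : K ^ (1 - (1 - η)) ≤ K ^ (ε / 2) := Real.rpow_le_rpow_of_exponent_le hK (by linarith)
  have h3 : C₂ * (G₀ * K ^ (ε / 2)) * K ^ (ε / 2) = C₂ * G₀ * K ^ ε := by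
    have : K ^ ε = K ^ (ε / 2) * K ^ (ε / 2) := by
      rw [← Real.rpow_add hK0]
      congr 1
      ring
    rw [this]
    ring
  rw [← h3]
  gcongr

theorem all_of_lat (d : ℕ) (hd : 1 ≤ d) {U : Set ℝ} (hU : ¬ BddAbove U) {φ : ℝ → ℝ}
    (hφ : Tendsto φ atTop atTop) {p α : ℝ} (hp : 1 ≤ p)
    (hpd : p < ((d : ℝ) + 1) / d) (hα : 0 ≤ α) (h : LatNear d p α U φ) : LossAll d p α := by
  intro σ κ hσ hκ
  have hd0 : (0:ℝ) < d := by exact_mod_cast hd
  have hp0 : 0 < p := by linarith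
  have hpd' : d * (p - 1) < 1 := by
    rw [lt_div_iff₀ hd0] at hpd
    linarith
  obtain ⟨C₀, hC₀, hup⟩ := scale_up2 d hd hp hpd' hσ hκ
  obtain ⟨C₁, hC₁, hlat⟩ := h 1 (1 / C₀) one_pos (by positivity)
  have hC₀0 : 0 < C₀ := by linarith
  refine ⟨C₀ * (C₁ * C₀ ^ α), by positivity, ?_⟩
  intro K hK ι _ ω f a hcaps
  have hK0 : 0 < K := by linarith
  obtain ⟨N, hNU, hN1, -, hN3⟩ := good_scale hU hφ tendsto_id (C₀ * K) 0 (C₀ * K)
  have hk1 : 1 ≤ C₀ * K := by nlinarith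
  have hN : 1 ≤ N := by linarith
  set B : ℝ := C₁ * (C₀ * K) ^ α with hB
  have hB0 : 0 ≤ B := by positivity
  have hI := hup K N (C₀ * K) B hK hN3 le_rfl hB0 (by
    intro ι' _ ω' f' a' hcaps' hl' hn'
    have h1 := hlat N hNU hN (C₀ * K) hk1 hN1 ι' ω' f' a' hcaps' hl' hn'
    rw [iqp_iff _ _ _ _ _ hp0] at h1
    exact h1) ι ω f a hcaps
  have hCB : C₀ * B = C₀ * (C₁ * C₀ ^ α) * K ^ α := by
    rw [hB, Real.mul_rpow hC₀0.le hK0.le]
    ring
  rw [hCB] at hI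
  rw [iqp_iff _ _ _ _ _ hp0]
  exact hI

end Pool.Agent.U912.Few

namespace Pool.Agent.U912.Few

open Pool.Agent.H810R3.Tub Pool.Agent.R251.Nec

/-- Different points of the lattice are separated. -/
theorem lat_sep {d : ℕ} {h : ℝ} (hh : 0 < h) {a b : Space d} (ha : a ∈ Lat d h) (hb : b ∈ Lat d h) :
    a = b ∨ h ≤ ‖a - b‖ := by
  by_cases hab : a = b
  · exact Or.inl hab
  right
  have key : ∀ x y : ℝ, (∃ z : ℤ, x = h * z) → (∃ z : ℤ, y = h * z) → x ≠ y → h ≤ |x - y| := by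
    rintro _ _ ⟨z, rfl⟩ ⟨w, rfl⟩ hne
    rw [← mul_sub, abs_mul, abs_of_pos hh]
    have h1 : z - w ≠ 0 := by
      intro h2
      apply hne
      rw [sub_eq_zero.1 h2]
    have h2 : (1:ℝ) ≤ |((z:ℝ) - w)| := by exact_mod_cast Int.one_le_abs h1
    nlinarith
  by_cases h2 : a.snd = b.snd
  · have h3 : a.fst ≠ b.fst := by
      intro h4
      apply hab
      exact (WithLp.ofLp_injective 2) (Prod.ext h4 h2)
    have h4 : ∃ j, a.fst j ≠ b.fst j := by
      by_contra hcon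
      push Not at hcon
      apply h3
      ext j
      exact hcon j
    obtain ⟨j, hj⟩ := h4
    have h5 := key _ _ (ha.1 j) (hb.1 j) hj
    have h6 : ‖(a - b).fst j‖ ≤ ‖(a - b).fst‖ := PiLp.norm_apply_le _ j
    have h7 := norm_fst_le (a - b)
    have e : (a - b).fst j = a.fst j - b.fst j := rfl
    rw [e, Real.norm_eq_abs] at h6
    linarith
  · have h5 := key _ _ ha.2 hb.2 h2
    have h7 := abs_snd_le (a - b)
    have e : (a - b).snd = a.snd - b.snd := rfl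
    rw [e] at h7
    linarith

end Pool.Agent.U912.Few
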