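import Pool.Agent.U912.Few.Down

set_option autoImplicit false

/-! The question for few clustered positions. -/

open MeasureTheory Set Filter Topology ENNReal NNReal Metric

namespace Pool.Agent.U912.Few

open Pool.Agent.H810R3.Tub Pool.Agent.R251.Nec

variable {d : ℕ}

/-- the inequality with the constant `C` -/
def Iqp {d : ℕ} {ι : Type} [Fintype ι] (C N : ℝ) (p : ℝ≥0∞) (ω : ι → Vec d)
    (f : ι → Fin d → Space d) (a : ι → Space d) : Prop :=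
  eLpNorm (fun y : Space d => ∑ i, (box N (nor (ω i)) (f i) (a i)).indicator (fun _ => (1 : ℝ)) y) p volume
    ≤ ENNReal.ofReal C *
    eLpNorm (fun y : Space d => ∑ i, (box N (nor (ω i)) (f i) 0).indicator (fun _ => (1 : ℝ)) y) p volume

theorem iqp_iff {ι : Type} [Fintype ι] (C N : ℝ) (ω : ι → Vec d)
    (f : ι → Fin d → Space d) (a : ι → Space d) {p : ℝ} (hp : 0 < p) :
    Iqp C N (ENNReal.ofReal p) ω f a ↔ Iq C N p ω f a := iq_iff C N ω f a hp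

theorem iqp_mono {ι : Type} [Fintype ι] {C C' N : ℝ} {p : ℝ≥0∞} {ω : ι → Vec d}
    {f : ι → Fin d → Space d} {a : ι → Space d} (h : Iqp C N p ω f a) (hC : C ≤ C') :
    Iqp C' N p ω f a :=
  h.trans (mul_le_mul' (ENNReal.ofReal_le_ofReal hC) le_rfl)

theorem iq_mono {ι : Type} [Fintype ι] {C C' N p : ℝ} (hp : 0 ≤ p) {ω : ι → Vec d}
    {f : ι → Fin d → Space d} {a : ι → Space d} (h : Iq C N p ω f a) (hC : C ≤ C') :
    Iq C' N p ω f a :=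
  h.trans (mul_le_mul' (ENNReal.rpow_le_rpow (ENNReal.ofReal_le_ofReal hC) hp) le_rfl)

theorem nonempty_of_caps {ι : Type} [Fintype ι] {σ κ N : ℝ} (hκ : 0 < κ) (hN : 1 ≤ N) {ω : ι → Vec d}
    {f : ι → Fin d → Space d} (h : Caps σ κ N ω f) : Nonempty ι := by
  have h1 : (0:ℝ) < (Fintype.card ι : ℝ) := lt_of_lt_of_le (by positivity) h.2.2.1
  exact Fintype.card_pos_iff.1 (by exact_mod_cast h1)

/-- From one exponent to all exponents. -/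
theorem all_p (d : ℕ) (hd : 1 ≤ d) {σ κ : ℝ} (hσ : 0 < σ) (hκ : 0 < κ) {q : ℝ} (hq : 1 < q)
    (hqd : 1 < d * (q - 1)) :
    ∃ C : ℝ, 1 ≤ C ∧ ∀ K G : ℝ, 1 ≤ K → 1 ≤ G → ∀ (ι : Type) [Fintype ι] (ω : ι → Vec d)
      (f : ι → Fin d → Space d) (a : ι → Space d), Caps σ κ K ω f → Iq G K q ω f a →
      ∀ p : ℝ≥0∞, 1 ≤ p → Iqp (C * G * K ^ (d * q - (d + 1) : ℝ)) K p ω f a := by
  obtain ⟨D, hD0, hD⟩ := bush d hd hσ hq.le hqd
  have hd0 : (0:ℝ) < d := by exact_mod_cast hd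
  have hq0 : 0 < q := by linarith
  have hw := wv_pos d
  set b : ℝ := (1 + (d : ℝ)) ^ (d + 1) * wv d with hb
  have hb0 : 0 < b := by positivity
  set X₁ : ℝ := D * b ^ (q - 1) * κ ^ (1 - q) with hX₁
  set X₂ : ℝ := D * κ ^ (1 - q) * (2 ^ (d + 1) / wv d) with hX₂
  have hX₁0 : 0 < X₁ := by positivity
  have hX₂0 : 0 < X₂ := by positivity
  refine ⟨1 + X₁ + X₂, by linarith, ?_⟩
  intro K G hK hG ι _ ω f a hcaps hI p hp
  haveI := nonempty_of_caps hκ hK hcaps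
  obtain ⟨hω, hsep, hcard, hf⟩ := hcaps
  have hK0 : 0 < K := by linarith
  have hG0 : 0 < G := by linarith
  set η : ℝ := d * q - (d + 1) with hη
  have hη0 : 0 < η := by
    rw [hη]
    nlinarith
  set C : ℝ := 1 + X₁ + X₂ with hC
  have hC1 : 1 ≤ C := by linarith
  set c : ℝ := (Fintype.card ι : ℝ) with hc
  have hc0 : 0 < c := lt_of_lt_of_le (by positivity) hcard
  have hKη : 1 ≤ K ^ η := Real.one_le_rpow hK hη0.le
  have hb1 := hD K hK ι ω f hω hsep hf K hK0 Set.univ MeasurableSet.univ (fun t _ => le_rfl)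
  have hu : {y : Space d | y.snd ∈ (Set.univ : Set ℝ)} = Set.univ := by simp
  rw [hu, Measure.restrict_univ, ← Real.rpow_add hK0] at hb1
  have hexp : ((d:ℝ) + 2 * (d * (q - 1)) + (1 - d * (q - 1))) = d * q + 1 := by ring
  rw [hexp] at hb1
  set Q : ℝ := G ^ q * (D * (c * K ^ (d * q + 1 : ℝ))) with hQ
  have hQ0 : 0 < Q := by positivity
  have hQi : ∫⁻ y, Fb K ω f a y ^ q ≤ ENNReal.ofReal Q := by
    refine hI.trans ((mul_le_mul' le_rfl hb1).trans (le_of_eq ?_))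
    rw [ENNReal.ofReal_rpow_of_pos hG0, ← ENNReal.ofReal_mul (by positivity)]
  have hDq : C * G ^ q * K ^ η ≤ (C * G * K ^ η) ^ q := by
    rw [Real.mul_rpow (by positivity) (by positivity), Real.mul_rpow (by linarith) hG0.le]
    have h1 : C ≤ C ^ q := by
      calc C = C ^ (1:ℝ) := (Real.rpow_one C).symm
        _ ≤ C ^ q := Real.rpow_le_rpow_of_exponent_le hC1 hq.le
    have h2 : K ^ η ≤ (K ^ η) ^ q := by
      calc K ^ η = (K ^ η) ^ (1:ℝ) := (Real.rpow_one _).symm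
        _ ≤ (K ^ η) ^ q := Real.rpow_le_rpow_of_exponent_le hKη hq.le
    gcongr
  have hcq : c ^ q = c * c ^ (q - 1) := by
    rw [← Real.rpow_one_add' hc0.le (by linarith)]
    congr 1
    ring
  have hcq2 : K ^ (d * (q - 1) : ℝ) ≤ κ ^ (1 - q) * c ^ (q - 1) := by
    have h2 : (κ * K ^ d) ^ (q - 1) ≤ c ^ (q - 1) :=
      Real.rpow_le_rpow (by positivity) hcard (by linarith)
    rw [Real.mul_rpow hκ.le (by positivity), ← Real.rpow_natCast K d, ← Real.rpow_mul hK0.le] at h2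
    have h5 : κ ^ (1 - q) * κ ^ (q - 1) = 1 := by
      rw [← Real.rpow_add hκ]
      norm_num
    have h6 : 0 ≤ κ ^ (1 - q) := by positivity
    calc K ^ (d * (q - 1) : ℝ) = κ ^ (1 - q) * (κ ^ (q - 1) * K ^ (d * (q - 1) : ℝ)) := by
          rw [← mul_assoc, h5, one_mul]
      _ ≤ κ ^ (1 - q) * c ^ (q - 1) := mul_le_mul_of_nonneg_left h2 h6
  refine compare d hK hq hQ0 (D := C * G * K ^ η) ?_ ω f hf a hQi ?_ ?_ p hp
  · have h1 : 1 ≤ C * G := by nlinarith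
    nlinarith
  · -- the first condition
    have e1 : ((1 + (d : ℝ)) ^ (d + 1) * wv d * K ^ (2 * (d + 1))) ^ (q - 1) =
        b ^ (q - 1) * K ^ ((2 * (d + 1) : ℝ) * (q - 1)) := by
      rw [← hb, Real.mul_rpow hb0.le (by positivity), ← Real.rpow_natCast K (2 * (d + 1)),
        ← Real.rpow_mul hK0.le]
      congr 3
      push_cast
      ring
    have e2 : (c * K ^ (d + 2)) ^ q = c ^ q * K ^ ((d + 2 : ℝ) * q) := by
      rw [Real.mul_rpow hc0.le (by positivity), ← Real.rpow_natCast K (d + 2), ← Real.rpow_mul hK0.le]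
      congr 2
      push_cast
      ring
    have e3 : K ^ (d * q + 1 : ℝ) * K ^ ((2 * (d + 1) : ℝ) * (q - 1)) =
        K ^ (d * (q - 1) : ℝ) * (K ^ η * K ^ ((d + 2 : ℝ) * q)) := by
      rw [← Real.rpow_add hK0, ← Real.rpow_add hK0, ← Real.rpow_add hK0]
      congr 1
      rw [hη]
      ring
    rw [e1, e2]
    calc Q * (b ^ (q - 1) * K ^ ((2 * (d + 1) : ℝ) * (q - 1)))
        = (G ^ q * D * b ^ (q - 1) * c) * (K ^ (d * q + 1 : ℝ) * K ^ ((2 * (d + 1) : ℝ) * (q - 1))) := by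
          rw [hQ]
          ring
      _ = (G ^ q * D * b ^ (q - 1) * c) * (K ^ η * K ^ ((d + 2 : ℝ) * q)) * K ^ (d * (q - 1) : ℝ) := by
          rw [e3]
          ring
      _ ≤ (G ^ q * D * b ^ (q - 1) * c) * (K ^ η * K ^ ((d + 2 : ℝ) * q)) * (κ ^ (1 - q) * c ^ (q - 1)) := by
          gcongr
      _ = (X₁ * G ^ q * K ^ η) * (c ^ q * K ^ ((d + 2 : ℝ) * q)) := by
          rw [hX₁, hcq]
          ring
      _ ≤ (C * G ^ q * K ^ η) * (c ^ q * K ^ ((d + 2 : ℝ) * q)) := by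
          have : X₁ ≤ C := by linarith
          gcongr
      _ ≤ (C * G * K ^ η) ^ q * (c ^ q * K ^ ((d + 2 : ℝ) * q)) :=
          mul_le_mul_of_nonneg_right hDq (by positivity)
  · -- the second condition
    have e3 : K ^ (d * q + 1 : ℝ) = K ^ (d * (q - 1) : ℝ) * K ^ (d + 1) := by
      rw [← Real.rpow_natCast K (d + 1), ← Real.rpow_add hK0]
      congr 1
      push_cast
      ring
    calc Q = (G ^ q * D * c * K ^ (d + 1)) * K ^ (d * (q - 1) : ℝ) := by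
          rw [hQ, e3]
          ring
      _ ≤ (G ^ q * D * c * K ^ (d + 1)) * (κ ^ (1 - q) * c ^ (q - 1)) := by gcongr
      _ = (X₂ * G ^ q * 1) * (c ^ q * ((K / 2) ^ (d + 1) * wv d)) := by
          rw [hX₂, hcq, div_pow]
          field_simp
      _ ≤ (C * G ^ q * K ^ η) * (c ^ q * ((K / 2) ^ (d + 1) * wv d)) := by
          have : X₂ ≤ C := by linarith
          gcongr
      _ ≤ (C * G * K ^ η) ^ q * (c ^ q * ((K / 2) ^ (d + 1) * wv d)) :=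
          mul_le_mul_of_nonneg_right hDq (by positivity)

/-- the question Q1 in `ℝ^(d+1)` -/
def Q1 (d : ℕ) : Prop :=
  ∀ ε σ κ : ℝ, 0 < ε → 0 < σ → 0 < κ → ∃ C : ℝ, 0 < C ∧ ∀ N : ℝ, 1 ≤ N →
    ∀ (ι : Type) [Fintype ι] (ω : ι → Vec d) (f : ι → Fin d → Space d) (a : ι → Space d),
      Caps σ κ N ω f → ∀ p : ℝ≥0∞, 1 ≤ p → Iqp (C * N ^ ε) N p ω f a

/-- loss `m^ε` for `m` values -/
def Few (d : ℕ) (p : ℝ) : Prop :=
  ∀ ε σ κ : ℝ, 0 < ε → 0 < σ → 0 < κ → ∃ C : ℝ, 0 < C ∧ ∀ N : ℝ, 1 ≤ N →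
    ∀ (ι : Type) [Fintype ι] (ω : ι → Vec d) (f : ι → Fin d → Space d) (a : ι → Space d) (m : ℕ),
      Caps σ κ N ω f → (range a).ncard ≤ m → Iqp (C * (m : ℝ) ^ ε) N (ENNReal.ofReal p) ω f a

/-- loss `m^ε` for `m` values near each other -/
def Near (d : ℕ) (p : ℝ) (U : Set ℝ) (φ ψ : ℝ → ℝ) : Prop :=
  ∀ ε σ κ : ℝ, 0 < ε → 0 < σ → 0 < κ → ∃ C : ℝ, 0 < C ∧ ∀ N ∈ U, 1 ≤ N →
    ∀ (ι : Type) [Fintype ι] (ω : ι → Vec d) (f : ι → Fin d → Space d) (a : ι → Space d) (m : ℕ),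
      Caps σ κ N ω f → (range a).ncard ≤ m → (m : ℝ) ≤ φ N → (∀ i, ‖a i‖ ≤ ψ N * N) →
      Iqp (C * (m : ℝ) ^ ε) N (ENNReal.ofReal p) ω f a

theorem exp_ok {d : ℕ} (hd : 1 ≤ d) {p : ℝ} (hp : ((d : ℝ) + 1) / d < p) : 1 < p ∧ 1 < d * (p - 1) := by
  have hd0 : (0:ℝ) < d := by exact_mod_cast hd
  rw [div_lt_iff₀ hd0] at hp
  constructor
  · by_contra h
    push Not at h
    nlinarith
  · linarith

theorem near_of_few {d : ℕ} {p : ℝ} (U : Set ℝ) (φ ψ : ℝ → ℝ) (h : Few d p) : Near d p U φ ψ := by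
  intro ε σ κ hε hσ hκ
  obtain ⟨C, hC, hC'⟩ := h ε σ κ hε hσ hκ
  exact ⟨C, hC, fun N _ hN ι _ ω f a m hcaps hm _ _ => hC' N hN ι ω f a m hcaps hm⟩

/-- A good fine scale. -/
theorem good_scale {U : Set ℝ} (hU : ¬ BddAbove U) {φ ψ : ℝ → ℝ} (hφ : Tendsto φ atTop atTop)
    (hψ : Tendsto ψ atTop atTop) (X Y Z : ℝ) : ∃ N ∈ U, X ≤ φ N ∧ Y ≤ ψ N ∧ Z ≤ N := by
  have h1 := hφ.eventually_ge_atTop X
  have h2 := hψ.eventually_ge_atTop Y
  have h3 := eventually_ge_atTop Z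
  obtain ⟨N₀, hN₀⟩ := eventually_atTop.1 (h1.and (h2.and h3))
  rw [not_bddAbove_iff] at hU
  obtain ⟨N, hN, hNN⟩ := hU N₀
  obtain ⟨h4, h5, h6⟩ := hN₀ N hNN.le
  exact ⟨N, hN, h4, h5, h6⟩

theorem q1_of_near (d : ℕ) (hd : 1 ≤ d) {U : Set ℝ} (hU : ¬ BddAbove U) {φ ψ : ℝ → ℝ}
    (hφ : Tendsto φ atTop atTop) (hψ : Tendsto ψ atTop atTop)
    (h : ∀ p : ℝ, ((d : ℝ) + 1) / d < p → Near d p U φ ψ) : Q1 d := by
  intro ε σ κ hε hσ hκ
  have hd0 : (0:ℝ) < d := by exact_mod_cast hd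
  set q : ℝ := ((d : ℝ) + 1 + ε / 2) / d with hq
  have hqp : ((d : ℝ) + 1) / d < q := by
    rw [hq]
    apply div_lt_div_of_pos_right _ hd0
    linarith
  obtain ⟨hq1, hqd⟩ := exp_ok hd hqp
  have hη : d * q - (d + 1) = ε / 2 := by
    rw [hq]
    field_simp
    ring
  obtain ⟨C₀, hC₀, hup⟩ := scale_up d hd hq1.le hqd hσ hκ
  obtain ⟨C₂, hC₂, hall⟩ := all_p d hd hσ hκ hq1 hqd
  set ε₁ : ℝ := ε / (2 * d) with hε₁
  have hε₁0 : 0 < ε₁ := by positivity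
  obtain ⟨C₁, hC₁, hnear⟩ := h q hqp ε₁ 1 (1 / C₀) hε₁0 one_pos (by positivity)
  have hC₀0 : 0 < C₀ := by linarith
  set G₀ : ℝ := C₀ * ((1 + C₁) * C₀ ^ ε₁) with hG₀
  have hCe : 1 ≤ C₀ ^ ε₁ := Real.one_le_rpow hC₀ hε₁0.le
  have hG₀1 : 1 ≤ G₀ := by
    have h1 : 1 ≤ (1 + C₁) * C₀ ^ ε₁ := by nlinarith
    nlinarith
  refine ⟨C₂ * G₀, by positivity, ?_⟩
  intro K hK ι _ ω f a hcaps p hp
  have hK0 : 0 < K := by linarith
  obtain ⟨N, hNU, hN1, hN2, hN3⟩ := good_scale hU hφ hψ (C₀ * K ^ d) (C₀ * K) (C₀ * K)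
  have hN : 1 ≤ N := by nlinarith
  set B : ℝ := (1 + C₁) * (C₀ * K ^ d) ^ ε₁ with hB
  have hB0 : 0 ≤ B := by positivity
  have hI := hup K N B hK hN3 hB0 (by
    intro ι' _ ω' f' a' hcaps' hr' hn'
    have h1 := hnear N hNU hN ι' ω' f' a' (range a').ncard hcaps' le_rfl (hr'.trans hN1) (by
      intro i
      refine (hn' i).trans ?_
      gcongr)
    rw [iqp_iff _ _ _ _ _ (by linarith)] at h1
    refine iq_mono (by linarith) h1 ?_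
    rw [hB]
    have h2 : (((range a').ncard : ℕ) : ℝ) ^ ε₁ ≤ (C₀ * K ^ d) ^ ε₁ :=
      Real.rpow_le_rpow (Nat.cast_nonneg _) hr' hε₁0.le
    have h3 : C₁ ≤ 1 + C₁ := by linarith
    gcongr) ι ω f a hcaps
  have hKe : (K ^ d : ℝ) ^ ε₁ = K ^ (ε / 2) := by
    rw [← Real.rpow_natCast K d, ← Real.rpow_mul hK0.le]
    congr 1
    rw [hε₁]
    field_simp
  have hCB : C₀ * B = G₀ * K ^ (ε / 2) := by
    rw [hB, hG₀, Real.mul_rpow hC₀0.le (by positivity), hKe]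
    ring
  rw [hCB] at hI
  have hKe1 : 1 ≤ K ^ (ε / 2) := Real.one_le_rpow hK (by positivity)
  have h2 := hall K (G₀ * K ^ (ε / 2)) hK (by nlinarith) ι ω f a hcaps hI p hp
  rw [hη] at h2
  have h3 : C₂ * (G₀ * K ^ (ε / 2)) * K ^ (ε / 2) = C₂ * G₀ * K ^ ε := by
    have : K ^ ε = K ^ (ε / 2) * K ^ (ε / 2) := by
      rw [← Real.rpow_add hK0]
      congr 1
      ring
    rw [this]
    ring
  rw [h3] at h2
  exact h2

/-- loss `N^β` -/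
def LossAll (d : ℕ) (p β : ℝ) : Prop :=
  ∀ σ κ : ℝ, 0 < σ → 0 < κ → ∃ C : ℝ, 0 < C ∧ ∀ N : ℝ, 1 ≤ N →
    ∀ (ι : Type) [Fintype ι] (ω : ι → Vec d) (f : ι → Fin d → Space d) (a : ι → Space d),
      Caps σ κ N ω f → Iqp (C * N ^ β) N (ENNReal.ofReal p) ω f a

/-- loss `m^α` for `m` values -/
def LossFew (d : ℕ) (p α : ℝ) : Prop :=
  ∀ σ κ : ℝ, 0 < σ → 0 < κ → ∃ C : ℝ, 0 < C ∧ ∀ N : ℝ, 1 ≤ N →
    ∀ (ι : Type) [Fintype ι] (ω : ι → Vec d) (f : ι → Fin d → Space d) (a : ι → Space d) (m : ℕ),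
      Caps σ κ N ω f → (range a).ncard ≤ m → Iqp (C * (m : ℝ) ^ α) N (ENNReal.ofReal p) ω f a

/-- loss `m^α` for `m` values near each other -/
def LossNear (d : ℕ) (p α : ℝ) (U : Set ℝ) (φ ψ : ℝ → ℝ) : Prop :=
  ∀ σ κ : ℝ, 0 < σ → 0 < κ → ∃ C : ℝ, 0 < C ∧ ∀ N ∈ U, 1 ≤ N →
    ∀ (ι : Type) [Fintype ι] (ω : ι → Vec d) (f : ι → Fin d → Space d) (a : ι → Space d) (m : ℕ),
      Caps σ κ N ω f → (range a).ncard ≤ m → (m : ℝ) ≤ φ N → (∀ i, ‖a i‖ ≤ ψ N * N) →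
      Iqp (C * (m : ℝ) ^ α) N (ENNReal.ofReal p) ω f a

theorem all_of_near (d : ℕ) (hd : 1 ≤ d) {U : Set ℝ} (hU : ¬ BddAbove U) {φ ψ : ℝ → ℝ}
    (hφ : Tendsto φ atTop atTop) (hψ : Tendsto ψ atTop atTop) {p α : ℝ}
    (hp : ((d : ℝ) + 1) / d < p) (hα : 0 ≤ α) (h : LossNear d p α U φ ψ) : LossAll d p (d * α) := by
  intro σ κ hσ hκ
  have hd0 : (0:ℝ) < d := by exact_mod_cast hd
  obtain ⟨hp1, hpd⟩ := exp_ok hd hp
  have hp0 : 0 < p := by linarith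
  obtain ⟨C₀, hC₀, hup⟩ := scale_up d hd hp1.le hpd hσ hκ
  obtain ⟨C₁, hC₁, hnear⟩ := h 1 (1 / C₀) one_pos (by positivity)
  have hC₀0 : 0 < C₀ := by linarith
  refine ⟨C₀ * (C₁ * C₀ ^ α), by positivity, ?_⟩
  intro K hK ι _ ω f a hcaps
  have hK0 : 0 < K := by linarith
  obtain ⟨N, hNU, hN1, hN2, hN3⟩ := good_scale hU hφ hψ (C₀ * K ^ d) (C₀ * K) (C₀ * K)
  have hN : 1 ≤ N := by nlinarith
  set B : ℝ := C₁ * (C₀ * K ^ d) ^ α with hB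
  have hB0 : 0 ≤ B := by positivity
  have hI := hup K N B hK hN3 hB0 (by
    intro ι' _ ω' f' a' hcaps' hr' hn'
    have h1 := hnear N hNU hN ι' ω' f' a' (range a').ncard hcaps' le_rfl (hr'.trans hN1) (by
      intro i
      refine (hn' i).trans ?_
      gcongr)
    rw [iqp_iff _ _ _ _ _ hp0] at h1
    refine iq_mono hp0.le h1 ?_
    rw [hB]
    have h2 : (((range a').ncard : ℕ) : ℝ) ^ α ≤ (C₀ * K ^ d) ^ α :=
      Real.rpow_le_rpow (Nat.cast_nonneg _) hr' hα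
    gcongr) ι ω f a hcaps
  have hKe : (K ^ d : ℝ) ^ α = K ^ (d * α : ℝ) := by
    rw [← Real.rpow_natCast K d, ← Real.rpow_mul hK0.le]
  have hCB : C₀ * B = C₀ * (C₁ * C₀ ^ α) * K ^ (d * α : ℝ) := by
    rw [hB, Real.mul_rpow hC₀0.le (by positivity), hKe]
    ring
  rw [hCB] at hI
  rw [iqp_iff _ _ _ _ _ hp0]
  exact hI

theorem few_of_all (d : ℕ) (hd : 1 ≤ d) {p β : ℝ} (hp : ((d : ℝ) + 1) / d < p) (hβ : 0 ≤ β)
    (h : LossAll d p β) : LossFew d p (β * ((p - 1) / (d * (p - 1) - 1))) := by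
  intro σ κ hσ hκ
  obtain ⟨hp1, hpd⟩ := exp_ok hd hp
  have hp0 : 0 < p := by linarith
  set θ : ℝ := (p - 1) / (d * (p - 1) - 1) with hθ
  have hθ0 : 0 < θ := div_pos (by linarith) (by linarith)
  obtain ⟨C₀, hC₀, hdown⟩ := scale_down d hd hσ hκ hp1.le hpd
  obtain ⟨C₁, hC₁, h1⟩ := h 1 1 one_pos one_pos
  obtain ⟨C₂, hC₂, h2⟩ := h σ κ hσ hκ
  refine ⟨C₂ + C₀ * (1 + C₁), by positivity, ?_⟩
  intro N hN ι _ ω f a m hcaps hm
  have hN0 : 0 < N := by linarith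
  have := nonempty_of_caps hκ hN hcaps
  have hm1 : (1:ℝ) ≤ m := by
    have : 0 < (range a).ncard := (Set.ncard_pos (Set.finite_range a)).2 (range_nonempty a)
    exact_mod_cast (show 1 ≤ m by omega)
  have hm0 : (0:ℝ) < m := by linarith
  have hmε : 1 ≤ (m:ℝ) ^ (β * θ) := Real.one_le_rpow hm1 (by positivity)
  have e : ((m:ℝ) ^ θ) ^ β = (m:ℝ) ^ (β * θ) := by
    rw [← Real.rpow_mul hm0.le]
    congr 1
    ring
  rcases le_total ((m:ℝ) ^ θ) N with hc | hc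
  · have hK : 1 ≤ (m:ℝ) ^ θ := Real.one_le_rpow hm1 hθ0.le
    have h3 := hdown ((m:ℝ) ^ θ) N (C₁ * (m:ℝ) ^ (β * θ)) m hK hc (by positivity) hm1 le_rfl (by
      intro ι' _ ω' f' a' hcaps'
      have h4 := h1 _ hK ι' ω' f' a' hcaps'
      rw [iqp_iff _ _ _ _ _ hp0, e] at h4
      exact h4) ι ω f a hcaps (by exact_mod_cast hm)
    rw [iqp_iff _ _ _ _ _ hp0]
    refine iq_mono hp0.le h3 ?_
    have h5 : 1 + C₁ * (m:ℝ) ^ (β * θ) ≤ (1 + C₁) * (m:ℝ) ^ (β * θ) := by nlinarith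
    have h6 : C₀ * (1 + C₁ * (m:ℝ) ^ (β * θ)) ≤ C₀ * ((1 + C₁) * (m:ℝ) ^ (β * θ)) :=
      mul_le_mul_of_nonneg_left h5 (by linarith)
    have h7 : 0 ≤ C₂ * (m:ℝ) ^ (β * θ) := by positivity
    linarith
  · have h3 := h2 N hN ι ω f a hcaps
    refine iqp_mono h3 ?_
    have e2 : N ^ β ≤ (m:ℝ) ^ (β * θ) := by
      calc N ^ β ≤ ((m:ℝ) ^ θ) ^ β := Real.rpow_le_rpow hN0.le hc hβ
        _ = (m:ℝ) ^ (β * θ) := e
    have h4 : C₂ * N ^ β ≤ C₂ * (m:ℝ) ^ (β * θ) := mul_le_mul_of_nonneg_left e2 hC₂.le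
    have h5 : 0 ≤ C₀ * (1 + C₁) * (m:ℝ) ^ (β * θ) := by positivity
    linarith

theorem few_of_q1 (d : ℕ) (hd : 1 ≤ d) (h : Q1 d) {p : ℝ} (hp : ((d : ℝ) + 1) / d < p) : Few d p := by
  intro ε σ κ hε hσ hκ
  obtain ⟨hp1, hpd⟩ := exp_ok hd hp
  have hp0 : 0 < p := by linarith
  set θ : ℝ := (p - 1) / (d * (p - 1) - 1) with hθ
  have hθ0 : 0 < θ := div_pos (by linarith) (by linarith)
  obtain ⟨C₀, hC₀, hdown⟩ := scale_down d hd hσ hκ hp1.le hpd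
  obtain ⟨C₁, hC₁, h1⟩ := h (ε / θ) 1 1 (by positivity) one_pos one_pos
  obtain ⟨C₂, hC₂, h2⟩ := h (ε / θ) σ κ (by positivity) hσ hκ
  have hpe : (1 : ℝ≥0∞) ≤ ENNReal.ofReal p := by
    rw [← ENNReal.ofReal_one]
    exact ENNReal.ofReal_le_ofReal hp1.le
  refine ⟨C₂ + C₀ * (1 + C₁), by positivity, ?_⟩
  intro N hN ι _ ω f a m hcaps hm
  have hN0 : 0 < N := by linarith
  haveI := nonempty_of_caps hκ hN hcaps
  have hm1 : (1:ℝ) ≤ m := by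
    have : 0 < (range a).ncard := (Set.ncard_pos (Set.finite_range a)).2 (range_nonempty a)
    exact_mod_cast (show 1 ≤ m by omega)
  have hm0 : (0:ℝ) < m := by linarith
  have hmε : 1 ≤ (m:ℝ) ^ ε := Real.one_le_rpow hm1 hε.le
  rcases le_total ((m:ℝ) ^ θ) N with hc | hc
  · have hK : 1 ≤ (m:ℝ) ^ θ := Real.one_le_rpow hm1 hθ0.le
    have e : ((m:ℝ) ^ θ) ^ (ε / θ) = (m:ℝ) ^ ε := by
      rw [← Real.rpow_mul hm0.le]
      congr 1
      field_simp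
    have h3 := hdown ((m:ℝ) ^ θ) N (C₁ * (m:ℝ) ^ ε) m hK hc (by positivity) hm1 le_rfl (by
      intro ι' _ ω' f' a' hcaps'
      have h4 := h1 _ hK ι' ω' f' a' hcaps' (ENNReal.ofReal p) hpe
      rw [iqp_iff _ _ _ _ _ hp0, e] at h4
      exact h4) ι ω f a hcaps (by exact_mod_cast hm)
    rw [iqp_iff _ _ _ _ _ hp0]
    refine iq_mono hp0.le h3 ?_
    have h5 : 1 + C₁ * (m:ℝ) ^ ε ≤ (1 + C₁) * (m:ℝ) ^ ε := by nlinarith
    have h6 : C₀ * (1 + C₁ * (m:ℝ) ^ ε) ≤ C₀ * ((1 + C₁) * (m:ℝ) ^ ε) :=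
      mul_le_mul_of_nonneg_left h5 (by linarith)
    have h7 : 0 ≤ C₂ * (m:ℝ) ^ ε := by positivity
    linarith
  · have h3 := h2 N hN ι ω f a hcaps (ENNReal.ofReal p) hpe
    refine iqp_mono h3 ?_
    have e : N ^ (ε / θ) ≤ (m:ℝ) ^ ε := by
      calc N ^ (ε / θ) ≤ ((m:ℝ) ^ θ) ^ (ε / θ) := Real.rpow_le_rpow hN0.le hc (by positivity)
        _ = (m:ℝ) ^ ε := by
            rw [← Real.rpow_mul hm0.le]
            congr 1
            field_simp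
    have h4 : C₂ * N ^ (ε / θ) ≤ C₂ * (m:ℝ) ^ ε := mul_le_mul_of_nonneg_left e hC₂.le
    have h5 : 0 ≤ C₀ * (1 + C₁) * (m:ℝ) ^ ε := by positivity
    linarith

end Pool.Agent.U912.Few
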