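import Pool.Agent.U912.Few.Grp

set_option autoImplicit false

/-! Separated positions. -/

open MeasureTheory Set Filter Topology ENNReal NNReal Metric

namespace Pool.Agent.U912.Few

open Pool.Agent.H810R3.Tub Pool.Agent.R251.Nec

variable {d : ℕ}

theorem norm_of_height {N : ℝ} (hN : 1 ≤ N) {ω : Vec d} (hω : ‖ω‖ ≤ 1) {f : Fin d → Space d}
    (hf : Orthonormal ℝ (Fin.cons (nor ω) f : Fin (d + 1) → Space d)) {z : Space d}
    (hz : z ∈ box N (nor ω) f 0) : ‖z‖ ≤ 3 * |z.snd| + 3 * d * N / 2 := by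
  have h0 := hz
  rw [← zero_eq] at h0
  have h1 := (geo hN hω hf h0).2
  rw [sub_zero] at h1
  have h2 : ‖z.fst‖ ≤ 3 * d * N / 2 + 2 * |z.snd| := by
    have e : z.fst = (z.fst + (2 * z.snd) • ω) - (2 * z.snd) • ω := by abel
    rw [e]
    refine (norm_sub_le _ _).trans ?_
    refine add_le_add h1 ?_
    rw [norm_smul, Real.norm_eq_abs, abs_mul, abs_two]
    have := mul_le_mul_of_nonneg_left hω (show 0 ≤ 2 * |z.snd| by positivity)
    linarith
  have h3 : ‖z‖ ≤ ‖z.fst‖ + |z.snd| := by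
    apply le_of_sq_le_sq _ (by positivity)
    rw [norm_space_sq, ← sq_abs z.snd]
    nlinarith [norm_nonneg z.fst, abs_nonneg z.snd]
  linarith

/-- Packing in the whole space. -/
theorem pack_space {X : Set (Space d)} (hX : X.Finite) {s R : ℝ} (hs : 0 < s) (hR : 0 ≤ R)
    (hsep : ∀ x ∈ X, ∀ y ∈ X, x ≠ y → s ≤ ‖x - y‖) (y : Space d) :
    (({x | x ∈ X ∧ ‖y - x‖ ≤ R} : Set (Space d)).ncard : ℝ) ≤ (2 * R / s + 2) ^ (d + 1) := by
  classical
  obtain ⟨g, hg⟩ := exists_frame (nor (0 : Vec d)) (norm_dir _)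
  set Y : Set (Space d) := {x | x ∈ X ∧ ‖y - x‖ ≤ R} with hY
  have hYf : Y.Finite := hX.subset (fun x hx => hx.1)
  haveI : Fintype Y := hYf.fintype
  have h := pack (d := d + 1) (ι := Y) hs hR (fun x => (frame hg).repr x.1) (by
      intro i j hij
      rw [← map_sub, LinearIsometryEquiv.norm_map]
      exact hsep _ i.2.1 _ j.2.1 (fun h => hij (Subtype.ext h))) ((frame hg).repr y) Finset.univ (by
      intro i _
      rw [← map_sub, LinearIsometryEquiv.norm_map, norm_sub_rev]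
      exact i.2.2)
  rw [Finset.card_univ] at h
  rw [← Nat.card_coe_set_eq, Nat.card_eq_fintype_card]
  exact h

theorem sep_moment (d : ℕ) (hd : 1 ≤ d) {σ : ℝ} (hσ : 0 < σ) {p : ℝ} (hp : 1 ≤ p)
    (hpd : 1 < d * (p - 1)) {A : ℝ} (hA : 1 ≤ A) :
    ∃ D : ℝ, 0 < D ∧ ∀ (N : ℝ), 1 ≤ N → ∀ (ι : Type) [Fintype ι] (ω : ι → Vec d)
      (f : ι → Fin d → Space d), (∀ i, ‖ω i‖ ≤ 1) → (∀ i j, i ≠ j → σ / N ≤ ‖ω i - ω j‖) →
      (∀ i, Orthonormal ℝ (Fin.cons (nor (ω i)) (f i) : Fin (d + 1) → Space d)) →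
      ∀ (a : ι → Space d) (m s : ℝ), 0 < s → N ≤ A * s →
        (∀ i j, a i = a j ∨ s ≤ ‖a i - a j‖) →
        (∀ y, (({x | x ∈ range a ∧ ‖y - x‖ ≤ (1 + d) * N ^ 2} : Set (Space d)).ncard : ℝ) ≤ m) →
        m ^ (p - 1) * s ^ (1 - d * (p - 1) : ℝ) ≤ A * N ^ (1 - d * (p - 1) : ℝ) →
      ∫⁻ y, Fb N ω f a y ^ p ≤
        ENNReal.ofReal (D * ((Fintype.card ι : ℝ) * N ^ (d * p + 1 : ℝ))) := by
  obtain ⟨D, hD0, hD⟩ := group d hd hσ hp hpd
  set r : ℝ := d * (p - 1) with hr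
  set M : ℝ := (2 * (3 + 3 * d * A / 2) + 2) ^ (d + 1) with hM
  have hM0 : 0 < M := by positivity
  refine ⟨2 ^ (p - 1) * (D * (M ^ (p - 1) + A)), by positivity, ?_⟩
  intro N hN ι _ ω f hω hsep hf a m s hs hNs hsepa hm hms
  have hN0 : 0 < N := by linarith
  set S : Set ℝ := {t | s ≤ |t|} with hS
  have hSm : MeasurableSet S := measurableSet_le measurable_const measurable_norm
  have hfar := hD N hN ι ω f hω hsep hf s hs S hSm (by
      intro t ht
      rw [max_eq_left ht]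
      exact le_max_left _ _) a m ((1 + d) * N ^ 2) (by
      intro i z hz _
      have h := box_sub_ball hN (hf i) hz
      rwa [mem_closedBall, dist_zero_right] at h) hm
  have hnear := hD N hN ι ω f hω hsep hf N hN0 Sᶜ hSm.compl (fun t _ => le_rfl) a M
    ((3 + 3 * d * A / 2) * s) (by
      intro i z hz hzS
      have h1 : |z.snd| < s := not_le.1 hzS
      have h := norm_of_height hN (hω i) (hf i) hz
      have h2 : 3 * d * N / 2 ≤ 3 * d * A / 2 * s := by
        have : 3 * d / 2 * N ≤ 3 * d / 2 * (A * s) := by gcongr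
        calc 3 * d * N / 2 = 3 * d / 2 * N := by ring
          _ ≤ 3 * d / 2 * (A * s) := this
          _ = _ := by ring
      linarith) (by
      intro y
      refine (pack_space (Set.finite_range a) hs (by positivity) ?_ y).trans (le_of_eq ?_)
      · rintro _ ⟨i, rfl⟩ _ ⟨j, rfl⟩ hne
        exact (hsepa i j).resolve_left hne
      · rw [hM]
        congr 2
        field_simp)
  set c : ℝ := (Fintype.card ι : ℝ) with hc
  have hc0 : 0 ≤ c := Nat.cast_nonneg _
  set W : ℝ := N ^ (d + 2 * r : ℝ) with hW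
  have hW0 : 0 < W := by positivity
  have hWN : W * N ^ (1 - r : ℝ) = N ^ (d * p + 1 : ℝ) := by
    rw [hW, ← Real.rpow_add hN0]
    congr 1
    rw [hr]
    ring
  calc ∫⁻ y, Fb N ω f a y ^ p
      ≤ ∫⁻ y, (2:ℝ≥0∞) ^ (p - 1) * (Gs N ω f S a y ^ p + Gs N ω f Sᶜ a y ^ p) := by
        refine lintegral_mono fun y => ?_
        rw [Fb_split N ω f S a y]
        exact two_pow hp
    _ = (2:ℝ≥0∞) ^ (p - 1) * ((∫⁻ y, Gs N ω f S a y ^ p) + (∫⁻ y, Gs N ω f Sᶜ a y ^ p)) := by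
        rw [lintegral_const_mul' _ _ (ENNReal.rpow_ne_top_of_nonneg (by linarith) (by norm_num)),
          lintegral_add_left ((Gs_meas N ω f hSm a).pow_const p)]
    _ ≤ (2:ℝ≥0∞) ^ (p - 1) * (ENNReal.ofReal (D * (m ^ (p - 1) * (c * (W * s ^ (1 - r : ℝ))))) +
          ENNReal.ofReal (D * (M ^ (p - 1) * (c * (W * N ^ (1 - r : ℝ)))))) :=
        mul_le_mul' le_rfl (add_le_add hfar hnear)
    _ ≤ (2:ℝ≥0∞) ^ (p - 1) * ENNReal.ofReal (D * (M ^ (p - 1) + A) * (c * N ^ (d * p + 1 : ℝ))) := by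
        refine mul_le_mul' le_rfl ?_
        have hm0 : 0 ≤ m := le_trans (Nat.cast_nonneg _) (hm 0)
        rw [← ENNReal.ofReal_add (by positivity) (by positivity)]
        apply ENNReal.ofReal_le_ofReal
        rw [← hWN]
        have h1 : (m ^ (p - 1) * s ^ (1 - r : ℝ)) * (D * c * W) ≤ (A * N ^ (1 - r : ℝ)) * (D * c * W) :=
          mul_le_mul_of_nonneg_right hms (by positivity)
        linarith
    _ = _ := by
        have e : (2:ℝ≥0∞) = ENNReal.ofReal 2 := by simp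
        rw [e, ENNReal.ofReal_rpow_of_pos two_pos, ← ENNReal.ofReal_mul (by positivity)]
        congr 1
        ring

/-- Larger boxes. -/
theorem Fb_blur {ι : Type} [Fintype ι] {N R : ℝ} (hN : 1 ≤ N) (hR : 0 ≤ R) {ω : ι → Vec d}
    {f : ι → Fin d → Space d}
    (hf : ∀ i, Orthonormal ℝ (Fin.cons (nor (ω i)) (f i) : Fin (d + 1) → Space d)) {a x : ι → Space d}
    (hx : ∀ i, ‖a i - x i‖ ≤ R * N) (y : Space d) :
    Fb N ω f a y ≤ Fb ((1 + 2 * R) * N) ω f x y := by
  have hN0 : 0 < N := by linarith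
  unfold Fb
  refine Finset.sum_le_sum fun i _ => ?_
  by_cases h : y ∈ box N (nor (ω i)) (f i) (a i)
  · rw [indicator_of_mem h, indicator_of_mem]
    have key : ∀ e : Space d, ‖e‖ = 1 → |(inner ℝ e (y - x i) : ℝ)| ≤ |(inner ℝ e (y - a i) : ℝ)| + R * N := by
      intro e he
      have e1 : y - x i = (y - a i) + (a i - x i) := by abel
      rw [e1, inner_add_right]
      refine (abs_add_le _ _).trans (add_le_add le_rfl ?_)
      have h2 := abs_real_inner_le_norm e (a i - x i)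
      rw [he, one_mul] at h2
      exact h2.trans (hx i)
    constructor
    · refine (key _ (norm_e (hf i))).trans ?_
      have h1 := h.1
      have h3 : R * N ≤ R * N ^ 2 := by
        apply mul_le_mul_of_nonneg_left _ hR
        nlinarith
      have h4 : 0 ≤ R ^ 2 * N ^ 2 := by positivity
      nlinarith
    · intro j
      refine (key _ (norm_f (hf i) j)).trans ?_
      have h1 := h.2 j
      nlinarith
  · rw [indicator_of_notMem h]
    exact zero_le

theorem separated (d : ℕ) (hd : 1 ≤ d) {σ κ R : ℝ} (hσ : 0 < σ) (hκ : 0 < κ) (hR : 0 ≤ R) {p : ℝ}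
    (hp : 1 ≤ p) (hpd : 1 < d * (p - 1)) :
    ∃ C : ℝ, 1 ≤ C ∧ ∀ (N : ℝ), 1 ≤ N → ∀ (ι : Type) [Fintype ι] (ω : ι → Vec d)
      (f : ι → Fin d → Space d), Caps σ κ N ω f →
      ∀ (a x : ι → Space d) (m s : ℝ), 1 ≤ m → (∀ i, ‖a i - x i‖ ≤ R * N) →
        (∀ i j, x i = x j ∨ s ≤ ‖x i - x j‖) →
        (∀ y, (({z | z ∈ range x ∧ ‖y - z‖ ≤ (1 + d) * ((1 + 2 * R) * N) ^ 2} : Set (Space d)).ncard : ℝ)
          ≤ m) →
        m ^ ((p - 1) / (d * (p - 1) - 1) : ℝ) * N ≤ s →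
        Iq C N p ω f a := by
  set r : ℝ := d * (p - 1) with hr
  set b : ℝ := 1 + 2 * R with hb
  have hb1 : 1 ≤ b := by linarith
  have hb0 : 0 < b := by linarith
  have hr1 : 0 < r - 1 := by linarith
  set A : ℝ := b + b ^ (r - 1) with hA
  have hbr : 0 < b ^ (r - 1) := by positivity
  have hA1 : 1 ≤ A := by linarith
  obtain ⟨D, hD0, hD⟩ := sep_moment d hd (σ := σ * b) (by positivity) hp hpd hA1
  have hw := wv_pos d
  set E : ℝ := D * b ^ (d * p + 1 : ℝ) with hE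
  set Z : ℝ := E * κ ^ (1 - p) * (2 ^ (d + 1) / wv d) with hZ
  have hZ0 : 0 < Z := by positivity
  refine ⟨1 + Z, by linarith, ?_⟩
  intro N hN ι _ ω f hcaps a x m s hm hax hsepx hcnt hs
  obtain ⟨hω, hsep, hcard, hf⟩ := hcaps
  have hN0 : 0 < N := by linarith
  have hm0 : 0 < m := by linarith
  set θ : ℝ := (p - 1) / (r - 1) with hθ
  have hθ0 : 0 ≤ θ := div_nonneg (by linarith) hr1.le
  have hmθ : 1 ≤ m ^ θ := Real.one_le_rpow hm hθ0
  have hNs : N ≤ s := by
    refine le_trans ?_ hs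
    nlinarith
  have hs0 : 0 < s := by linarith
  have hbN : 1 ≤ b * N := by nlinarith
  have h1 := hD (b * N) hbN ι ω f hω (by
      intro i j hij
      have : σ * b / (b * N) = σ / N := by field_simp
      rw [this]
      exact hsep i j hij) hf x m s hs0 (by
      have : b * N ≤ b * s := mul_le_mul_of_nonneg_left hNs hb0.le
      have h2 : b * s ≤ A * s := mul_le_mul_of_nonneg_right (by linarith) hs0.le
      linarith) hsepx hcnt (by
      have h2 : s ^ (1 - r : ℝ) ≤ (m ^ θ * N) ^ (1 - r : ℝ) :=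
        Real.rpow_le_rpow_of_nonpos (by positivity) hs (by linarith)
      have h3 : (m ^ θ * N) ^ (1 - r : ℝ) = m ^ (-(p - 1)) * N ^ (1 - r : ℝ) := by
        rw [Real.mul_rpow (by positivity) hN0.le, ← Real.rpow_mul hm0.le]
        congr 2
        rw [hθ]
        have : r - 1 ≠ 0 := hr1.ne'
        field_simp
        ring
      have h4 : m ^ (p - 1) * m ^ (-(p - 1)) = 1 := by
        rw [← Real.rpow_add hm0]
        norm_num
      have h5 : (b * N) ^ (1 - r : ℝ) = b ^ (1 - r : ℝ) * N ^ (1 - r : ℝ) :=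
        Real.mul_rpow hb0.le hN0.le
      have h6 : b ^ (r - 1) * b ^ (1 - r) = 1 := by
        rw [← Real.rpow_add hb0]
        norm_num
      have h7 : 0 < b ^ (1 - r : ℝ) := by positivity
      have h8 : 0 < N ^ (1 - r : ℝ) := by positivity
      calc m ^ (p - 1) * s ^ (1 - r : ℝ) ≤ m ^ (p - 1) * (m ^ θ * N) ^ (1 - r : ℝ) := by
            apply mul_le_mul_of_nonneg_left h2 (by positivity)
        _ = (m ^ (p - 1) * m ^ (-(p - 1))) * N ^ (1 - r : ℝ) := by rw [h3]; ring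
        _ = (b ^ (r - 1) * b ^ (1 - r)) * N ^ (1 - r : ℝ) := by rw [h4, h6]
        _ ≤ A * (b * N) ^ (1 - r : ℝ) := by
            rw [h5, hA]
            have : 0 ≤ b * (b ^ (1 - r : ℝ) * N ^ (1 - r : ℝ)) := by positivity
            linarith)
  have h2 : ∫⁻ y, Fb N ω f a y ^ p ≤ ENNReal.ofReal (E * ((Fintype.card ι : ℝ) * N ^ (d * p + 1 : ℝ)) * 1 ^ p) := by
    calc ∫⁻ y, Fb N ω f a y ^ p ≤ ∫⁻ y, Fb (b * N) ω f x y ^ p :=
          lintegral_mono fun y => ENNReal.rpow_le_rpow (Fb_blur hN hR hf hax y) (by linarith)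
      _ ≤ _ := h1
      _ = _ := by
          congr 1
          rw [Real.mul_rpow hb0.le hN0.le, Real.one_rpow, hE]
          ring
  have h3 := iq_of (C := 1 + Z) (B := 1) (E := E) (κ := κ) (by positivity) hκ hN hp zero_le_one (by positivity) hf
    hcard a h2 (by
      calc Z ≤ 1 + Z := by linarith
        _ = (1 + Z) ^ (1:ℝ) := (Real.rpow_one _).symm
        _ ≤ (1 + Z) ^ p := Real.rpow_le_rpow_of_exponent_le (by linarith) hp)
  rw [mul_one] at h3
  exact h3

end Pool.Agent.U912.Few
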