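import Mathlib

set_option autoImplicit false

/-! Positions can be moved into a ball. -/

open MeasureTheory Set Filter Topology ENNReal NNReal Metric Module

namespace Pool.Agent.U912.Few

theorem tsum_rpow_le {G : Type} (x : G → ℝ≥0∞) {p : ℝ} (hp : 1 ≤ p) :
    ∑' g, x g ^ p ≤ (∑' g, x g) ^ p := by
  have e1 : ∀ u : ℝ≥0∞, u ^ p = u * u ^ (p - 1) := by
    intro u
    conv_lhs => rw [show p = 1 + (p - 1) by ring]
    rw [ENNReal.rpow_add_of_nonneg _ _ zero_le_one (by linarith), ENNReal.rpow_one]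
  calc ∑' g, x g ^ p ≤ ∑' g, x g * (∑' g, x g) ^ (p - 1) := by
        refine ENNReal.tsum_le_tsum fun g => ?_
        rw [e1]
        exact mul_le_mul' le_rfl (ENNReal.rpow_le_rpow (ENNReal.le_tsum g) (by linarith))
    _ = (∑' g, x g) ^ p := by rw [ENNReal.tsum_mul_right, ← e1]

theorem wrap {E : Type} [NormedAddCommGroup E] [InnerProductSpace ℝ E] [FiniteDimensional ℝ E]
    [MeasurableSpace E] [BorelSpace E] (μ : Measure E) [μ.IsAddHaarMeasure] {n : ℕ}
    (e : OrthonormalBasis (Fin n) ℝ E) {M : ℝ} (hM : 0 < M) {ι : Type} [Fintype ι]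
    (T : ι → E → ℝ≥0∞) (hT : ∀ i, Measurable (T i)) (hs : ∀ i y, M ≤ ‖y‖ → T i y = 0) (a : ι → E)
    {p : ℝ} (hp : 1 ≤ p) :
    ∃ b : ι → E, (∀ i, ‖b i‖ ≤ n * M) ∧ ∫⁻ y, (∑ i, T i (y - a i)) ^ p ∂μ ≤
      ((3 : ℝ≥0∞) ^ n) ^ (p - 1) * ∫⁻ y, (∑ i, T i (y - b i)) ^ p ∂μ := by
  classical
  have hp0 : 0 < p := by linarith
  set B : Basis (Fin n) ℝ E := e.toBasis.unitsSMul (fun _ => Units.mk0 M hM.ne') with hB
  have hBi : ∀ i, B i = M • e i := by
    intro i
    rw [hB, Basis.unitsSMul_apply]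
    simp
  have hrep : ∀ y i, B.repr y i = M⁻¹ * inner ℝ (e i) y := by
    intro y i
    rw [hB, Basis.repr_unitsSMul]
    simp [OrthonormalBasis.repr_apply_apply, Units.smul_def]
  have hrepn : ∀ y i, ‖y‖ < M → |B.repr y i| < 1 := by
    intro y i hy
    rw [hrep, abs_mul, abs_inv, abs_of_pos hM, inv_mul_lt_iff₀ hM, mul_one]
    have h1 := abs_real_inner_le_norm (e i) y
    rw [e.norm_eq_one, one_mul] at h1
    exact h1.trans_lt hy
  set b : ι → E := fun i => ZSpan.fract B (a i) with hb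
  refine ⟨b, ?_, ?_⟩
  · intro i
    refine (ZSpan.norm_fract_le B (a i)).trans (le_of_eq ?_)
    have : ∀ i, ‖B i‖ = M := by
      intro i
      rw [hBi, norm_smul, e.norm_eq_one, mul_one, Real.norm_eq_abs, abs_of_pos hM]
    rw [Finset.sum_congr rfl (fun i _ => this i), Finset.sum_const, Finset.card_univ, Fintype.card_fin,
      nsmul_eq_mul]
  set L := Submodule.span ℤ (Set.range B) with hL
  set F : (ι → E) → E → ℝ≥0∞ := fun a y => ∑ i, T i (y - a i) with hF
  have hFm : ∀ a, Measurable (F a) := by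
    intro a
    apply Finset.measurable_fun_sum
    intro i _
    exact (hT i).comp (measurable_id.sub_const _)
  have hFD := ZSpan.isAddFundamentalDomain B μ
  haveI hinv : VAddInvariantMeasure (Submodule.span ℤ (Set.range B)) E μ :=
    ⟨fun g s _ => measure_preimage_add μ (g : E) s⟩
  have hkey1 : ∀ y : E, ∑' g : L, F a (g +ᵥ y) = ∑' g : L, F b (g +ᵥ y) := by
    intro y
    have h1 : ∀ c : ι → E, ∑' g : L, F c (g +ᵥ y) = ∑ i, ∑' g : L, T i ((g +ᵥ y) - c i) := by
      intro c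
      rw [hF]
      exact Summable.tsum_finsetSum fun i _ => ENNReal.summable
    rw [h1, h1]
    refine Finset.sum_congr rfl fun i _ => ?_
    rw [← (Equiv.addRight (ZSpan.floor B (a i) : L)).tsum_eq (fun g : L => T i ((g +ᵥ y) - a i))]
    refine tsum_congr fun g => ?_
    congr 1
    simp only [Equiv.coe_addRight, hb, ZSpan.fract_apply, Submodule.vadd_def, vadd_eq_add,
      Submodule.coe_add]
    abel
  -- the finite set
  set J : Finset L := (Finset.univ : Finset (Fin n → Fin 3)).image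
    (fun k => ∑ i, (((k i : ℕ) : ℤ) - 1) • B.restrictScalars ℤ i) with hJ
  have hJc : J.card ≤ 3 ^ n := by
    refine Finset.card_image_le.trans ?_
    simp
  have hJ0 : ∀ y ∈ ZSpan.fundamentalDomain B, ∀ g : L, g ∉ J → F b (g +ᵥ y) = 0 := by
    intro y hy g hg
    by_contra hne
    apply hg
    rw [hF] at hne
    obtain ⟨i, -, hi⟩ := Finset.exists_ne_zero_of_sum_ne_zero hne
    have hn : ‖(g +ᵥ y) - b i‖ < M := by
      by_contra hcon
      exact hi (hs i _ (not_lt.1 hcon))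
    have hbi : b i ∈ ZSpan.fundamentalDomain B := ZSpan.fract_mem_fundamentalDomain B (a i)
    have hgf : (ZSpan.floor B (g : E) : E) = g := ZSpan.floor_eq_self_of_mem B _ g.2
    have hgr : ∀ j, B.repr (g : E) j = (⌊B.repr (g : E) j⌋ : ℝ) := by
      intro j
      conv_lhs => rw [← hgf]
      rw [ZSpan.repr_floor_apply]
    have hz : ∀ j, -1 ≤ ⌊B.repr (g : E) j⌋ ∧ ⌊B.repr (g : E) j⌋ ≤ 1 := by
      intro j
      have h1 := hrepn _ j hn
      have h2 : B.repr ((g +ᵥ y) - b i) j = B.repr (g : E) j + B.repr y j - B.repr (b i) j := by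
        rw [Submodule.vadd_def, vadd_eq_add, map_sub, map_add]
        rfl
      rw [h2, hgr j] at h1
      have h3 := hy j
      have h4 := hbi j
      rw [abs_lt] at h1
      have h5 : (-2 : ℝ) < (⌊B.repr (g : E) j⌋ : ℝ) := by linarith [h3.1, h3.2, h4.1, h4.2]
      have h6 : (⌊B.repr (g : E) j⌋ : ℝ) < 2 := by linarith [h3.1, h3.2, h4.1, h4.2]
      have h7 : (-2 : ℤ) < ⌊B.repr (g : E) j⌋ := by exact_mod_cast h5
      have h8 : ⌊B.repr (g : E) j⌋ < (2 : ℤ) := by exact_mod_cast h6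
      omega
    rw [hJ, Finset.mem_image]
    refine ⟨fun j => ⟨(⌊B.repr (g : E) j⌋ + 1).toNat, by have := hz j; omega⟩, Finset.mem_univ _, ?_⟩
    have hg2 : ZSpan.floor B (g : E) = g := Subtype.ext hgf
    conv_rhs => rw [← hg2]
    unfold ZSpan.floor
    refine Finset.sum_congr rfl fun j _ => ?_
    congr 1
    have := hz j
    simp only
    rw [Int.toNat_of_nonneg (by omega)]
    ring
  have hm : ∀ c : ι → E, ∀ g : L, Measurable (fun y => F c (g +ᵥ y) ^ p) := by
    intro c g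
    exact ((hFm c).comp (measurable_const_vadd g)).pow_const p
  calc ∫⁻ y, (∑ i, T i (y - a i)) ^ p ∂μ
      = ∑' g : L, ∫⁻ y in ZSpan.fundamentalDomain B, F a (g +ᵥ y) ^ p ∂μ :=
        hFD.lintegral_eq_tsum'' (fun y => F a y ^ p)
    _ = ∫⁻ y in ZSpan.fundamentalDomain B, ∑' g : L, F a (g +ᵥ y) ^ p ∂μ := by
        rw [lintegral_tsum fun g => (hm a g).aemeasurable]
    _ ≤ ∫⁻ y in ZSpan.fundamentalDomain B, (∑' g : L, F b (g +ᵥ y)) ^ p ∂μ := by
        refine lintegral_mono fun y => ?_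
        rw [← hkey1 y]
        exact tsum_rpow_le _ hp
    _ ≤ ∫⁻ y in ZSpan.fundamentalDomain B, ((3 : ℝ≥0∞) ^ n) ^ (p - 1) *
          ∑' g : L, F b (g +ᵥ y) ^ p ∂μ := by
        refine setLIntegral_mono' (ZSpan.fundamentalDomain_measurableSet B) fun y hy => ?_
        rw [tsum_eq_sum (s := J) (fun g hg => hJ0 y hy g hg)]
        refine (ENNReal.rpow_sum_le_const_mul_sum_rpow J _ hp).trans ?_
        refine mul_le_mul' ?_ (ENNReal.sum_le_tsum J)
        refine ENNReal.rpow_le_rpow ?_ (by linarith)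
        exact_mod_cast hJc
    _ = ((3 : ℝ≥0∞) ^ n) ^ (p - 1) * ∫⁻ y in ZSpan.fundamentalDomain B,
          ∑' g : L, F b (g +ᵥ y) ^ p ∂μ := by
        rw [lintegral_const_mul _ (Measurable.tsum fun g => hm b g)]
    _ = ((3 : ℝ≥0∞) ^ n) ^ (p - 1) * ∫⁻ y, F b y ^ p ∂μ := by
        rw [lintegral_tsum fun g => (hm b g).aemeasurable, ← hFD.lintegral_eq_tsum'' (fun y => F b y ^ p)]

end Pool.Agent.U912.Few
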