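import Pool.Agent.U912.Few.Fine
import Pool.Agent.U912.Few.Wrap

set_option autoImplicit false

/-! The inequality for few clustered positions at a fine scale gives the inequality at a coarse scale. -/

open MeasureTheory Set Filter Topology ENNReal NNReal Metric

namespace Pool.Agent.U912.Few

open Pool.Agent.H810R3.Tub Pool.Agent.R251.Nec

variable {d : ℕ}

theorem box_sub (N : ℝ) (e : Space d) (f : Fin d → Space d) (a y : Space d) :
    y ∈ box N e f a ↔ y - a ∈ box N e f 0 := by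
  unfold box
  simp only [Set.mem_ofPred_eq, sub_zero]

theorem Fb_sub {ι : Type} [Fintype ι] (N : ℝ) (ω : ι → Vec d) (f : ι → Fin d → Space d)
    (a : ι → Space d) (y : Space d) :
    Fb N ω f a y = ∑ i, (box N (nor (ω i)) (f i) 0).indicator (fun _ => (1 : ℝ≥0∞)) (y - a i) := by
  unfold Fb
  refine Finset.sum_congr rfl fun i _ => ?_
  by_cases h : y ∈ box N (nor (ω i)) (f i) (a i)
  · rw [indicator_of_mem h, indicator_of_mem ((box_sub _ _ _ _ _).1 h)]
  · rw [indicator_of_notMem h, indicator_of_notMem (fun h' => h ((box_sub _ _ _ _ _).2 h'))]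

/-- Positions in a ball. -/
theorem wrap_box {ι : Type} [Fintype ι] {K : ℝ} (hK : 1 ≤ K) {ω : ι → Vec d} {f : ι → Fin d → Space d}
    (hf : ∀ i, Orthonormal ℝ (Fin.cons (nor (ω i)) (f i) : Fin (d + 1) → Space d)) (a : ι → Space d)
    {p : ℝ} (hp : 1 ≤ p) :
    ∃ b : ι → Space d, (∀ i, ‖b i‖ ≤ (d + 1) * ((d + 2) * K ^ 2)) ∧
      ∫⁻ y, Fb K ω f a y ^ p ≤ ENNReal.ofReal (((3:ℝ) ^ (d + 1)) ^ (p - 1)) * ∫⁻ y, Fb K ω f b y ^ p := by
  have hK0 : 0 < K := by linarith
  obtain ⟨g, hg⟩ := exists_frame (nor (0 : Vec d)) (norm_dir _)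
  obtain ⟨b, hb1, hb2⟩ := wrap (volume : Measure (Space d)) (frame hg) (M := (d + 2) * K ^ 2)
    (by positivity) (fun i => (box K (nor (ω i)) (f i) 0).indicator (fun _ => (1 : ℝ≥0∞)))
    (fun i => measurable_const.indicator (box_closed _ _ _ _).measurableSet) (by
      intro i y hy
      apply indicator_of_notMem
      intro hm
      have h := box_sub_ball hK (hf i) hm
      rw [mem_closedBall, dist_zero_right] at h
      nlinarith [sq_nonneg K]) a hp
  refine ⟨b, ?_, ?_⟩
  · intro i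
    refine (hb1 i).trans (le_of_eq ?_)
    push_cast
    ring
  · simp only [← Fb_sub] at hb2
    refine hb2.trans (le_of_eq ?_)
    congr 1
    rw [← ENNReal.ofReal_rpow_of_nonneg (by positivity) (by linarith), ENNReal.ofReal_pow (by norm_num)]
    norm_num

theorem scale_up (d : ℕ) (hd : 1 ≤ d) {p : ℝ} (hp : 1 ≤ p) (hpd : 1 < d * (p - 1)) {σ κ : ℝ}
    (hσ : 0 < σ) (hκ : 0 < κ) :
    ∃ C : ℝ, 1 ≤ C ∧ ∀ K N B : ℝ, 1 ≤ K → C * K ≤ N → 0 ≤ B →
      (∀ (ι : Type) [Fintype ι] (ω : ι → Vec d) (f : ι → Fin d → Space d) (a : ι → Space d),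
        Caps 1 (1 / C) N ω f → ((range a).ncard : ℝ) ≤ C * K ^ d → (∀ i, ‖a i‖ ≤ C * K * N) →
        Iq B N p ω f a) →
      ∀ (ι : Type) [Fintype ι] (ω : ι → Vec d) (f : ι → Fin d → Space d) (a : ι → Space d),
        Caps σ κ K ω f → Iq (C * B) K p ω f a := by
  classical
  obtain ⟨D, hD0, hD⟩ := bush d hd (σ := 1) one_pos hp hpd
  have hd0 : (0:ℝ) < d := by exact_mod_cast hd
  have hp0 : 0 < p := by linarith
  have hw := wv_pos d
  set r : ℝ := d * (p - 1) with hr
  have hr0 : 0 < r := by linarith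
  set s : ℝ := min σ 1 with hs
  have hs0 : 0 < s := lt_min hσ one_pos
  have hs1 : s ≤ 1 := min_le_right _ _
  have hsσ : s ≤ σ := min_le_left _ _
  set k' : ℝ := κ * (s / (8 * d)) ^ d with hk'
  have hk'0 : 0 < k' := by positivity
  set E : ℝ := ((3:ℝ) ^ (d + 1)) ^ (p - 1) * ((8 * d / s) ^ r * ((d + 1 : ℝ) ^ (d + 1) * D)) with hE
  have hE0 : 0 < E := by positivity
  set Z : ℝ := E * κ ^ (1 - p) * (2 ^ (d + 1) / wv d) with hZ
  have hZ0 : 0 < Z := by positivity
  set C : ℝ := 1 + 1 / k' + 2 / s + (2 / σ + 2) ^ d + (d + 2) + Z with hC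
  have t1 : 0 < 1 / k' := by positivity
  have t2 : 0 < 2 / s := by positivity
  have t3 : 0 < (2 / σ + 2) ^ d := by positivity
  have hC1 : 1 ≤ C := by linarith
  have hC0 : 0 < C := by linarith
  refine ⟨C, hC1, ?_⟩
  intro K N B hK hCN hB hyp ι _ ω f a hcaps
  obtain ⟨hω, hsep, hcard, hf⟩ := hcaps
  have hK0 : 0 < K := by linarith
  have hKN : K ≤ N := by nlinarith
  have hN0 : 0 < N := by linarith
  have hN1 : 1 ≤ N := by linarith
  obtain ⟨b, hb1, hb2⟩ := wrap_box hK hf a hp
  obtain ⟨m, hm, ω', f', hω', hsep', hf', hcl⟩ := fine hd hs0 hs1 hK (N := N) (by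
      have h1 : 2 * K / s = 2 / s * K := by ring
      rw [h1]
      have h2 : 2 / s * K ≤ C * K := mul_le_mul_of_nonneg_right (by linarith) hK0.le
      linarith) hω (fun i j hij => le_trans (div_le_div_of_nonneg_right hsσ hK0.le) (hsep i j hij))
  set lam : ℝ := N / ((d + 1) * K) with hlam
  have hlam0 : 0 < lam := by positivity
  set b' : ι × (Fin d → Fin (m + 1)) → Space d := fun x => lam • b x.1 with hb'
  set L : ℝ := ((m + 1 : ℕ) : ℝ) ^ d with hL
  have hL0 : 0 < L := by positivity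
  have hcard' : (Fintype.card (ι × (Fin d → Fin (m + 1))) : ℝ) = Fintype.card ι * L := by
    rw [Fintype.card_prod, Fintype.card_fun, Fintype.card_fin, Fintype.card_fin, hL]
    push_cast
    ring
  have hLm : (s * N / (8 * d * K)) ^ d ≤ L := pow_le_pow_left₀ (by positivity) hm d
  -- the fine family
  have hcaps' : Caps 1 (1 / C) N ω' f' := by
    refine ⟨hω', hsep', ?_, hf'⟩
    rw [hcard']
    have h1 : 1 / C ≤ k' := by
      rw [div_le_iff₀ hC0]
      have h2 : k' * (1 / k') = 1 := by field_simp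
      have h3 : k' * (1 / k') ≤ k' * C := mul_le_mul_of_nonneg_left (by linarith) hk'0.le
      linarith
    calc 1 / C * N ^ d ≤ k' * N ^ d := by gcongr
      _ = (κ * K ^ d) * (s * N / (8 * d * K)) ^ d := by
          have e9 : s * N / (8 * d * K) = s / (8 * d) * (N / K) := by field_simp
          rw [hk', e9, mul_pow, div_pow N K]
          field_simp
      _ ≤ Fintype.card ι * L := by gcongr
  have hran : ((range b').ncard : ℝ) ≤ C * K ^ d := by
    have h1 : (range b').ncard ≤ Fintype.card ι := by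
      have h2 : range b' ⊆ range (fun i => lam • b i) := by
        rintro _ ⟨x, rfl⟩
        exact ⟨x.1, rfl⟩
      refine (Set.ncard_le_ncard h2 (Set.finite_range _)).trans ?_
      rw [← Set.image_univ]
      refine (Set.ncard_image_le (Set.finite_univ)).trans ?_
      rw [Set.ncard_univ, Nat.card_eq_fintype_card]
    have h2 : (Fintype.card ι : ℝ) ≤ (2 / σ + 2) ^ d * K ^ d := by
      rw [← mul_pow]
      exact card_le hσ hK hω hsep
    have h3 : (2 / σ + 2) ^ d * K ^ d ≤ C * K ^ d := by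
      apply mul_le_mul_of_nonneg_right _ (by positivity)
      linarith
    have h4 : ((range b').ncard : ℝ) ≤ Fintype.card ι := by exact_mod_cast h1
    linarith
  have hbd : ∀ x, ‖b' x‖ ≤ C * K * N := by
    intro x
    rw [hb', norm_smul, Real.norm_eq_abs, abs_of_pos hlam0]
    calc lam * ‖b x.1‖ ≤ lam * ((d + 1) * ((d + 2) * K ^ 2)) := by gcongr; exact hb1 _
      _ = (d + 2) * K * N := by rw [hlam]; field_simp
      _ ≤ C * K * N := by
          have : (d:ℝ) + 2 ≤ C := by linarith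
          gcongr
  have hI := hyp _ ω' f' b' hcaps' hran hbd
  unfold Iq at hI
  -- domination
  have hdom : ∀ y, ENNReal.ofReal L * Fb K ω f b y ≤ Fb N ω' f' b' (lam • y) := by
    intro y
    unfold Fb
    rw [Fintype.sum_prod_type, Finset.mul_sum]
    refine Finset.sum_le_sum fun i _ => ?_
    by_cases hy : y ∈ box K (nor (ω i)) (f i) (b i)
    · rw [indicator_of_mem hy, mul_one]
      have h1 : ∀ v : Fin d → Fin (m + 1), (box N (nor (ω' (i, v))) (f' (i, v)) (b' (i, v))).indicator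
          (fun _ => (1 : ℝ≥0∞)) (lam • y) = 1 := by
        intro v
        exact indicator_of_mem (contain hd hK hKN (hf i) (hf' (i, v)) (hcl (i, v)) hy) _
      rw [Finset.sum_congr rfl (fun v _ => h1 v), Finset.sum_const, Finset.card_univ, Fintype.card_fun,
        Fintype.card_fin, Fintype.card_fin, nsmul_eq_mul, mul_one, hL, ← Nat.cast_pow,
        ENNReal.ofReal_natCast]
    · rw [indicator_of_notMem hy, mul_zero]
      exact zero_le
  have hD' := hD N hN1 _ ω' f' hω' hsep' hf' N hN0 Set.univ MeasurableSet.univ (fun t _ => le_rfl)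
  have hu : {y : Space d | y.snd ∈ (Set.univ : Set ℝ)} = Set.univ := by simp
  rw [hu, Measure.restrict_univ, hcard', ← Real.rpow_add hN0] at hD'
  have hexp : ((d:ℝ) + 2 * r + (1 - r)) = r + ((d + 1 : ℕ) : ℝ) := by push_cast; ring
  rw [hexp] at hD'
  -- the integral
  have hmain : ENNReal.ofReal L ^ p * ∫⁻ y, Fb K ω f b y ^ p ≤
      ENNReal.ofReal (lam ^ (-((d + 1 : ℕ) : ℝ)) * (B ^ p * (D * (Fintype.card ι * L *
        N ^ (r + ((d + 1 : ℕ) : ℝ)))))) := by
    calc ENNReal.ofReal L ^ p * ∫⁻ y, Fb K ω f b y ^ p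
        = ∫⁻ y, (ENNReal.ofReal L * Fb K ω f b y) ^ p := by
          rw [← lintegral_const_mul' _ _ (ENNReal.rpow_ne_top_of_nonneg hp0.le ENNReal.ofReal_ne_top)]
          refine lintegral_congr fun y => ?_
          rw [ENNReal.mul_rpow_of_nonneg _ _ hp0.le]
      _ ≤ ∫⁻ y, Fb N ω' f' b' (lam • y) ^ p :=
          lintegral_mono fun y => ENNReal.rpow_le_rpow (hdom y) hp0.le
      _ = ENNReal.ofReal |(lam ^ (d + 1))⁻¹| * ∫⁻ y, Fb N ω' f' b' y ^ p := by
          rw [lint_smul volume hlam0.ne' (fun y => Fb N ω' f' b' y ^ p), finrank_space]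
      _ ≤ ENNReal.ofReal |(lam ^ (d + 1))⁻¹| * (ENNReal.ofReal B ^ p *
          ENNReal.ofReal (D * (Fintype.card ι * L * N ^ (r + ((d + 1 : ℕ) : ℝ))))) := by
          refine mul_le_mul' le_rfl (hI.trans (mul_le_mul' le_rfl ?_))
          exact hD'
      _ = _ := by
          rw [ENNReal.ofReal_rpow_of_nonneg hB hp0.le, ← ENNReal.ofReal_mul (by positivity),
            ← ENNReal.ofReal_mul (by positivity)]
          congr 1
          rw [abs_of_pos (by positivity), Real.rpow_neg hlam0.le, Real.rpow_natCast]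
  have hb3 : ∫⁻ y, Fb K ω f b y ^ p ≤ ENNReal.ofReal ((8 * d / s) ^ r * ((d + 1 : ℝ) ^ (d + 1) * D) *
      (Fintype.card ι * K ^ (d * p + 1 : ℝ)) * B ^ p) := by
    have hLp : (0:ℝ) < L ^ p := by positivity
    have h1 : ENNReal.ofReal L ^ p = ENNReal.ofReal (L ^ p) := ENNReal.ofReal_rpow_of_pos hL0
    rw [h1, mul_comm, ← ENNReal.le_div_iff_mul_le (Or.inl (by simpa using hLp)) (Or.inl ENNReal.ofReal_ne_top),
      ← ENNReal.ofReal_div_of_pos hLp] at hmain
    refine hmain.trans (ENNReal.ofReal_le_ofReal ?_)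
    have e1 : L ^ p = L * L ^ (p - 1) := by
      rw [← Real.rpow_one_add' hL0.le (by linarith)]
      congr 1
      ring
    have e2 : (s * N / (8 * d * K)) ^ r ≤ L ^ (p - 1) := by
      have h3 := Real.rpow_le_rpow (by positivity) hLm (show 0 ≤ p - 1 by linarith)
      rw [← Real.rpow_natCast (s * N / (8 * d * K)) d, ← Real.rpow_mul (by positivity)] at h3
      exact h3
    have e3 : (s * N / (8 * d * K)) ^ r = N ^ r / ((8 * d / s) ^ r * K ^ r) := by
      rw [← Real.mul_rpow (by positivity) (by positivity), ← Real.div_rpow (by positivity) (by positivity)]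
      congr 1
      field_simp
    have e4 : lam ^ (-((d + 1 : ℕ) : ℝ)) = (d + 1 : ℝ) ^ (d + 1) * K ^ (d + 1) / N ^ (d + 1) := by
      rw [Real.rpow_neg hlam0.le, Real.rpow_natCast, hlam, div_pow, inv_div, mul_pow]
    have e5 : N ^ (r + ((d + 1 : ℕ) : ℝ)) = N ^ r * N ^ (d + 1) := by
      rw [Real.rpow_add hN0, Real.rpow_natCast]
    have e6 : K ^ (d * p + 1 : ℝ) = K ^ r * K ^ (d + 1) := by
      rw [← Real.rpow_natCast K (d + 1), ← Real.rpow_add hK0]
      congr 1
      rw [hr]
      push_cast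
      ring
    have hX : 0 < (8 * d / s) ^ r * K ^ r := by positivity
    have hNr : 0 < N ^ r := by positivity
    have hL1 : 0 < L ^ (p - 1) := by positivity
    rw [e3, div_le_iff₀ hX] at e2
    rw [e1, e4, e5, e6]
    rw [div_le_iff₀ (by positivity)]
    calc (d + 1 : ℝ) ^ (d + 1) * K ^ (d + 1) / N ^ (d + 1) * (B ^ p * (D * (Fintype.card ι * L *
            (N ^ r * N ^ (d + 1)))))
        = ((d + 1 : ℝ) ^ (d + 1) * K ^ (d + 1) * B ^ p * D * Fintype.card ι * L) * N ^ r := by
          field_simp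
      _ ≤ ((d + 1 : ℝ) ^ (d + 1) * K ^ (d + 1) * B ^ p * D * Fintype.card ι * L) *
            (L ^ (p - 1) * ((8 * d / s) ^ r * K ^ r)) := by
          apply mul_le_mul_of_nonneg_left e2 (by positivity)
      _ = _ := by ring
  refine iq_of (E := E) (κ := κ) hE0.le hκ hK hp hB hC0.le hf hcard a ?_ ?_
  · refine hb2.trans ((mul_le_mul' le_rfl hb3).trans (le_of_eq ?_))
    rw [← ENNReal.ofReal_mul (by positivity)]
    congr 1
    rw [hE]
    ring
  · calc Z ≤ C := by linarith
      _ = C ^ (1:ℝ) := (Real.rpow_one C).symm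
      _ ≤ C ^ p := Real.rpow_le_rpow_of_exponent_le hC1 hp

end Pool.Agent.U912.Few
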